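import Mathlib

/-! q-shifted factorials in a ring with a square-zero element: a vanishing theorem for
`∑ (q,q^2,…,q^d;q^m)_k / (q^m;q^m)_k^d q^(mk)`. -/

namespace Pool.Agent.Q33.QPhi

open Finset

variable {B : Type*} [CommRing B]

/-- `(w;Q)_k` -/
def poch (w Q : B) (k : ℕ) : B := ∏ l ∈ range k, (1 - w * Q ^ l)

theorem poch_succ (w Q : B) (k : ℕ) : poch w Q (k + 1) = poch w Q k * (1 - w * Q ^ k) := by
  rw [poch, prod_range_succ, ← poch]

theorem poch_add (Q : B) (a b : ℕ) : poch Q Q (a + b) = poch Q Q a * poch (Q ^ (a + 1)) Q b := by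
  rw [poch, prod_range_add]
  unfold poch
  congr 1
  refine prod_congr rfl fun l _ => ?_
  rw [pow_add, pow_succ]
  ring

theorem poch_eq_zero {w Q : B} {N k : ℕ} (hw : w * Q ^ N = 1) (hk : N < k) : poch w Q k = 0 := by
  rw [poch]
  apply prod_eq_zero (mem_range.2 hk)
  rw [hw, sub_self]

/-- the moments of the terminating `q`-binomial series -/
theorem moment {Q w : B} {n N : ℕ} (hu : ∀ j, 1 ≤ j → j < n → IsUnit (1 - Q ^ j)) (hNn : N < n)
    (hw : w * Q ^ N = 1) (h : ℕ → B) (hh : ∀ k, k < n → h k * poch Q Q k = 1) {j : ℕ} (hj : j < N) :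
    ∑ k ∈ range n, poch w Q k * h k * Q ^ (k * (j + 1)) = 0 := by
  obtain ⟨n, rfl⟩ : ∃ n', n = n' + 1 := ⟨n - 1, by omega⟩
  have hstep : ∀ k, k + 1 < n + 1 → h (k + 1) * (1 - Q ^ (k + 1)) = h k := by
    intro k hk
    have h1 := hh (k + 1) hk
    have h2 := hh k (by omega)
    rw [poch_succ] at h1
    have h3 : Q * Q ^ k = Q ^ (k + 1) := by ring
    rw [h3] at h1
    linear_combination h k * h1 - h (k + 1) * (1 - Q ^ (k + 1)) * h2
  have hrec : ∀ j, (1 - Q ^ j) * ∑ k ∈ range (n + 1), poch w Q k * h k * Q ^ (k * j)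
      = (1 - w * Q ^ j) * ∑ k ∈ range (n + 1), poch w Q k * h k * Q ^ (k * (j + 1)) := by
    intro j
    have e1 : ∑ k ∈ range (n + 1), poch w Q k * h k * (1 - Q ^ k) * Q ^ (k * j)
        = ∑ k ∈ range (n + 1), poch w Q k * (1 - w * Q ^ k) * h k * Q ^ ((k + 1) * j) := by
      rw [sum_range_succ' (fun k => poch w Q k * h k * (1 - Q ^ k) * Q ^ (k * j)),
        sum_range_succ (fun k => poch w Q k * (1 - w * Q ^ k) * h k * Q ^ ((k + 1) * j))]
      have e2 : poch w Q n * (1 - w * Q ^ n) = 0 := by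
        rw [← poch_succ]
        exact poch_eq_zero hw hNn
      rw [e2, pow_zero, sub_self, mul_zero, zero_mul, zero_mul, zero_mul, add_zero, add_zero]
      refine sum_congr rfl fun k hk => ?_
      rw [mem_range] at hk
      rw [poch_succ]
      linear_combination poch w Q k * (1 - w * Q ^ k) * Q ^ ((k + 1) * j) * hstep k (by omega)
    have e3 : ∑ k ∈ range (n + 1), poch w Q k * h k * (1 - Q ^ k) * Q ^ (k * j)
        = ∑ k ∈ range (n + 1), poch w Q k * h k * Q ^ (k * j)
          - ∑ k ∈ range (n + 1), poch w Q k * h k * Q ^ (k * (j + 1)) := by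
      rw [← sum_sub_distrib]
      refine sum_congr rfl fun k _ => ?_
      rw [show k * (j + 1) = k * j + k by ring, pow_add]
      ring
    have e4 : ∑ k ∈ range (n + 1), poch w Q k * (1 - w * Q ^ k) * h k * Q ^ ((k + 1) * j)
        = Q ^ j * ∑ k ∈ range (n + 1), poch w Q k * h k * Q ^ (k * j)
          - w * Q ^ j * ∑ k ∈ range (n + 1), poch w Q k * h k * Q ^ (k * (j + 1)) := by
      rw [mul_sum, mul_sum, ← sum_sub_distrib]
      refine sum_congr rfl fun k _ => ?_
      rw [show k * (j + 1) = k * j + k by ring, pow_add, show (k + 1) * j = k * j + j by ring, pow_add]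
      ring
    rw [e3, e4] at e1
    linear_combination e1
  have hunit : ∀ j, j < N → IsUnit (1 - w * Q ^ j) := by
    intro j hj
    have h1 : w * Q ^ j * Q ^ (N - j) = 1 := by
      rw [mul_assoc, ← pow_add, show j + (N - j) = N by omega, hw]
    have h2 : 1 - w * Q ^ j = -(w * Q ^ j) * (1 - Q ^ (N - j)) := by linear_combination -h1
    rw [h2]
    exact (IsUnit.of_mul_eq_one _ h1).neg.mul (hu _ (by omega) (by omega))
  induction j with
  | zero =>
    have h1 := hrec 0
    rw [pow_zero, sub_self, zero_mul] at h1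
    have h2 := hunit 0 hj
    rw [pow_zero] at h2
    exact (h2.mul_right_eq_zero).1 h1.symm
  | succ j ih =>
    have h1 := hrec (j + 1)
    rw [ih (by omega), mul_zero] at h1
    exact ((hunit (j + 1) hj).mul_right_eq_zero).1 h1.symm

/-- the vanishing for a polynomial weight -/
theorem moment_poly {Q w : B} {n N : ℕ} (hu : ∀ j, 1 ≤ j → j < n → IsUnit (1 - Q ^ j)) (hNn : N < n)
    (hw : w * Q ^ N = 1) (h : ℕ → B) (hh : ∀ k, k < n → h k * poch Q Q k = 1) (R : Polynomial B)
    (hR : R.natDegree < N) :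
    ∑ k ∈ range n, poch w Q k * h k * Q ^ k * R.eval (Q ^ k) = 0 := by
  have e : ∀ k ∈ range n, poch w Q k * h k * Q ^ k * R.eval (Q ^ k)
      = ∑ i ∈ range (R.natDegree + 1), R.coeff i * (poch w Q k * h k * Q ^ (k * (i + 1))) := by
    intro k _
    rw [Polynomial.eval_eq_sum_range, mul_sum]
    refine sum_congr rfl fun i _ => ?_
    rw [← pow_mul, show k * (i + 1) = k + k * i by ring, pow_add]
    ring
  rw [sum_congr rfl e, sum_comm]
  apply sum_eq_zero
  intro i hi
  rw [mem_range] at hi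
  rw [← mul_sum, moment hu hNn hw h hh (by omega), mul_zero]

/-- `(Q^a;Q)_k/(Q;Q)_k` as a polynomial in `Q^k` -/
theorem ratio {Q : B} {n a k : ℕ} (h : ℕ → B) (hh : ∀ k, k < n → h k * poch Q Q k = 1)
    (ha : 1 ≤ a) (han : a ≤ n) (hk : k < n) :
    poch (Q ^ a) Q k * h k = h (a - 1) *
      Polynomial.eval (Q ^ k) (∏ l ∈ range (a - 1), (1 - Polynomial.C (Q ^ (l + 1)) * Polynomial.X)) := by
  have h1 : Polynomial.eval (Q ^ k) (∏ l ∈ range (a - 1), (1 - Polynomial.C (Q ^ (l + 1)) * Polynomial.X))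
      = poch (Q ^ (k + 1)) Q (a - 1) := by
    rw [Polynomial.eval_prod, poch]
    refine prod_congr rfl fun l _ => ?_
    rw [Polynomial.eval_sub, Polynomial.eval_one, Polynomial.eval_mul, Polynomial.eval_C, Polynomial.eval_X]
    ring
  rw [h1]
  have h2 := poch_add Q (a - 1) k
  have h3 := poch_add Q k (a - 1)
  rw [show a - 1 + 1 = a by omega] at h2
  rw [add_comm k (a - 1), h2] at h3
  have h4 := hh k hk
  have h5 := hh (a - 1) (by omega)
  linear_combination h k * h (a - 1) * h3 - poch (Q ^ a) Q k * h k * h5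
    + h (a - 1) * poch (Q ^ (k + 1)) Q (a - 1) * h4

/-- the terminating case -/
theorem term {Q w : B} {n N : ℕ} (hu : ∀ j, 1 ≤ j → j < n → IsUnit (1 - Q ^ j)) (hNn : N < n)
    (hw : w * Q ^ N = 1) (h : ℕ → B) (hh : ∀ k, k < n → h k * poch Q Q k = 1) (s : Finset ℕ)
    (a : ℕ → ℕ) (ha : ∀ j ∈ s, 1 ≤ a j ∧ a j ≤ n) (hdeg : ∑ j ∈ s, (a j - 1) < N) :
    ∑ k ∈ range n, poch w Q k * h k * (∏ j ∈ s, (poch (Q ^ (a j)) Q k * h k)) * Q ^ k = 0 := by
  set R : Polynomial B := ∏ j ∈ s, (Polynomial.C (h (a j - 1)) *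
    ∏ l ∈ range (a j - 1), (1 - Polynomial.C (Q ^ (l + 1)) * Polynomial.X)) with hR
  have hRdeg : R.natDegree < N := by
    refine lt_of_le_of_lt ?_ hdeg
    rw [hR]
    refine (Polynomial.natDegree_prod_le _ _).trans (sum_le_sum fun j _ => ?_)
    refine (Polynomial.natDegree_C_mul_le _ _).trans ?_
    refine (Polynomial.natDegree_prod_le _ _).trans ?_
    calc ∑ l ∈ range (a j - 1), (1 - Polynomial.C (Q ^ (l + 1)) * Polynomial.X : Polynomial B).natDegree
        ≤ ∑ l ∈ range (a j - 1), 1 := by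
          refine sum_le_sum fun l _ => ?_
          refine (Polynomial.natDegree_sub_le _ _).trans ?_
          rw [Polynomial.natDegree_one]
          refine max_le (Nat.zero_le _) ?_
          refine (Polynomial.natDegree_C_mul_le _ _).trans Polynomial.natDegree_X_le
      _ = a j - 1 := by simp
  have h1 := moment_poly hu hNn hw h hh R hRdeg
  rw [← h1]
  refine sum_congr rfl fun k hk => ?_
  rw [mem_range] at hk
  have h2 : ∏ j ∈ s, (poch (Q ^ (a j)) Q k * h k) = R.eval (Q ^ k) := by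
    rw [hR, Polynomial.eval_prod]
    refine prod_congr rfl fun j hj => ?_
    rw [Polynomial.eval_mul, Polynomial.eval_C]
    exact ratio h hh (ha j hj).1 (ha j hj).2 hk
  rw [h2]
  ring

/-- the derivative of `(A(1+cε);Q)_k` with respect to `c` -/
def D (A Q : B) : ℕ → B
  | 0 => 0
  | k + 1 => D A Q k * (1 - A * Q ^ k) - poch A Q k * (A * Q ^ k)

theorem poch_eps {e : B} (he : e ^ 2 = 0) (A Q c : B) (k : ℕ) :
    poch (A * (1 + c * e)) Q k = poch A Q k + e * (c * D A Q k) := by
  induction k with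
  | zero => simp [poch, D]
  | succ k ih =>
    rw [poch_succ, poch_succ, ih, D]
    linear_combination (-(c ^ 2 * D A Q k * A * Q ^ k)) * he

theorem prod_eps {e : B} (he : e ^ 2 = 0) (s : Finset ℕ) (x y : ℕ → B) :
    ∏ i ∈ s, (x i + e * y i) = ∏ i ∈ s, x i + e * ∑ i ∈ s, y i * ∏ j ∈ s.erase i, x j := by
  induction s using Finset.induction_on with
  | empty => simp
  | insert a s ha ih =>
    rw [prod_insert ha, prod_insert ha, sum_insert ha, erase_insert ha, ih]
    have h1 : ∑ i ∈ s, y i * ∏ j ∈ (insert a s).erase i, x j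
        = x a * ∑ i ∈ s, y i * ∏ j ∈ s.erase i, x j := by
      rw [mul_sum]
      refine sum_congr rfl fun i hi => ?_
      have hne : a ≠ i := fun h => ha (h ▸ hi)
      rw [erase_insert_of_ne hne, prod_insert (fun h => ha (mem_of_mem_erase h))]
      ring
    rw [h1]
    linear_combination (y a * ∑ i ∈ s, y i * ∏ j ∈ s.erase i, x j) * he

/-- the sum with perturbed parameters -/
def F (Q e : B) (n : ℕ) (h : ℕ → B) (s : Finset ℕ) (a : ℕ → ℕ) (c : ℕ → B) : B :=
  ∑ k ∈ range n, (∏ i ∈ s, (poch (Q ^ (a i) * (1 + c i * e)) Q k * h k)) * Q ^ k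

theorem F_affine {Q e : B} (he : e ^ 2 = 0) (n : ℕ) (h : ℕ → B) (s : Finset ℕ) (a : ℕ → ℕ) :
    ∃ G : ℕ → B, ∀ c : ℕ → B, F Q e n h s a c = F Q e n h s a 0 + e * ∑ i ∈ s, c i * G i := by
  refine ⟨fun i => ∑ k ∈ range n, (D (Q ^ (a i)) Q k * h k) *
    (∏ j ∈ s.erase i, (poch (Q ^ (a j)) Q k * h k)) * Q ^ k, fun c => ?_⟩
  have key : ∀ c : ℕ → B, F Q e n h s a c = ∑ k ∈ range n, (∏ i ∈ s, (poch (Q ^ (a i)) Q k * h k)) * Q ^ k
      + e * ∑ i ∈ s, c i * ∑ k ∈ range n, (D (Q ^ (a i)) Q k * h k) *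
    (∏ j ∈ s.erase i, (poch (Q ^ (a j)) Q k * h k)) * Q ^ k := by
    intro c
    have e1 : ∑ i ∈ s, c i * ∑ k ∈ range n, (D (Q ^ (a i)) Q k * h k) *
        (∏ j ∈ s.erase i, (poch (Q ^ (a j)) Q k * h k)) * Q ^ k
        = ∑ k ∈ range n, (∑ i ∈ s, (c i * D (Q ^ (a i)) Q k * h k) *
          (∏ j ∈ s.erase i, (poch (Q ^ (a j)) Q k * h k))) * Q ^ k := by
      simp_rw [mul_sum, sum_mul]
      rw [sum_comm]
      refine sum_congr rfl fun k _ => sum_congr rfl fun i _ => ?_
      ring
    rw [e1, mul_sum, F, ← sum_add_distrib]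
    refine sum_congr rfl fun k _ => ?_
    have e2 : ∏ i ∈ s, (poch (Q ^ (a i) * (1 + c i * e)) Q k * h k)
        = ∏ i ∈ s, (poch (Q ^ (a i)) Q k * h k + e * (c i * D (Q ^ (a i)) Q k * h k)) := by
      refine prod_congr rfl fun i _ => ?_
      rw [poch_eps he]
      ring
    rw [e2, prod_eps he]
    ring
  rw [key c, key 0]
  have e3 : ∑ i ∈ s, (0 : ℕ → B) i * ∑ k ∈ range n, (D (Q ^ (a i)) Q k * h k) *
    (∏ j ∈ s.erase i, (poch (Q ^ (a j)) Q k * h k)) * Q ^ k = 0 := by
    apply sum_eq_zero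
    intro i _
    rw [Pi.zero_apply, zero_mul]
  rw [e3, mul_zero, add_zero]

theorem sum_Icc (d : ℕ) : ∑ i ∈ Icc 1 d, i = d * (d + 1) / 2 := by
  have h := sum_range_id_mul_two (d + 1)
  rw [range_eq_Ico, sum_eq_sum_Ico_succ_bot (by omega)] at h
  have e : Icc 1 d = Ico (0 + 1) (d + 1) := by
    ext x
    rw [mem_Icc, mem_Ico]
    omega
  rw [e]
  have h2 : d * (d + 1) = (d + 1) * (d + 1 - 1) := by
    rw [show d + 1 - 1 = d by omega]
    ring
  rw [h2, ← h]
  omega

/-- the vanishing theorem -/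
theorem main {q e : B} (he : e ^ 2 = 0) {n d m t : ℕ} (hd : 3 ≤ d) (hm : m = d * (d + 1) / 2)
    (hn : n + 1 = m * t) (hn1 : 1 < n) (hq : q ^ n = 1 + e)
    (hu : ∀ j, 1 ≤ j → j < n → IsUnit (1 - (q ^ m) ^ j)) (hmu : IsUnit (m : B)) (h : ℕ → B)
    (hh : ∀ k, k < n → h k * poch (q ^ m) (q ^ m) k = 1) :
    ∑ k ∈ range n, (∏ i ∈ Icc 1 d, (poch (q ^ i) (q ^ m) k * h k)) * (q ^ m) ^ k = 0 := by
  set Q := q ^ m with hQ
  have hQn : Q ^ n = 1 + m * e := by
    rw [hQ, ← pow_mul, mul_comm m n, pow_mul, hq]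
    have : ∀ j : ℕ, (1 + e) ^ j = 1 + j * e := by
      intro j
      induction j with
      | zero => simp
      | succ j ih =>
        rw [pow_succ, ih]
        push_cast
        linear_combination (j : B) * he
    exact this m
  have hqi : ∀ i : ℕ, q ^ i = Q ^ (i * t) * (1 + (-(i : B)) * e) := by
    intro i
    have h1 : q ^ i * (1 + e) ^ i = Q ^ (i * t) := by
      rw [← hq, hQ, ← pow_mul, ← pow_mul, ← pow_add]
      congr 1
      have : i + n * i = i * (n + 1) := by ring
      rw [this, hn]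
      ring
    have h2 : ∀ j : ℕ, (1 + e) ^ j = 1 + j * e := by
      intro j
      induction j with
      | zero => simp
      | succ j ih =>
        rw [pow_succ, ih]
        push_cast
        linear_combination (j : B) * he
    rw [h2] at h1
    rw [← h1]
    linear_combination (q ^ i * (i : B) ^ 2) * he
  obtain ⟨G, hG⟩ := F_affine (Q := Q) he n h (Icc 1 d) (fun i => i * t)
  -- sizes
  have hm2 : 2 * m = d * (d + 1) := by
    rw [hm]
    exact Nat.mul_div_cancel' (Nat.even_mul_succ_self d).two_dvd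
  have ht : 1 ≤ t := by
    rcases Nat.eq_zero_or_pos t with h0 | h0
    · rw [h0, mul_zero] at hn
      omega
    · exact h0
  have hmd : d + 3 ≤ m := by nlinarith
  have hsize : ∀ i ∈ Icc 1 d, 1 ≤ i * t ∧ i * t ≤ n - 1 := by
    intro i hi
    rw [mem_Icc] at hi
    refine ⟨Nat.one_le_iff_ne_zero.2 (Nat.mul_ne_zero (by omega) (by omega)), ?_⟩
    have h1 : i * t ≤ d * t := Nat.mul_le_mul_right t hi.2
    have h2 : (d + 3) * t ≤ m * t := Nat.mul_le_mul_right t hmd
    have h3 : (d + 3) * t = d * t + 3 * t := by ring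
    omega
  have hS : ∑ i ∈ Icc 1 d, i * t = n + 1 := by
    rw [← sum_mul, sum_Icc, ← hm, hn]
  -- the terminating cases
  have hterm : ∀ i ∈ Icc 1 d, F Q e n h (Icc 1 d) (fun i => i * t) 0 = m * (e * G i) := by
    intro i hi
    have h1 := hG (fun j => if j = i then -(m : B) else 0)
    have h2 : F Q e n h (Icc 1 d) (fun i => i * t) (fun j => if j = i then -(m : B) else 0) = 0 := by
      obtain ⟨hs1, hs2⟩ := hsize i hi
      have h3 : (Q ^ (i * t) * (1 + (-(m : B)) * e)) * Q ^ (n - i * t) = 1 := by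
        have h4 : Q ^ (i * t) * Q ^ (n - i * t) = 1 + m * e := by
          rw [← pow_add, show i * t + (n - i * t) = n by omega, hQn]
        linear_combination (1 + (-(m : B)) * e) * h4 - (m : B) ^ 2 * he
      have h5 := term (Q := Q) hu (N := n - i * t) (by omega) h3 h hh ((Icc 1 d).erase i) (fun j => j * t)
        (fun j hj => by
          obtain ⟨h6, h7⟩ := hsize j (mem_of_mem_erase hj)
          exact ⟨h6, by omega⟩) (by
          have h6 : ∑ j ∈ (Icc 1 d).erase i, (j * t - 1) + ((Icc 1 d).erase i).card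
              = ∑ j ∈ (Icc 1 d).erase i, j * t := by
            rw [card_eq_sum_ones, ← sum_add_distrib]
            refine sum_congr rfl fun j hj => ?_
            have := (hsize j (mem_of_mem_erase hj)).1
            omega
          have h7 : i * t + ∑ j ∈ (Icc 1 d).erase i, j * t = n + 1 := by
            rw [← hS]
            exact add_sum_erase (Icc 1 d) (fun j => j * t) hi
          have h8 : ((Icc 1 d).erase i).card = d - 1 := by
            rw [card_erase_of_mem hi, Nat.card_Icc]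
            omega
          omega)
      refine Eq.trans ?_ h5
      unfold F
      refine sum_congr rfl fun k _ => ?_
      rw [← mul_prod_erase (Icc 1 d) _ hi]
      beta_reduce
      rw [if_pos rfl]
      congr 2
      refine prod_congr rfl fun j hj => ?_
      rw [if_neg (ne_of_mem_erase hj), zero_mul, add_zero, mul_one]
    rw [h2] at h1
    have h9 : ∑ j ∈ Icc 1 d, (if j = i then -(m : B) else 0) * G j = -(m : B) * G i := by
      rw [sum_eq_single i]
      · rw [if_pos rfl]
      · intro j _ hj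
        rw [if_neg hj, zero_mul]
      · intro h0
        exact absurd hi h0
    rw [h9] at h1
    linear_combination -h1
  -- the case in question
  have hfin := hG (fun i => -(i : B))
  have e1 : ∑ k ∈ range n, (∏ i ∈ Icc 1 d, (poch (q ^ i) Q k * h k)) * Q ^ k
      = F Q e n h (Icc 1 d) (fun i => i * t) (fun i => -(i : B)) := by
    unfold F
    refine sum_congr rfl fun k _ => ?_
    congr 1
    refine prod_congr rfl fun i _ => ?_
    rw [hqi i]
  rw [e1, hfin]
  apply (hmu.mul_right_eq_zero).1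
  rw [mul_add, mul_sum, mul_sum]
  have e2 : ∑ i ∈ Icc 1 d, (m : B) * (e * (-(i : B) * G i)) = ∑ i ∈ Icc 1 d, (-(i : B)) * F Q e n h (Icc 1 d) (fun i => i * t) 0 := by
    refine sum_congr rfl fun i hi => ?_
    rw [hterm i hi]
    ring
  rw [e2, ← sum_mul, sum_neg_distrib]
  have e3 : ∑ i ∈ Icc 1 d, (i : B) = m := by
    rw [← Nat.cast_sum, sum_Icc, ← hm]
  rw [e3]
  ring

end Pool.Agent.Q33.QPhi
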