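import Mathlib

/-! Truncated `q`-sums over several periods modulo the square of `q^n - 1`. -/

namespace Pool.Agent.Q33.QPhi

open Finset Polynomial

variable {B : Type*} [CommRing B]

/-- functions of two infinitesimal parameters -/
def Aff (e : B) (f : B → B → B) : Prop :=
  ∃ G H : B, ∀ c y : B, f c y = f 0 0 + e * (c * G + y * H)

theorem Aff.const (e b : B) : Aff e (fun _ _ => b) := ⟨0, 0, fun c y => by ring⟩

theorem Aff.add {e : B} {f g : B → B → B} (hf : Aff e f) (hg : Aff e g) :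
    Aff e (fun c y => f c y + g c y) := by
  obtain ⟨G, H, h⟩ := hf
  obtain ⟨G', H', h'⟩ := hg
  refine ⟨G + G', H + H', fun c y => ?_⟩
  simp only
  rw [h c y, h' c y]
  ring

theorem Aff.mul {e : B} (he : e ^ 2 = 0) {f g : B → B → B} (hf : Aff e f) (hg : Aff e g) :
    Aff e (fun c y => f c y * g c y) := by
  obtain ⟨G, H, h⟩ := hf
  obtain ⟨G', H', h'⟩ := hg
  refine ⟨f 0 0 * G' + g 0 0 * G, f 0 0 * H' + g 0 0 * H, fun c y => ?_⟩
  simp only
  rw [h c y, h' c y]
  linear_combination (c * G + y * H) * (c * G' + y * H') * he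

theorem Aff.neg {e : B} {f : B → B → B} (hf : Aff e f) : Aff e (fun c y => -f c y) := by
  obtain ⟨G, H, h⟩ := hf
  refine ⟨-G, -H, fun c y => ?_⟩
  simp only
  rw [h c y]
  ring

theorem Aff.sub {e : B} {f g : B → B → B} (hf : Aff e f) (hg : Aff e g) :
    Aff e (fun c y => f c y - g c y) := by
  obtain ⟨G, H, h⟩ := hf
  obtain ⟨G', H', h'⟩ := hg
  refine ⟨G - G', H - H', fun c y => ?_⟩
  simp only
  rw [h c y, h' c y]
  ring

theorem Aff.pow {e : B} (he : e ^ 2 = 0) {f : B → B → B} (hf : Aff e f) (k : ℕ) :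
    Aff e (fun c y => f c y ^ k) := by
  induction k with
  | zero => simpa using Aff.const e 1
  | succ k ih =>
    have := ih.mul he hf
    simpa [pow_succ] using this

theorem Aff.prod {e : B} (he : e ^ 2 = 0) {ι : Type*} (s : Finset ι) {f : ι → B → B → B}
    (hf : ∀ i ∈ s, Aff e (f i)) : Aff e (fun c y => ∏ i ∈ s, f i c y) := by
  classical
  induction s using Finset.induction_on with
  | empty => simpa using Aff.const e 1
  | insert a s ha ih =>
    have h1 := (hf a (mem_insert_self a s)).mul he (ih fun i hi => hf i (mem_insert_of_mem hi))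
    simpa [prod_insert ha] using h1

theorem Aff.sum {e : B} {ι : Type*} (s : Finset ι) {f : ι → B → B → B}
    (hf : ∀ i ∈ s, Aff e (f i)) : Aff e (fun c y => ∑ i ∈ s, f i c y) := by
  classical
  induction s using Finset.induction_on with
  | empty => simpa using Aff.const e 0
  | insert a s ha ih =>
    have h1 := (hf a (mem_insert_self a s)).add (ih fun i hi => hf i (mem_insert_of_mem hi))
    simpa [sum_insert ha] using h1

theorem Aff.fst (e : B) : Aff e (fun c _ => 1 + c * e) := ⟨1, 0, fun c y => by ring⟩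

theorem Aff.snd (e : B) : Aff e (fun _ y => 1 + y * e) := ⟨0, 1, fun c y => by ring⟩

/-- a unit at the origin is a unit everywhere, and the inverse is affine -/
theorem Aff.inv {e : B} (he : e ^ 2 = 0) {f g : B → B → B} (hf : Aff e f)
    (hg : ∀ c y, f c y * g c y = 1) : Aff e g := by
  obtain ⟨G, H, h⟩ := hf
  refine ⟨-(g 0 0 ^ 2 * G), -(g 0 0 ^ 2 * H), fun c y => ?_⟩
  have h1 := hg c y
  have h0 := hg 0 0
  rw [h c y] at h1
  -- (f0 + e L) g = 1, f0 g0 = 1
  linear_combination (-(g c y)) * h0 + (g 0 0 - g 0 0 ^ 2 * e * (c * G + y * H)) * h1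
    + (g 0 0 ^ 2 * (c * G + y * H) ^ 2 * g c y) * he
    + (g c y * g 0 0 * e * (c * G + y * H)) * h0

theorem Aff.mul_e {e : B} (he : e ^ 2 = 0) {f : B → B → B} (hf : Aff e f) (c y : B) :
    e * f c y = e * f 0 0 := by
  obtain ⟨G, H, h⟩ := hf
  rw [h c y]
  linear_combination (c * G + y * H) * he

theorem isUnit_add_e {e x : B} (he : e ^ 2 = 0) (hx : IsUnit x) (z : B) : IsUnit (x + e * z) := by
  obtain ⟨u, hu⟩ := hx.exists_right_inv
  refine IsUnit.of_mul_eq_one (u * (1 - e * z * u)) ?_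
  linear_combination (1 - e * z * u) * hu - z ^ 2 * u ^ 2 * he

theorem one_add_pow {e : B} (he : e ^ 2 = 0) (j : ℕ) : (1 + e) ^ j = 1 + j * e := by
  induction j with
  | zero => simp
  | succ j ih =>
    rw [pow_succ, ih]
    push_cast
    linear_combination (j : B) * he

/-- the data: `q^n = 1 + e`, `e^2 = 0`, `n = 2N+1`, `1 - q^j` is a unit unless `n ∣ j` -/
structure Data (B : Type*) [CommRing B] where
  q : B
  e : B
  n : ℕ
  N : ℕ
  hn : n = 2 * N + 1
  he : e ^ 2 = 0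
  hq : q ^ n = 1 + e
  hu : ∀ j, ¬ n ∣ j → IsUnit (1 - q ^ j)

namespace Data

variable (D : Data B)

/-- `1 - q^{s(2l+1)} (1+ce)^s x^{2s}` with `x = 1 + y e` -/
def nu (s l : ℕ) (c y : B) : B := 1 - D.q ^ (s * (2 * l + 1)) * (1 + c * D.e) ^ s * (1 + y * D.e) ^ (2 * s)

/-- `1 - q^{2s(l+1)} x^{2s}` with `x = 1 + y e` -/
def de (s l : ℕ) (_c y : B) : B := 1 - D.q ^ (2 * s * (l + 1)) * (1 + y * D.e) ^ (2 * s)

theorem aff_nu (s l : ℕ) : Aff D.e (D.nu s l) := by
  unfold nu
  exact (Aff.const D.e 1).sub (((Aff.const D.e _).mul D.he ((Aff.fst D.e).pow D.he s)).mul D.he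
    ((Aff.snd D.e).pow D.he _))

theorem aff_de (s l : ℕ) : Aff D.e (D.de s l) := by
  unfold de
  exact (Aff.const D.e 1).sub ((Aff.const D.e _).mul D.he ((Aff.snd D.e).pow D.he _))

theorem unit_de {s l : ℕ} (hs : D.n.Coprime (2 * s)) (hl : l + 1 < D.n) (c y : B) :
    IsUnit (D.de s l c y) := by
  obtain ⟨G, H, h⟩ := D.aff_de s l
  rw [h c y]
  apply isUnit_add_e D.he
  unfold de
  rw [zero_mul, add_zero, one_pow, mul_one]
  apply D.hu
  intro h1
  have h2 := hs.dvd_of_dvd_mul_left h1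
  have := Nat.le_of_dvd (Nat.succ_pos l) h2
  omega

/-- `H_s(k;c,y)` -/
noncomputable def H (s k : ℕ) (c y : B) : B :=
  ∏ l ∈ range k, (D.nu s l c y * Ring.inverse (D.de s l c y))

theorem aff_H {s k : ℕ} (hs : D.n.Coprime (2 * s)) (hk : k < D.n) : Aff D.e (D.H s k) := by
  unfold H
  apply Aff.prod D.he
  intro l hl
  rw [mem_range] at hl
  apply (D.aff_nu s l).mul D.he
  exact (D.aff_de s l).inv D.he fun c y => Ring.mul_inverse_cancel _ (D.unit_de hs (by omega) c y)

/-- `p_s(z) = ∏_{l=1}^{N} (1 - q^{2sl} z^{2s})` -/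
def p (s : ℕ) (z : B) : B := ∏ l ∈ range D.N, (1 - D.q ^ (2 * s * (l + 1)) * z ^ (2 * s))

theorem aff_p (s : ℕ) : Aff D.e (fun _ y => D.p s (1 + y * D.e)) := by
  unfold p
  apply Aff.prod D.he
  intro l _
  exact (Aff.const D.e 1).sub ((Aff.const D.e _).mul D.he ((Aff.snd D.e).pow D.he _))

theorem unit_p {s : ℕ} (hs : D.n.Coprime (2 * s)) (y : B) : IsUnit (D.p s (1 + y * D.e)) := by
  unfold p
  have h := D.hn
  apply Finset.prod_induction _ IsUnit (fun _ _ => IsUnit.mul) isUnit_one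
  intro l hl
  rw [mem_range] at hl
  exact D.unit_de hs (by omega) 0 y

/-- at `c = 1` the product is a quotient of values of the polynomial -/
theorem H_one {s k : ℕ} (hs : D.n.Coprime (2 * s)) (hk : k < D.n) (y : B) :
    D.p s (1 + y * D.e) * D.H s k 1 y = D.p s ((1 + y * D.e) * D.q ^ k) := by
  set x := 1 + y * D.e with hx
  set f : ℕ → B := fun m => 1 - D.q ^ (2 * s * (m + 1)) * x ^ (2 * s) with hf
  have h1 : D.p s x = ∏ l ∈ range D.N, f l := rfl
  have h2 : D.p s (x * D.q ^ k) = ∏ l ∈ range D.N, f (k + l) := by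
    unfold p
    refine prod_congr rfl fun l _ => ?_
    simp only [hf]
    rw [mul_pow, ← pow_mul, show 2 * s * (k + l + 1) = 2 * s * (l + 1) + k * (2 * s) by ring, pow_add]
    ring
  have h3 : ∀ l, D.nu s l 1 y = f (D.N + l) := by
    intro l
    simp only [hf, nu]
    rw [one_mul, ← D.hq, ← pow_mul, ← pow_add, ← hx]
    congr 3
    have h := D.hn
    rw [h]
    ring
  have h4 : D.H s k 1 y * ∏ l ∈ range k, f l = ∏ l ∈ range k, f (D.N + l) := by
    unfold H
    rw [← prod_mul_distrib]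
    refine prod_congr rfl fun l hl => ?_
    rw [mem_range] at hl
    rw [h3 l, mul_assoc]
    have h5 : D.de s l 1 y = f l := rfl
    rw [← h5, Ring.inverse_mul_cancel _ (D.unit_de hs (by omega) 1 y), mul_one]
  have hk1 : IsUnit (∏ l ∈ range k, f l) := by
    apply Finset.prod_induction _ IsUnit (fun _ _ => IsUnit.mul) isUnit_one
    intro l hl
    rw [mem_range] at hl
    exact D.unit_de hs (by omega) 0 y
  apply hk1.mul_left_injective
  simp only
  rw [mul_assoc, h4, h1, h2, ← prod_range_add, mul_comm, ← prod_range_add, add_comm]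

/-- the sequence recursion -/
def IsA (s : ℕ) (A : ℕ → B) : Prop :=
  ∀ k, A (k + 1) * (1 - D.q ^ (2 * s * (k + 1))) = A k * (1 - D.q ^ (s * (2 * k + 1)))

theorem A_block {s : ℕ} (hs : D.n.Coprime (2 * s)) {A : ℕ → B} (hA : D.IsA s A) (j : ℕ) {k : ℕ}
    (hk : k < D.n) : A (j * D.n + k) = A (j * D.n) * D.H s k 0 j := by
  induction k with
  | zero => simp [H]
  | succ k ih =>
    have h1 := ih (by omega)
    have h2 := hA (j * D.n + k)
    have hx : ∀ i : ℕ, D.q ^ (i * (j * D.n)) = (1 + j * D.e) ^ i := by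
      intro i
      rw [show i * (j * D.n) = D.n * j * i by ring, pow_mul, pow_mul, D.hq, one_add_pow D.he]
    have h3 : 1 - D.q ^ (2 * s * (j * D.n + k + 1)) = D.de s k 0 j := by
      unfold de
      rw [show 2 * s * (j * D.n + k + 1) = 2 * s * (k + 1) + 2 * s * (j * D.n) by ring, pow_add, hx]
    have h4 : 1 - D.q ^ (s * (2 * (j * D.n + k) + 1)) = D.nu s k 0 j := by
      unfold nu
      rw [show s * (2 * (j * D.n + k) + 1) = s * (2 * k + 1) + 2 * s * (j * D.n) by ring, pow_add, hx,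
        zero_mul, add_zero, one_pow, mul_one]
    rw [h3, h4] at h2
    have h5 := D.unit_de hs (by omega : k + 1 < D.n) 0 (j : B)
    rw [← add_assoc]
    apply h5.mul_left_injective
    simp only
    have hH : D.H s (k + 1) 0 j = D.H s k 0 j * (D.nu s k 0 j * Ring.inverse (D.de s k 0 j)) :=
      prod_range_succ _ _
    rw [h2, h1, hH]
    have h6 := Ring.inverse_mul_cancel _ h5
    linear_combination (-(A (j * D.n) * D.H s k 0 j * D.nu s k 0 j)) * h6

/-- the terms in the second half of a period are divisible by `e` -/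
theorem A_half {s : ℕ} (hs : D.n.Coprime (2 * s)) {A : ℕ → B} (hA : D.IsA s A) (j : ℕ) {k : ℕ}
    (hk : k < D.n) (hNk : D.N < k) : ∃ w, A (j * D.n + k) = D.e * w := by
  have h1 : ∃ w, D.nu s D.N 0 j = D.e * w := by
    unfold nu
    rw [zero_mul, add_zero, one_pow, mul_one, ← D.hn, mul_comm s D.n, pow_mul, D.hq, one_add_pow D.he]
    have h2 : (1 + (j : B) * D.e) ^ (2 * s) = 1 + ((2 * s : ℕ) : B) * (j * D.e) := by
      apply one_add_pow
      rw [mul_pow, D.he, mul_zero]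
    rw [h2]
    refine ⟨-(s : B) - ((2 * s : ℕ) : B) * j, ?_⟩
    linear_combination (-((s : B) * ((2 * s : ℕ) : B) * j)) * D.he
  obtain ⟨w, hw⟩ := h1
  rw [D.A_block hs hA j hk, H, ← mul_prod_erase (range k) _ (mem_range.2 hNk), hw]
  exact ⟨A (j * D.n) * (w * Ring.inverse (D.de s D.N 0 j) *
    ∏ x ∈ (range k).erase D.N, D.nu s x 0 j * Ring.inverse (D.de s x 0 j)), by ring⟩

theorem e_sigma {j : ℕ} (hj : ¬ D.n ∣ j) : D.e * ∑ k ∈ range D.n, D.q ^ (j * k) = 0 := by
  have h1 : (1 - D.q ^ j) * ∑ k ∈ range D.n, D.q ^ (j * k) = 1 - D.q ^ (j * D.n) := by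
    have h2 := mul_neg_geom_sum (D.q ^ j) D.n
    simp_rw [← pow_mul] at h2
    exact h2
  have h2 : D.e * (1 - D.q ^ (j * D.n)) = 0 := by
    rw [mul_comm j D.n, pow_mul, D.hq, one_add_pow D.he]
    linear_combination (-(j : B)) * D.he
  apply ((D.hu j hj).mul_right_eq_zero).1
  rw [← mul_assoc, mul_comm _ D.e, mul_assoc, h1, h2]

/-- the sum over one period of a polynomial with at most one exponent divisible by `n` does not
change to first order, if it vanishes to zeroth order -/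
theorem poly_shift (T : B[X]) (M : ℕ) (hT : ∀ j, D.n ∣ j → T.coeff j ≠ 0 → j = M)
    (h0 : D.e * ∑ k ∈ range D.n, T.eval (D.q ^ k) = 0) (y : B) :
    ∑ k ∈ range D.n, T.eval ((1 + y * D.e) * D.q ^ k) = ∑ k ∈ range D.n, T.eval (D.q ^ k) := by
  have h1 : ∀ z : B, ∑ k ∈ range D.n, T.eval (z * D.q ^ k)
      = ∑ j ∈ range (T.natDegree + 1), T.coeff j * z ^ j * ∑ k ∈ range D.n, D.q ^ (j * k) := by
    intro z
    simp_rw [Polynomial.eval_eq_sum_range, mul_sum]
    rw [sum_comm]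
    refine sum_congr rfl fun j _ => sum_congr rfl fun k _ => ?_
    rw [mul_pow, ← pow_mul, mul_comm k j]
    ring
  have h2 := h1 1
  simp_rw [one_mul, one_pow, mul_one] at h2
  rw [h1, h2]
  have h3 : ∀ j : ℕ, (1 + y * D.e) ^ j = 1 + j * (y * D.e) := by
    intro j
    apply one_add_pow
    rw [mul_pow, D.he, mul_zero]
  have h4 : ∀ j ∈ range (T.natDegree + 1), T.coeff j * (1 + y * D.e) ^ j * ∑ k ∈ range D.n, D.q ^ (j * k)
      = T.coeff j * (∑ k ∈ range D.n, D.q ^ (j * k))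
        + M * y * (D.e * (T.coeff j * ∑ k ∈ range D.n, D.q ^ (j * k))) := by
    intro j _
    rw [h3]
    by_cases hj : D.n ∣ j
    · by_cases hc : T.coeff j = 0
      · rw [hc]; ring
      · rw [hT j hj hc]; ring
    · have h5 := D.e_sigma hj
      linear_combination (T.coeff j * j * y - M * y * T.coeff j) * h5
  rw [sum_congr rfl h4, sum_add_distrib, ← mul_sum, ← mul_sum, ← h2, h0, mul_zero, add_zero]

/-- the block theorem -/
theorem block {α β : ℕ} (W T : B[X]) (M : ℕ) (hT : ∀ j, D.n ∣ j → T.coeff j ≠ 0 → j = M)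
    (hTW : ∀ z, T.eval z = W.eval z * D.p 1 z ^ α * D.p 2 z ^ β)
    {A₁ A₂ : ℕ → B} (hA1 : D.IsA 1 A₁) (hA2 : D.IsA 2 A₂) (h10 : A₁ 0 = 1) (h20 : A₂ 0 = 1)
    (h0 : ∑ k ∈ range D.n, W.eval (D.q ^ k) * A₁ k ^ α * A₂ k ^ β = 0) (r : ℕ) :
    ∑ k ∈ range (r * D.n), W.eval (D.q ^ k) * A₁ k ^ α * A₂ k ^ β = 0 := by
  have hodd : D.n.Coprime 2 := by
    rw [D.hn]
    simp
  have hs1 : D.n.Coprime (2 * 1) := by simpa using hodd
  have hs2 : D.n.Coprime (2 * 2) := Nat.Coprime.mul_right hodd hodd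
  set Ψ : B → B → B := fun c y => ∑ k ∈ range D.n,
    W.eval ((1 + y * D.e) * D.q ^ k) * D.H 1 k c y ^ α * D.H 2 k c y ^ β with hΨ
  have haff : Aff D.e Ψ := by
    apply Aff.sum
    intro k hk
    rw [mem_range] at hk
    refine ((?_ : Aff D.e _).mul D.he ((D.aff_H hs1 hk).pow D.he α)).mul D.he ((D.aff_H hs2 hk).pow D.he β)
    have h1 : ∀ y : B, W.eval ((1 + y * D.e) * D.q ^ k) = ∑ j ∈ range (W.natDegree + 1),
        W.coeff j * ((1 + y * D.e) ^ j * (D.q ^ k) ^ j) := by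
      intro y
      rw [Polynomial.eval_eq_sum_range]
      refine sum_congr rfl fun j _ => ?_
      rw [mul_pow]
    have h2 : Aff D.e (fun _ y => ∑ j ∈ range (W.natDegree + 1),
        W.coeff j * ((1 + y * D.e) ^ j * (D.q ^ k) ^ j)) := by
      apply Aff.sum
      intro j _
      exact (Aff.const D.e _).mul D.he (((Aff.snd D.e).pow D.he j).mul D.he (Aff.const D.e _))
    simpa [h1] using h2
  have hΨ0 : Ψ 0 0 = 0 := by
    simp only [hΨ]
    refine Eq.trans ?_ h0
    refine sum_congr rfl fun k hk => ?_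
    rw [mem_range] at hk
    have h1 := D.A_block hs1 hA1 0 hk
    have h2 := D.A_block hs2 hA2 0 hk
    rw [zero_mul, zero_add, h10, one_mul, Nat.cast_zero] at h1
    rw [zero_mul, zero_add, h20, one_mul, Nat.cast_zero] at h2
    rw [h1, h2, zero_mul, add_zero, one_mul]
  obtain ⟨G, H', hGH⟩ := haff
  rw [hΨ0] at hGH
  -- `c = 1`
  have hone : ∀ y : B, D.p 1 (1 + y * D.e) ^ α * D.p 2 (1 + y * D.e) ^ β * Ψ 1 y
      = ∑ k ∈ range D.n, T.eval ((1 + y * D.e) * D.q ^ k) := by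
    intro y
    rw [hΨ, mul_sum]
    refine sum_congr rfl fun k hk => ?_
    rw [mem_range] at hk
    rw [hTW, ← D.H_one hs1 hk y, ← D.H_one hs2 hk y, mul_pow, mul_pow]
    ring
  have hΘ : D.e * ∑ k ∈ range D.n, T.eval (D.q ^ k) = 0 := by
    have h1 := hone 0
    rw [zero_mul, add_zero] at h1
    simp_rw [one_mul] at h1
    rw [← h1, hGH]
    linear_combination (D.p 1 1 ^ α * D.p 2 1 ^ β * (1 * G + 0 * H')) * D.he
  have hshift : ∀ y : B, D.e * (y * H') = 0 := by
    intro y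
    have h1 := hone y
    have h2 := hone 0
    rw [D.poly_shift T M hT hΘ y] at h1
    rw [zero_mul, add_zero] at h2
    simp_rw [one_mul] at h2
    rw [← h2] at h1
    have h3 : D.p 1 (1 + y * D.e) ^ α * D.p 2 (1 + y * D.e) ^ β * Ψ 1 y
        = D.p 1 1 ^ α * D.p 2 1 ^ β * Ψ 1 y := by
      have h4 : Aff D.e (fun _ y => D.p 1 (1 + y * D.e) ^ α * D.p 2 (1 + y * D.e) ^ β) :=
        ((D.aff_p 1).pow D.he α).mul D.he ((D.aff_p 2).pow D.he β)
      have h5 := h4.mul_e D.he 0 y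
      simp only [zero_mul, add_zero] at h5
      rw [hGH]
      linear_combination (1 * G + y * H') * h5
    rw [h3, hGH, hGH] at h1
    have h6 : IsUnit (D.p 1 1 ^ α * D.p 2 1 ^ β) := by
      have h7 := D.unit_p hs1 0
      have h8 := D.unit_p hs2 0
      rw [zero_mul, add_zero] at h7 h8
      exact (h7.pow α).mul (h8.pow β)
    apply (h6.mul_right_eq_zero).1
    linear_combination h1
  induction r with
  | zero => simp
  | succ r ih =>
    rw [Nat.succ_mul, sum_range_add, ih, zero_add]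
    have h1 : ∀ k ∈ range D.n, W.eval (D.q ^ (r * D.n + k)) * A₁ (r * D.n + k) ^ α * A₂ (r * D.n + k) ^ β
        = A₁ (r * D.n) ^ α * A₂ (r * D.n) ^ β * (W.eval ((1 + r * D.e) * D.q ^ k) * D.H 1 k 0 r ^ α * D.H 2 k 0 r ^ β) := by
      intro k hk
      rw [mem_range] at hk
      rw [D.A_block hs1 hA1 r hk, D.A_block hs2 hA2 r hk, pow_add, mul_comm r D.n, pow_mul, D.hq,
        one_add_pow D.he, mul_pow, mul_pow]
      ring
    rw [sum_congr rfl h1, ← mul_sum]
    have h2 : ∑ k ∈ range D.n, W.eval ((1 + r * D.e) * D.q ^ k) * D.H 1 k 0 r ^ α * D.H 2 k 0 r ^ β = Ψ 0 r := rfl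
    rw [h2, hGH]
    have h3 := hshift r
    linear_combination A₁ (r * D.n) ^ α * A₂ (r * D.n) ^ β * h3

/-- the shorter truncation -/
theorem block_half {α β : ℕ} (hαβ : 2 ≤ α + β) (W : B[X])
    {A₁ A₂ : ℕ → B} (hA1 : D.IsA 1 A₁) (hA2 : D.IsA 2 A₂)
    (h : ∀ r, ∑ k ∈ range (r * D.n), W.eval (D.q ^ k) * A₁ k ^ α * A₂ k ^ β = 0) (r : ℕ) :
    ∑ k ∈ range (r * D.n + D.N + 1), W.eval (D.q ^ k) * A₁ k ^ α * A₂ k ^ β = 0 := by
  have hodd : D.n.Coprime 2 := by
    rw [D.hn]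
    simp
  have hs1 : D.n.Coprime (2 * 1) := by simpa using hodd
  have hs2 : D.n.Coprime (2 * 2) := Nat.Coprime.mul_right hodd hodd
  have h1 := h (r + 1)
  have hn := D.hn
  have e1 : (r + 1) * D.n = (r * D.n + D.N + 1) + D.N := by
    rw [Nat.succ_mul]
    omega
  rw [e1, sum_range_add] at h1
  rw [← h1, left_eq_add]
  apply sum_eq_zero
  intro k hk
  rw [mem_range] at hk
  obtain ⟨w1, hw1⟩ := D.A_half hs1 hA1 r (k := D.N + 1 + k) (by omega) (by omega)
  obtain ⟨w2, hw2⟩ := D.A_half hs2 hA2 r (k := D.N + 1 + k) (by omega) (by omega)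
  rw [show r * D.n + D.N + 1 + k = r * D.n + (D.N + 1 + k) by ring, hw1, hw2, mul_pow, mul_pow]
  have h2 : D.e ^ α * D.e ^ β = 0 := by
    rw [← pow_add, show α + β = 2 + (α + β - 2) by omega, pow_add, D.he, zero_mul]
  linear_combination W.eval (D.q ^ (r * D.n + (D.N + 1 + k))) * w1 ^ α * w2 ^ β * h2

end Data

end Pool.Agent.Q33.QPhi
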