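import Pool.Agent.Q33.QPhi.Legendre

/-! Rogers' terminating very-well-poised `6φ5` sum, and a one-period sum modulo `Φ_n^2`. -/

namespace Pool.Agent.Q33.QPhi

open Finset Polynomial

section field

variable {K : Type*} [Field K]

/-- the terms of the very-well-poised series; `be = 1/b`, `ga = 1/c`, `v = 1/Q` -/
def tau (a b c be ga Q v : K) (M k : ℕ) : K :=
  (1 - a * (Q ^ k) ^ 2) * (poch a Q k * poch b Q k * poch c Q k /
    (poch Q Q k * poch (a * be * Q) Q k * poch (a * ga * Q) Q k)) *
    poch (v ^ M) Q k * (poch (a * Q ^ (M + 1)) Q k)⁻¹ * (a * Q ^ (M + 1) * be * ga) ^ k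

theorem poch_succ' {R : Type*} [CommRing R] (w Q : R) (k : ℕ) :
    poch w Q (k + 1) = (1 - w) * poch (w * Q) Q k := by
  unfold poch
  rw [prod_range_succ']
  have e : ∀ l ∈ range k, (1 - w * Q ^ (l + 1)) = 1 - w * Q * Q ^ l := by
    intro l _
    ring
  rw [prod_congr rfl e]
  ring

theorem rogers_step (a b c be ga y z X X' P E' T : K) (hb : b * be = 1) (hc : c * ga = 1) (Q : K)
    (hX : X' * ((1 - Q * z) * (1 - a * be * (Q * z)) * (1 - a * ga * (Q * z)))
      = X * ((1 - a * z) * (1 - b * z) * (1 - c * z))) (PM : K) (hP : PM * (y - 1) = P * (y - z))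
    (P' : K) (hP' : y * P' = P * (y - z)) :
    (y - 1) * ((1 - a * y * be) * (1 - a * y * ga) * ((1 - a * z ^ 2) * X * P * ((1 - a * y) * E') * (z * T))
      - (1 - a * y) * (1 - a * y * be * ga) * ((1 - a * z ^ 2) * X * PM * (E' * (1 - a * y * z)) * T))
    = (1 - a * y) * y * ((1 - Q * z) * (1 - a * be * (Q * z)) * (1 - a * ga * (Q * z))) * X' * P' * E' *
        (a * y * be * ga * T)
      - (1 - a * y) * y * ((1 - z) * (1 - a * be * z) * (1 - a * ga * z)) * X * P * (E' * (1 - a * y * z)) * T := by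
  have h1 : (1 - a * y) * y * ((1 - Q * z) * (1 - a * be * (Q * z)) * (1 - a * ga * (Q * z))) * X' * P' * E' *
        (a * y * be * ga * T)
      = (1 - a * y) * (y * P') * (X' * ((1 - Q * z) * (1 - a * be * (Q * z)) * (1 - a * ga * (Q * z)))) * E' *
        (a * y * be * ga * T) := by ring
  rw [h1, hX, hP']
  have h2 : be * ga * ((1 - b * z) * (1 - c * z)) = (be - z) * (ga - z) := by
    linear_combination (-(z * ga) + z ^ 2) * hb + (-(be * z) + b * be * z ^ 2) * hc
  linear_combination (-((1 - a * y) * (1 - a * y * be * ga) * ((1 - a * z ^ 2) * X * (E' * (1 - a * y * z)) * T))) * hP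
    - ((1 - a * y) * P * (y - z) * X * (1 - a * z) * E' * (a * y * T)) * h2

theorem rogers (a b c be ga Q v : K) (hb : b * be = 1) (hc : c * ga = 1) (hv : Q * v = 1)
    (hQ : ∀ j, 1 ≤ j → Q ^ j ≠ 1) (hab : ∀ j, 1 ≤ j → a * be * Q ^ j ≠ 1)
    (hac : ∀ j, 1 ≤ j → a * ga * Q ^ j ≠ 1) (ha : ∀ j, 1 ≤ j → a * Q ^ j ≠ 1) (M : ℕ) :
    (∑ k ∈ range (M + 1), tau a b c be ga Q v M k) *
      ∏ j ∈ range M, ((1 - a * be * Q ^ (j + 1)) * (1 - a * ga * Q ^ (j + 1)))
    = (1 - a) * ∏ j ∈ range M, ((1 - a * Q ^ (j + 1)) * (1 - a * be * ga * Q ^ (j + 1))) := by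
  have hvQ : ∀ M, v ^ M * Q ^ M = 1 := by
    intro M
    rw [← mul_pow, mul_comm, hv, one_pow]
  have hp1 : ∀ k, poch Q Q k ≠ 0 := by
    intro k
    unfold poch
    rw [prod_ne_zero_iff]
    intro l _ h
    apply hQ (l + 1) (by omega)
    linear_combination -h
  have hp2 : ∀ k, poch (a * be * Q) Q k ≠ 0 := by
    intro k
    unfold poch
    rw [prod_ne_zero_iff]
    intro l _ h
    apply hab (l + 1) (by omega)
    linear_combination -h
  have hp3 : ∀ k, poch (a * ga * Q) Q k ≠ 0 := by
    intro k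
    unfold poch
    rw [prod_ne_zero_iff]
    intro l _ h
    apply hac (l + 1) (by omega)
    linear_combination -h
  have hp4 : ∀ M k, poch (a * Q ^ (M + 1)) Q k ≠ 0 := by
    intro M k
    unfold poch
    rw [prod_ne_zero_iff]
    intro l _ h
    apply ha (M + 1 + l) (by omega)
    rw [pow_add]
    linear_combination -h
  induction M with
  | zero =>
    simp [tau, poch]
  | succ M ih =>
    set X : ℕ → K := fun k => poch a Q k * poch b Q k * poch c Q k /
      (poch Q Q k * poch (a * be * Q) Q k * poch (a * ga * Q) Q k) with hX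
    set y := Q ^ (M + 1) with hy
    set t := a * y * be * ga with ht
    set g : ℕ → K := fun k => (1 - a * y) * y * ((1 - Q ^ k) * (1 - a * be * Q ^ k) * (1 - a * ga * Q ^ k)) * X k *
      poch (v ^ (M + 1)) Q k * (poch (a * y) Q k)⁻¹ * t ^ k with hg
    have hXrec : ∀ k, X (k + 1) * ((1 - Q * Q ^ k) * (1 - a * be * (Q * Q ^ k)) * (1 - a * ga * (Q * Q ^ k)))
        = X k * ((1 - a * Q ^ k) * (1 - b * Q ^ k) * (1 - c * Q ^ k)) := by
      intro k
      simp only [hX]
      have e1 := hp1 (k + 1)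
      have e2 := hp2 (k + 1)
      have e3 := hp3 (k + 1)
      rw [poch_succ] at e1 e2 e3
      rw [poch_succ, poch_succ, poch_succ, poch_succ, poch_succ, poch_succ]
      have f1 : (1 - a * be * (Q * Q ^ k)) = (1 - a * be * Q * Q ^ k) := by ring
      have f2 : (1 - a * ga * (Q * Q ^ k)) = (1 - a * ga * Q * Q ^ k) := by ring
      rw [f1, f2, div_mul_eq_mul_div, div_mul_eq_mul_div,
        div_eq_div_iff (mul_ne_zero (mul_ne_zero e1 e2) e3) (mul_ne_zero (mul_ne_zero (hp1 k) (hp2 k)) (hp3 k))]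
      ring
    have key : ∀ k ∈ range (M + 2), (y - 1) * ((1 - a * y * be) * (1 - a * y * ga) * tau a b c be ga Q v (M + 1) k
        - (1 - a * y) * (1 - a * y * be * ga) * tau a b c be ga Q v M k) = g (k + 1) - g k := by
      intro k _
      set z := Q ^ k with hz
      have hz1 : Q ^ (k + 1) = Q * z := by rw [pow_succ, hz]; ring
      have hE : (poch (a * Q ^ (M + 1 + 1)) Q k)⁻¹ = (1 - a * y) * (poch (a * y) Q (k + 1))⁻¹ := by
        have h1 := poch_succ' (a * y) Q k
        have h2 : a * y * Q = a * Q ^ (M + 1 + 1) := by rw [hy]; ring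
        rw [h2] at h1
        have h3 := hp4 (M + 1) k
        have h4 := hp4 M (k + 1)
        rw [← hy] at h4
        rw [eq_comm, ← div_eq_mul_inv, div_eq_iff h4, h1]
        field_simp
      have hE2 : (poch (a * y) Q k)⁻¹ = (poch (a * y) Q (k + 1))⁻¹ * (1 - a * y * z) := by
        have h4 := hp4 M (k + 1)
        rw [← hy] at h4
        rw [poch_succ] at h4 ⊢
        have n1 := left_ne_zero_of_mul h4
        have n2 := right_ne_zero_of_mul h4
        rw [mul_inv, mul_assoc, inv_mul_cancel₀ n2, mul_one]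
      have hPM : poch (v ^ M) Q k * (y - 1) = poch (v ^ (M + 1)) Q k * (y - z) := by
        have h1 := poch_succ' (v ^ (M + 1)) Q k
        rw [poch_succ] at h1
        have h2 : v ^ (M + 1) * Q = v ^ M := by
          rw [pow_succ, mul_assoc, mul_comm v Q, hv, mul_one]
        rw [h2] at h1
        have h3 := hvQ (M + 1)
        rw [← hy] at h3
        rw [← hz] at h1
        linear_combination (-y) * h1 + (-(poch (v ^ (M + 1)) Q k * z) + poch (v ^ M) Q k) * h3
      have hP' : y * poch (v ^ (M + 1)) Q (k + 1) = poch (v ^ (M + 1)) Q k * (y - z) := by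
        rw [poch_succ, ← hz]
        have h3 := hvQ (M + 1)
        rw [← hy] at h3
        linear_combination (-(poch (v ^ (M + 1)) Q k * z)) * h3
      have hst := rogers_step a b c be ga y z (X k) (X (k + 1)) (poch (v ^ (M + 1)) Q k)
        (poch (a * y) Q (k + 1))⁻¹ (t ^ k) hb hc Q (hXrec k) (poch (v ^ M) Q k) hPM
        (poch (v ^ (M + 1)) Q (k + 1)) hP'
      have ht1 : (a * Q ^ (M + 1 + 1) * be * ga) ^ k = z * t ^ k := by
        rw [show a * Q ^ (M + 1 + 1) * be * ga = Q * t by rw [ht, hy]; ring, mul_pow, hz]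
      have l1 : tau a b c be ga Q v (M + 1) k = (1 - a * z ^ 2) * X k * poch (v ^ (M + 1)) Q k *
          ((1 - a * y) * (poch (a * y) Q (k + 1))⁻¹) * (z * t ^ k) := by
        unfold tau
        rw [ht1, hE]
      have l2 : tau a b c be ga Q v M k = (1 - a * z ^ 2) * X k * poch (v ^ M) Q k *
          ((poch (a * y) Q (k + 1))⁻¹ * (1 - a * y * z)) * t ^ k := by
        unfold tau
        rw [← hy, ← ht, hE2]
      have l3 : g (k + 1) = (1 - a * y) * y * ((1 - Q * z) * (1 - a * be * (Q * z)) * (1 - a * ga * (Q * z))) *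
          X (k + 1) * poch (v ^ (M + 1)) Q (k + 1) * (poch (a * y) Q (k + 1))⁻¹ * (a * y * be * ga * t ^ k) := by
        simp only [hg]
        rw [hz1, pow_succ, ← ht]
        ring
      have l4 : g k = (1 - a * y) * y * ((1 - z) * (1 - a * be * z) * (1 - a * ga * z)) * X k *
          poch (v ^ (M + 1)) Q k * ((poch (a * y) Q (k + 1))⁻¹ * (1 - a * y * z)) * t ^ k := by
        simp only [hg]
        rw [hE2]
      rw [l1, l2, l3, l4]
      exact hst
    have hsum := sum_congr rfl key
    rw [sum_range_sub, ← mul_sum, sum_sub_distrib, ← mul_sum, ← mul_sum] at hsum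
    have g0 : g 0 = 0 := by simp [hg]
    have g1 : g (M + 2) = 0 := by
      simp only [hg]
      rw [poch_eq_zero (hvQ (M + 1)) (by omega)]
      ring
    rw [g0, g1, sub_zero] at hsum
    have hlast : ∑ k ∈ range (M + 2), tau a b c be ga Q v M k = ∑ k ∈ range (M + 1), tau a b c be ga Q v M k := by
      rw [show M + 2 = M + 1 + 1 by ring, sum_range_succ]
      have : tau a b c be ga Q v M (M + 1) = 0 := by
        unfold tau
        rw [poch_eq_zero (hvQ M) (by omega)]
        ring
      rw [this, add_zero]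
    rw [hlast] at hsum
    have hy1 : y - 1 ≠ 0 := sub_ne_zero.2 (hQ (M + 1) (by omega))
    have h5 := (mul_eq_zero.1 hsum).resolve_left hy1
    rw [prod_range_succ, prod_range_succ, ← hy]
    linear_combination (∏ j ∈ range M, ((1 - a * be * Q ^ (j + 1)) * (1 - a * ga * Q ^ (j + 1)))) * h5
      + (1 - a * y) * (1 - a * y * be * ga) * ih

end field

end Pool.Agent.Q33.QPhi
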