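import Pool.Agent.Q33.QPhi.Gauss
import Pool.Agent.Q33.QPhi.Rogers

/-! A cubic very-well-poised sum at roots of unity. -/

namespace Pool.Agent.Q33.QPhi

open Finset Polynomial

section cubic

variable {K : Type*} [Field K] (x : K)

/-- the summand without the well-poised factor -/
def hh (i k : ℕ) : K :=
  poch x (x ^ 2) k ^ 2 * poch (x ^ (6 * i + 1)) (x ^ 2) (2 * k) * ((poch (x ^ (6 * i + 6)) (x ^ 6) k)⁻¹) ^ 2 *
    (poch (x ^ 2) (x ^ 2) (2 * k))⁻¹ * x ^ (2 * k ^ 2)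

/-- the summand -/
def tt (i k : ℕ) : K := (1 - x ^ (6 * i + 1) * x ^ (8 * k)) * hh x i k

/-- the certificate -/
def gg (i k : ℕ) : K := x ^ (6 * i + 1) * hh x i k * ((1 - x ^ (4 * k)) * (x ^ 2 - x ^ (4 * k)))

/-- the ratio -/
def kap (i : ℕ) : K := (1 - x ^ (6 * i + 1)) * (1 - x ^ (6 * i + 1) * x ^ 2) * (1 - x ^ (6 * i + 1) * x ^ 4) *
  ((1 - x ^ (6 * i + 6))⁻¹) ^ 2

theorem cubic_poly (x y z u h h1 kh' : K) (w : K) (hw : w = y * x ^ 5)
    (r1 : h = u * (1 - w * z ^ 3) ^ 2)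
    (r2 : kh' = u * ((1 - y * z ^ 2) * (1 - y * x ^ 2 * z ^ 2) * (1 - y * x ^ 4 * z ^ 2)))
    (r3 : h1 * ((1 - x ^ 2 * z ^ 2) * (1 - x ^ 4 * z ^ 2))
      = u * ((1 - x * z) ^ 2 * (1 - y * z ^ 2) * (1 - y * x ^ 2 * z ^ 2) * (x ^ 2 * z ^ 2))) :
    (1 - y * x ^ 2) * ((1 - y * z ^ 4) * h) - (1 - y * x ^ 6 * z ^ 4) * kh'
      = y * h1 * ((1 - x ^ 4 * z ^ 2) * (x ^ 2 - x ^ 4 * z ^ 2)) - y * h * ((1 - z ^ 2) * (x ^ 2 - z ^ 2)) := by
  subst hw
  linear_combination ((1 - y * x ^ 2) * (1 - y * z ^ 4) + y * ((1 - z ^ 2) * (x ^ 2 - z ^ 2))) * r1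
    - (1 - y * x ^ 6 * z ^ 4) * r2 - y * x ^ 2 * r3

theorem cubic_step (i k : ℕ) (h1 : ∀ l ≤ k, (1 - x ^ (6 * i + 6) * (x ^ 6) ^ l) ≠ 0)
    (h2 : (1 - x ^ 2 * (x ^ 2) ^ (2 * k)) ≠ 0) (h3 : (1 - x ^ 2 * (x ^ 2) ^ (2 * k + 1)) ≠ 0) :
    (1 - x ^ (6 * i + 1) * x ^ 2) * tt x i k - kap x i * tt x (i + 1) k = gg x i (k + 1) - gg x i k := by
  set z := (x ^ 2) ^ k with hz
  set y := x ^ (6 * i + 1) with hy
  set w := x ^ (6 * i + 6) with hw
  set P := poch x (x ^ 2) k with hP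
  set Y := poch y (x ^ 2) (2 * k) with hY
  set W := poch w (x ^ 6) k with hW
  set D := poch (x ^ 2) (x ^ 2) (2 * k) with hD
  set E := x ^ (2 * k ^ 2) with hE
  have hz2 : (x ^ 2) ^ (2 * k) = z ^ 2 := by rw [hz, ← pow_mul, ← pow_mul, ← pow_mul]; congr 1; ring
  have hz2a : (x ^ 2) ^ (2 * k + 1) = z ^ 2 * x ^ 2 := by rw [pow_succ (x ^ 2) (2 * k), hz2]
  have hz2b : (x ^ 2) ^ (2 * k + 1 + 1) = z ^ 2 * x ^ 2 * x ^ 2 := by rw [pow_succ (x ^ 2) (2 * k + 1), hz2a]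
  have hz3 : (x ^ 6) ^ k = z ^ 3 := by rw [hz, ← pow_mul, ← pow_mul, ← pow_mul]; congr 1; ring
  have hz4 : x ^ (8 * k) = z ^ 4 := by rw [hz, ← pow_mul, ← pow_mul]; congr 1; ring
  have hz5 : x ^ (4 * k) = z ^ 2 := by rw [hz, ← pow_mul, ← pow_mul]; congr 1; ring
  have hz6 : x ^ (4 * (k + 1)) = x ^ 4 * z ^ 2 := by rw [hz, ← pow_mul, ← pow_mul, ← pow_add]; congr 1; ring
  set u := P ^ 2 * Y * D⁻¹ * E * ((W * (1 - w * z ^ 3))⁻¹) ^ 2 with hu
  have hWne : (1 - w * z ^ 3) ≠ 0 := by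
    have := h1 k le_rfl
    rwa [hz3] at this
  have hy6 : x ^ (6 * (i + 1) + 1) = y * x ^ 6 := by
    rw [hy, ← pow_add, show 6 * (i + 1) + 1 = 6 * i + 1 + 6 by ring]
  have hw6 : x ^ (6 * (i + 1) + 6) = w * x ^ 6 := by
    rw [hw, ← pow_add, show 6 * (i + 1) + 6 = 6 * i + 6 + 6 by ring]
  have r1 : hh x i k = u * (1 - w * z ^ 3) ^ 2 := by
    rw [hh, hu, ← hy, ← hw, ← hP, ← hY, ← hW, ← hD, ← hE, mul_inv]
    have e := inv_mul_cancel₀ hWne
    linear_combination (-(P ^ 2 * Y * D⁻¹ * E * W⁻¹ ^ 2 * ((1 - w * z ^ 3)⁻¹ * (1 - w * z ^ 3) + 1))) * e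
  have r2 : kap x i * hh x (i + 1) k = u * ((1 - y * z ^ 2) * (1 - y * x ^ 2 * z ^ 2) * (1 - y * x ^ 4 * z ^ 2)) := by
    have e1 : (1 - y) * (1 - y * x ^ 2) * (1 - y * x ^ 4) * poch (y * x ^ 6) (x ^ 2) (2 * k)
        = Y * ((1 - y * z ^ 2) * (1 - y * x ^ 2 * z ^ 2) * (1 - y * x ^ 4 * z ^ 2)) := by
      have a1 := poch_succ' y (x ^ 2) (2 * k + 1 + 1)
      have a2 := poch_succ' (y * x ^ 2) (x ^ 2) (2 * k + 1)
      have a3 := poch_succ' (y * x ^ 2 * x ^ 2) (x ^ 2) (2 * k)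
      rw [poch_succ, poch_succ, poch_succ, ← hY, hz2, hz2a, hz2b] at a1
      rw [show y * x ^ 6 = y * x ^ 2 * x ^ 2 * x ^ 2 by ring]
      rw [a2, a3] at a1
      linear_combination -a1
    have e2 : (1 - w) * poch (w * x ^ 6) (x ^ 6) k = W * (1 - w * z ^ 3) := by
      have a1 := poch_succ' w (x ^ 6) k
      rw [poch_succ, hz3, ← hW] at a1
      exact a1.symm
    rw [kap, hh, hy6, hw6, ← hy, ← hw, ← hP, ← hD, ← hE, hu, ← e2, mul_inv]
    linear_combination (P ^ 2 * D⁻¹ * E * (1 - w)⁻¹ ^ 2 * (poch (w * x ^ 6) (x ^ 6) k)⁻¹ ^ 2) * e1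
  have r3 : hh x i (k + 1) * ((1 - x ^ 2 * z ^ 2) * (1 - x ^ 4 * z ^ 2))
      = u * ((1 - x * z) ^ 2 * (1 - y * z ^ 2) * (1 - y * x ^ 2 * z ^ 2) * (x ^ 2 * z ^ 2)) := by
    have e1 : poch y (x ^ 2) (2 * (k + 1)) = Y * ((1 - y * z ^ 2) * (1 - y * x ^ 2 * z ^ 2)) := by
      rw [show 2 * (k + 1) = 2 * k + 1 + 1 by ring, poch_succ, poch_succ, ← hY, hz2, hz2a]
      ring
    have e2 : poch (x ^ 2) (x ^ 2) (2 * (k + 1)) = D * ((1 - x ^ 2 * z ^ 2) * (1 - x ^ 4 * z ^ 2)) := by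
      rw [show 2 * (k + 1) = 2 * k + 1 + 1 by ring, poch_succ, poch_succ, ← hD, hz2, hz2a]
      ring
    have e3 : x ^ (2 * (k + 1) ^ 2) = E * (x ^ 2 * z ^ 2) := by
      rw [hE, hz, ← pow_mul, ← pow_mul, ← pow_add, ← pow_add]
      congr 1
      ring
    have n1 : (1 - x ^ 2 * z ^ 2) * (1 - x ^ 4 * z ^ 2) ≠ 0 := by
      rw [hz2] at h2
      rw [hz2a] at h3
      refine mul_ne_zero h2 ?_
      rwa [show x ^ 4 * z ^ 2 = x ^ 2 * (z ^ 2 * x ^ 2) by ring]
    rw [hh, ← hy, ← hw, e1, e2, e3, poch_succ, poch_succ, ← hP, ← hW, hz3, ← hz, hu, mul_inv D]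
    have e := inv_mul_cancel₀ n1
    linear_combination ((P * (1 - x * z)) ^ 2 * (Y * ((1 - y * z ^ 2) * (1 - y * x ^ 2 * z ^ 2))) *
      (W * (1 - w * z ^ 3))⁻¹ ^ 2 * D⁻¹ * (E * (x ^ 2 * z ^ 2))) * e
  have hmain := cubic_poly x y z u (hh x i k) (hh x i (k + 1)) (kap x i * hh x (i + 1) k) w
    (by rw [hw, hy, ← pow_add]) r1 r2 r3
  unfold tt gg
  rw [hy6, ← hy, hz4, hz5, hz6]
  linear_combination hmain

theorem ne_of_not_dvd {x : K} {d : ℕ} (hx : IsPrimitiveRoot x d) {j : ℕ} (hj : ¬ d ∣ j) : 1 - x ^ j ≠ 0 := by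
  rw [sub_ne_zero]
  intro h
  exact hj (hx.dvd_of_pow_eq_one j h.symm)

theorem cubic_base {x : K} {d N : ℕ} (hx : IsPrimitiveRoot x d) (hN : d = 2 * N + 1) (h3 : N % 3 ≠ 1)
    (hN2 : 2 ≤ N) : ∑ k ∈ range (N / 2 + 1), tt x (N / 3) k = 0 := by
  set i := N / 3 with hi
  rcases (show N = 3 * i ∨ N = 3 * i + 2 by omega) with h | h
  · have hy : x ^ (6 * i + 1) = 1 := by
      rw [show 6 * i + 1 = d by omega]
      exact hx.pow_eq_one
    apply sum_eq_zero
    intro k _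
    rcases k with _ | k
    · rw [tt, hy]
      ring
    · rw [tt, hh, hy, poch_eq_zero (w := (1 : K)) (Q := x ^ 2) (N := 0) (by ring) (by omega)]
      ring
  · have hy : x ^ (6 * i + 1) * x ^ 4 = 1 := by
      rw [← pow_add, show 6 * i + 1 + 4 = d by omega]
      exact hx.pow_eq_one
    have h1 : ∑ k ∈ range (N / 2 + 1), tt x i k = ∑ k ∈ range 2, tt x i k := by
      symm
      apply sum_subset
      · intro k hk
        rw [mem_range] at *
        omega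
      · intro k _ hk
        rw [mem_range] at hk
        rw [tt, hh, poch_eq_zero (w := x ^ (6 * i + 1)) (Q := x ^ 2) (N := 2) (by rw [← hy]; ring) (by omega)]
        ring
    rw [h1, sum_range_succ, sum_range_one]
    have hw : x ^ (6 * i + 6) = x := by
      rw [show 6 * i + 6 = d + 1 by omega, pow_succ, hx.pow_eq_one, one_mul]
    have n1 : 1 - x ≠ 0 := by
      have := ne_of_not_dvd hx (j := 1) (fun h => by
        have := Nat.le_of_dvd (by omega) h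
        omega)
      rwa [pow_one] at this
    have n2 : 1 - x ^ 2 ≠ 0 := ne_of_not_dvd hx (fun h => by
        have := Nat.le_of_dvd (by omega) h
        omega)
    have n4 : 1 - x ^ 4 ≠ 0 := ne_of_not_dvd hx (fun h => by
        have := Nat.le_of_dvd (by omega) h
        omega)
    have e0 : hh x i 0 = 1 := by
      simp [hh, poch]
    have e1 : hh x i 1 = (1 - x) ^ 2 * ((1 - x ^ (6 * i + 1)) * (1 - x ^ (6 * i + 1) * x ^ 2)) *
        ((1 - x)⁻¹) ^ 2 * ((1 - x ^ 2) * (1 - x ^ 4))⁻¹ * x ^ 2 := by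
      have p1 : ∀ a b : K, poch a b 1 = 1 - a := by
        intro a b
        simp [poch]
      have p2 : ∀ a b : K, poch a b 2 = (1 - a) * (1 - a * b) := by
        intro a b
        rw [poch, prod_range_succ, prod_range_one]
        ring
      rw [hh, mul_one, p1, p1, p2, p2, hw]
      ring
    rw [tt, tt, e0, e1]
    have hy8 : x ^ (6 * i + 1) * x ^ (8 * 1) = x ^ 4 := by
      rw [show x ^ (8 * 1) = x ^ 4 * x ^ 4 by ring]
      linear_combination x ^ 4 * hy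
    rw [hy8]
    generalize x ^ (6 * i + 1) = y at *
    have i1 := inv_mul_cancel₀ n1
    have i2 := inv_mul_cancel₀ (mul_ne_zero n2 n4)
    have i3 : ((1 - x)⁻¹) ^ 2 * (1 - x) ^ 2 = 1 := by rw [← mul_pow, i1, one_pow]
    have i4 : (1 - x ^ 4) * ((1 - x) ^ 2 * ((1 - y) * (1 - y * x ^ 2)) * ((1 - x)⁻¹) ^ 2 *
        ((1 - x ^ 2) * (1 - x ^ 4))⁻¹ * x ^ 2) = -(1 - y) := by
      linear_combination ((1 - x ^ 4) * (1 - y) * (1 - y * x ^ 2) * ((1 - x ^ 2) * (1 - x ^ 4))⁻¹ * x ^ 2) * i3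
        - ((1 - y) * (1 - x ^ 4) * ((1 - x ^ 2) * (1 - x ^ 4))⁻¹) * hy - (1 - y) * i2
    rw [i4, mul_zero, pow_zero]
    ring

theorem cubic_sum {x : K} {d N : ℕ} (hx : IsPrimitiveRoot x d) (hN : d = 2 * N + 1) (h3 : N % 3 ≠ 1)
    (hN2 : 2 ≤ N) : ∑ k ∈ range (N / 2 + 1), tt x 0 k = 0 := by
  have hc2 : d.Coprime 2 := by
    rw [hN]
    simp
  have hc3 : d.Coprime 3 := by
    rw [Nat.coprime_comm, Nat.Prime.coprime_iff_not_dvd Nat.prime_three]
    omega
  have hc4 : d.Coprime 4 := Nat.Coprime.mul_right hc2 hc2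
  have hc6 : d.Coprime 6 := Nat.Coprime.mul_right hc2 hc3
  have key : ∀ j i, i + j = N / 3 → ∑ k ∈ range (N / 2 + 1), tt x i k = 0 := by
    intro j
    induction j with
    | zero =>
      intro i hi
      rw [add_zero] at hi
      rw [hi]
      exact cubic_base hx hN h3 hN2
    | succ j ih =>
      intro i hi
      have hih := ih (i + 1) (by omega)
      have hstep : ∀ k ∈ range (N / 2 + 1),
          (1 - x ^ (6 * i + 1) * x ^ 2) * tt x i k - kap x i * tt x (i + 1) k = gg x i (k + 1) - gg x i k := by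
        intro k hk
        rw [mem_range] at hk
        apply cubic_step
        · intro l hl
          have e : x ^ (6 * i + 6) * (x ^ 6) ^ l = x ^ (6 * (i + 1 + l)) := by
            rw [← pow_mul, ← pow_add]
            congr 1
            ring
          rw [e]
          apply ne_of_not_dvd hx
          intro h
          have := Nat.le_of_dvd (by omega) (hc6.dvd_of_dvd_mul_left h)
          omega
        · have e : x ^ 2 * (x ^ 2) ^ (2 * k) = x ^ (2 * (2 * k + 1)) := by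
            rw [← pow_mul, ← pow_add]
            congr 1
            ring
          rw [e]
          apply ne_of_not_dvd hx
          intro h
          have := Nat.le_of_dvd (by omega) (hc2.dvd_of_dvd_mul_left h)
          omega
        · have e : x ^ 2 * (x ^ 2) ^ (2 * k + 1) = x ^ (4 * (k + 1)) := by
            rw [← pow_mul, ← pow_add]
            congr 1
            ring
          rw [e]
          apply ne_of_not_dvd hx
          intro h
          have := Nat.le_of_dvd (by omega) (hc4.dvd_of_dvd_mul_left h)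
          omega
      have hsum := sum_congr rfl hstep
      rw [sum_range_sub, sum_sub_distrib, ← mul_sum, ← mul_sum, hih] at hsum
      have g0 : gg x i 0 = 0 := by
        rw [gg, mul_zero, pow_zero]
        ring
      have g1 : gg x i (N / 2 + 1) = 0 := by
        rw [gg, hh, poch_eq_zero (w := x ^ (6 * i + 1)) (Q := x ^ 2) (N := N - 3 * i) (by
          rw [← pow_mul, ← pow_add, show 6 * i + 1 + 2 * (N - 3 * i) = d by omega]
          exact hx.pow_eq_one) (by omega)]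
        ring
      rw [g0, g1, mul_zero, sub_zero, sub_zero] at hsum
      refine (mul_eq_zero.1 hsum).resolve_left ?_
      rw [← pow_add, show 6 * i + 1 + 2 = 3 * (2 * i + 1) by ring]
      apply ne_of_not_dvd hx
      intro h
      have := Nat.le_of_dvd (by omega) (hc3.dvd_of_dvd_mul_left h)
      omega
  exact key (N / 3) 0 (by omega)

end cubic

end Pool.Agent.Q33.QPhi
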