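import Pool.Agent.Q33.QPhi.Loc

/-! `q`-Delannoy numbers: recurrences and the closed form of `∑ [2j+1] q^(-j) D_q D_{1/q}`. -/

namespace Pool.Agent.Q33.QPhi

open Finset Polynomial

section generic

variable {R : Type*} [CommRing R]

theorem gb_zero_right (x : R) (m : ℕ) : gb x m 0 = 1 := by
  cases m <;> rfl

theorem gb_succ (x : R) (m k : ℕ) : gb x (m + 1) (k + 1) = gb x m k + x ^ (k + 1) * gb x m (k + 1) := rfl

theorem gb_of_lt (x : R) : ∀ m a : ℕ, m < a → gb x m a = 0 := by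
  intro m
  induction m with
  | zero =>
    intro a ha
    obtain ⟨a, rfl⟩ : ∃ a', a = a' + 1 := ⟨a - 1, by omega⟩
    rfl
  | succ m ihm =>
    intro a ha
    obtain ⟨a, rfl⟩ : ∃ a', a = a' + 1 := ⟨a - 1, by omega⟩
    rw [gb, ihm a (by omega), ihm (a + 1) (by omega)]
    ring

/-- the other Pascal rule -/
theorem gb_succ' (x : R) : ∀ m k : ℕ, gb x (m + 1) (k + 1) = x ^ (m - k) * gb x m k + gb x m (k + 1) := by
  intro m
  induction m with
  | zero =>
    intro k
    rcases k with _ | k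
    · simp [gb]
    · rw [gb_of_lt x (0 + 1) (k + 1 + 1) (by omega), gb_of_lt x 0 (k + 1) (by omega),
        gb_of_lt x 0 (k + 1 + 1) (by omega)]
      ring
  | succ m ih =>
    intro k
    rcases k with _ | k
    · have h1 := ih 0
      have h2 := gb_succ x m 0
      rw [gb_succ x (m + 1) 0, gb_zero_right, Nat.sub_zero]
      rw [gb_zero_right, Nat.sub_zero] at h1
      rw [gb_zero_right] at h2
      rw [zero_add] at *
      linear_combination x * h1 - h2
    · by_cases hk : k + 1 ≤ m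
      · have h1 := ih k
        have h2 := ih (k + 1)
        rw [gb_succ x (m + 1) (k + 1), gb_succ x m k] at *
        rw [gb_succ x m (k + 1)] at *
        have e1 : m - k = m - (k + 1) + 1 := by omega
        have e2 : m + 1 - (k + 1) = m - k := by omega
        rw [e1] at h1
        rw [e2, e1]
        linear_combination h1 + x ^ (k + 1 + 1) * h2
      · rcases Nat.lt_or_ge m k with h | h
        · rw [gb_of_lt x (m + 1 + 1) (k + 1 + 1) (by omega), gb_of_lt x (m + 1) (k + 1) (by omega),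
            gb_of_lt x (m + 1) (k + 1 + 1) (by omega)]
          ring
        · have hkm : k = m := by omega
          subst hkm
          rw [gb_succ x (k + 1) (k + 1), gb_of_lt x (k + 1) (k + 1 + 1) (by omega), Nat.sub_self]
          ring

/-- `gb(a,k) (x;x)_k = ∏_{i<k} (1 - x^(a-i))` -/
theorem gb_prod (x : R) : ∀ a k : ℕ, gb x a k * poch x x k = ∏ i ∈ range k, (1 - x ^ (a - i)) := by
  intro a
  induction a with
  | zero =>
    intro k
    rcases k with _ | k
    · simp [gb, poch]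
    · rw [gb_of_lt x 0 (k + 1) (by omega), prod_range_succ']
      simp
  | succ a ih =>
    intro k
    rcases k with _ | k
    · simp [gb, poch]
    · rw [prod_range_succ', gb_succ]
      have e1 : ∀ i ∈ range k, (1 - x ^ (a + 1 - (i + 1))) = 1 - x ^ (a - i) := by
        intro i _
        rw [Nat.add_sub_add_right]
      rw [prod_congr rfl e1, ← ih k, poch_succ, Nat.sub_zero]
      by_cases hk : k ≤ a
      · have h1 := ih (k + 1)
        rw [prod_range_succ, ← ih k, poch_succ] at h1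
        have h2 : x ^ (k + 1) * x ^ (a - k) = x ^ (a + 1) := by
          rw [← pow_add]
          congr 1
          omega
        rw [← h2]
        have h3 : x * x ^ k = x ^ (k + 1) := by ring
        rw [h3] at h1 ⊢
        linear_combination x ^ (k + 1) * h1
      · rw [gb_of_lt x a k (by omega), gb_of_lt x a (k + 1) (by omega)]
        ring

/-- the `q`-Delannoy numbers -/
def Dq (x : R) (m n : ℕ) : R := ∑ j ∈ range (n + 1), x ^ (j * (j - 1) / 2) * gb x n j * gb x (m + n - j) n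

theorem tri_succ (j : ℕ) : (j + 1) * (j + 1 - 1) / 2 = j * (j - 1) / 2 + j := by
  rcases j with _ | j
  · rfl
  · have h1 : 2 ∣ (j + 1) * j := by
      rcases Nat.even_or_odd j with h | h
      · exact (h.two_dvd).mul_left _
      · exact ((Nat.even_add_one.2 (Nat.not_even_iff_odd.2 h)).two_dvd).mul_right _
    obtain ⟨c, hc⟩ := h1
    have h2 : (j + 1 + 1) * (j + 1) = 2 * (c + (j + 1)) := by
      linear_combination hc
    rw [show j + 1 + 1 - 1 = j + 1 by omega, show j + 1 - 1 = j by omega, h2, hc]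
    omega

theorem Dq_zero (x : R) (m : ℕ) : Dq x m 0 = 1 := by
  simp [Dq, gb_zero_right]

theorem E1 (x : R) (m n : ℕ) :
    Dq x (m + 1) (n + 1) = Dq x (m + 1) n + x ^ n * Dq x m n + x ^ (n + 1) * Dq x m (n + 1) := by
  have h1 : Dq x (m + 1) (n + 1) = ∑ j ∈ range (n + 2), x ^ (j * (j - 1) / 2) * gb x (n + 1) j * gb x (m + 1 + n - j) n
      + x ^ (n + 1) * Dq x m (n + 1) := by
    unfold Dq
    rw [mul_sum, ← sum_add_distrib]
    refine sum_congr rfl fun j hj => ?_
    rw [mem_range] at hj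
    rw [show m + 1 + (n + 1) - j = m + 1 + n - j + 1 by omega, show m + (n + 1) - j = m + 1 + n - j by omega, gb_succ]
    ring
  have h2 : ∑ j ∈ range (n + 2), x ^ (j * (j - 1) / 2) * gb x (n + 1) j * gb x (m + 1 + n - j) n
      = Dq x (m + 1) n + x ^ n * Dq x m n := by
    rw [sum_range_succ']
    have e1 : ∀ i ∈ range (n + 1), x ^ ((i + 1) * (i + 1 - 1) / 2) * gb x (n + 1) (i + 1) * gb x (m + 1 + n - (i + 1)) n
        = x ^ n * (x ^ (i * (i - 1) / 2) * gb x n i * gb x (m + n - i) n)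
          + x ^ ((i + 1) * (i + 1 - 1) / 2) * gb x n (i + 1) * gb x (m + 1 + n - (i + 1)) n := by
      intro i hi
      rw [mem_range] at hi
      rw [gb_succ', show m + 1 + n - (i + 1) = m + n - i by omega, tri_succ]
      have h3 : x ^ (i * (i - 1) / 2 + i) * x ^ (n - i) = x ^ n * x ^ (i * (i - 1) / 2) := by
        rw [← pow_add, ← pow_add]
        congr 1
        omega
      linear_combination (gb x n i * gb x (m + n - i) n) * h3
    rw [sum_congr rfl e1, sum_add_distrib, ← mul_sum]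
    have e2 : Dq x (m + 1) n = ∑ i ∈ range (n + 1), x ^ ((i + 1) * (i + 1 - 1) / 2) * gb x n (i + 1) *
        gb x (m + 1 + n - (i + 1)) n + x ^ (0 * (0 - 1) / 2) * gb x n 0 * gb x (m + 1 + n - 0) n := by
      have e3 := sum_range_succ' (fun j => x ^ (j * (j - 1) / 2) * gb x n j * gb x (m + 1 + n - j) n) (n + 1)
      rw [sum_range_succ, gb_of_lt x n (n + 1) (by omega)] at e3
      unfold Dq
      rw [← e3]
      ring
    rw [e2, gb_zero_right, gb_zero_right]
    unfold Dq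
    ring
  rw [h1, h2]

theorem E2 (x : R) (m n : ℕ) :
    Dq x (m + 1) (n + 1) = Dq x m (n + 1) + x ^ m * Dq x m n + x ^ (m + 1) * Dq x (m + 1) n := by
  have h1 : Dq x (m + 1) (n + 1) = Dq x m (n + 1) + ∑ j ∈ range (n + 2),
      x ^ (j * (j - 1) / 2) * gb x (n + 1) j * (x ^ (m + 1 + n - j - n) * gb x (m + 1 + n - j) n) := by
    unfold Dq
    rw [← sum_add_distrib]
    refine sum_congr rfl fun j hj => ?_
    rw [mem_range] at hj
    rw [show m + 1 + (n + 1) - j = m + 1 + n - j + 1 by omega, show m + (n + 1) - j = m + 1 + n - j by omega, gb_succ']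
    ring
  have h2 : ∑ j ∈ range (n + 2), x ^ (j * (j - 1) / 2) * gb x (n + 1) j *
        (x ^ (m + 1 + n - j - n) * gb x (m + 1 + n - j) n)
      = x ^ m * Dq x m n + x ^ (m + 1) * Dq x (m + 1) n := by
    rw [sum_range_succ']
    have e1 : ∀ i ∈ range (n + 1), x ^ ((i + 1) * (i + 1 - 1) / 2) * gb x (n + 1) (i + 1) *
          (x ^ (m + 1 + n - (i + 1) - n) * gb x (m + 1 + n - (i + 1)) n)
        = x ^ m * (x ^ (i * (i - 1) / 2) * gb x n i * gb x (m + n - i) n)
          + x ^ (m + 1) * (x ^ ((i + 1) * (i + 1 - 1) / 2) * gb x n (i + 1) * gb x (m + 1 + n - (i + 1)) n) := by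
      intro i hi
      rw [mem_range] at hi
      rw [gb_succ, show m + 1 + n - (i + 1) = m + n - i by omega, tri_succ]
      by_cases him : i ≤ m
      · have h3 : x ^ (i * (i - 1) / 2 + i) * x ^ (m + n - i - n) = x ^ m * x ^ (i * (i - 1) / 2) := by
          rw [← pow_add, ← pow_add]
          congr 1
          omega
        have h4 : x ^ (i + 1) * x ^ (m + n - i - n) = x ^ (m + 1) := by
          rw [← pow_add]
          congr 1
          omega
        linear_combination (gb x n i * gb x (m + n - i) n) * h3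
          + (x ^ (i * (i - 1) / 2 + i) * gb x n (i + 1) * gb x (m + n - i) n) * h4
      · rw [gb_of_lt x (m + n - i) n (by omega)]
        ring
    rw [sum_congr rfl e1, sum_add_distrib, ← mul_sum, ← mul_sum]
    have e2 : Dq x (m + 1) n = ∑ i ∈ range (n + 1), x ^ ((i + 1) * (i + 1 - 1) / 2) * gb x n (i + 1) *
        gb x (m + 1 + n - (i + 1)) n + x ^ (0 * (0 - 1) / 2) * gb x n 0 * gb x (m + 1 + n - 0) n := by
      have e3 := sum_range_succ' (fun j => x ^ (j * (j - 1) / 2) * gb x n j * gb x (m + 1 + n - j) n) (n + 1)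
      rw [sum_range_succ, gb_of_lt x n (n + 1) (by omega)] at e3
      unfold Dq
      rw [← e3]
      ring
    rw [e2, gb_zero_right, gb_zero_right, show m + 1 + n - 0 - n = m + 1 by omega]
    unfold Dq
    ring
  rw [h1, h2]
  ring

/-- the three-term recurrence in `n` -/
theorem Dq_rec (x : R) (m n : ℕ) :
    (1 - x ^ (n + 2)) * Dq x (m + 1) (n + 2)
      = ((1 + x ^ (n + 1)) - (1 + x ^ (n + 2)) * x ^ (m + 1)) * Dq x (m + 1) (n + 1)
        + (1 - x ^ (n + 1)) * x ^ (m + 1) * Dq x (m + 1) n := by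
  have h1 := E1 x m n
  have h2 := E2 x m n
  have h3 := E1 x m (n + 1)
  have h4 := E2 x m (n + 1)
  rw [show n + 1 + 1 = n + 2 by ring] at h3 h4
  linear_combination h3 - x ^ (n + 2) * h4 + x ^ (m + 1) * h1 - x ^ (n + 1) * h2

theorem Dq_one (x : R) (m : ℕ) : (1 - x) * Dq x (m + 1) 1 = 2 - (1 + x) * x ^ (m + 1) := by
  have h1 := E1 x m 0
  have h2 := E2 x m 0
  rw [zero_add, Dq_zero, Dq_zero] at h1 h2
  linear_combination h1 - x * h2

/-- the bilinear form of the closed form -/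
def NN (q qi : R) (m n : ℕ) : R :=
  (1 - q) * (Dq q m (n + 1) * Dq qi m (n + 1) + Dq q m n * Dq qi m n)
    - ((1 + q) * qi ^ m - 2 * q) * (Dq q m (n + 1) * Dq qi m n)
    - (2 - (1 + q) * q ^ m) * (Dq q m n * Dq qi m (n + 1))

/-- the sum -/
def TT (q qi : R) (m n : ℕ) : R :=
  ∑ j ∈ range n, (∑ i ∈ range (2 * j + 1), q ^ i) * qi ^ j * Dq q m j * Dq qi m j

theorem geom (q : R) (k : ℕ) : (1 - q) * ∑ i ∈ range k, q ^ i = 1 - q ^ k := by
  have h := geom_sum_mul q k
  linear_combination -h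

theorem closed (q qi : R) (h : q * qi = 1) (m n : ℕ) :
    2 * (1 + q) * (1 - q) * (1 - q ^ (m + 1)) * (1 - q * q ^ (m + 1)) * q ^ (n + 1) * TT q qi (m + 1) (n + 1)
      = -(q * q ^ (m + 1) * (1 - q ^ (n + 1)) ^ 2 * NN q qi (m + 1) n) := by
  have hM : q ^ (m + 1) * qi ^ (m + 1) = 1 := by rw [← mul_pow, h, one_pow]
  induction n with
  | zero =>
    have h1 := Dq_one q m
    rw [TT, NN, zero_add, sum_range_one, Dq_zero, Dq_zero]
    generalize Dq q (m + 1) 1 = D at *
    generalize Dq qi (m + 1) 1 = E at *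
    generalize q ^ (m + 1) = M at *
    generalize qi ^ (m + 1) = Mi at *
    rw [mul_zero, zero_add, sum_range_one]
    linear_combination q * M * (1 - q) * ((1 - q) * E - ((1 + q) * Mi - 2 * q)) * h1
      - q * (1 - q) * (2 * (1 + q) - (1 + q) ^ 2 * M) * hM
  | succ n ih =>
    have recD := Dq_rec q m n
    have recE := Dq_rec qi m n
    have hG := geom q (2 * (n + 1) + 1)
    have hX : q ^ (n + 1) * qi ^ (n + 1) = 1 := by rw [← mul_pow, h, one_pow]
    have recE' : q ^ (m + 1) * ((1 - q ^ (n + 2)) * Dq qi (m + 1) (n + 2))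
        = ((1 + q ^ (n + 2)) - q * (1 + q ^ (n + 1)) * q ^ (m + 1)) * Dq qi (m + 1) (n + 1)
          + q * (1 - q ^ (n + 1)) * Dq qi (m + 1) n := by
      have e1 : q ^ (n + 2) * qi ^ (n + 2) = 1 := by rw [← mul_pow, h, one_pow]
      have e2 : q ^ (n + 2) * qi ^ (n + 1) = q := by
        rw [pow_succ q (n + 1)]
        linear_combination q * hX
      linear_combination (-(q ^ (m + 1)) * q ^ (n + 2)) * recE - q ^ (m + 1) * Dq qi (m + 1) (n + 2) * e1
        - Dq qi (m + 1) (n + 1) * (q ^ (m + 1) * e2 - q ^ (n + 2) * hM - q ^ (n + 2) * qi ^ (n + 2) * hM - e1)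
        - Dq qi (m + 1) n * (q ^ (n + 2) * hM - q ^ (m + 1) * qi ^ (m + 1) * e2 - q * hM)
    have hMB : q ^ (m + 1) * ((1 + q) * qi ^ (m + 1) - 2 * q) = (1 + q) - 2 * q * q ^ (m + 1) := by
      linear_combination (1 + q) * hM
    have e2 : q ^ (n + 2) = q * q ^ (n + 1) := by ring
    have e3 : q ^ (2 * (n + 1) + 1) = q * (q ^ (n + 1)) ^ 2 := by ring
    rw [TT, sum_range_succ, ← TT, NN, show n + 1 + 1 = n + 2 by ring]
    rw [NN] at ih
    rw [e3] at hG
    clear recE
    rw [e2] at recD recE' ⊢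
    generalize TT q qi (m + 1) (n + 1) = T at *
    generalize ∑ i ∈ range (2 * (n + 1) + 1), q ^ i = G at *
    generalize Dq q (m + 1) (n + 2) = D2 at *
    generalize Dq qi (m + 1) (n + 2) = E2 at *
    generalize Dq q (m + 1) (n + 1) = D1 at *
    generalize Dq qi (m + 1) (n + 1) = E1 at *
    generalize Dq q (m + 1) n = D0 at *
    generalize Dq qi (m + 1) n = E0 at *
    generalize (1 + q) * qi ^ (m + 1) - 2 * q = B at *
    generalize q ^ (m + 1) = M at *
    generalize q ^ (n + 1) = X at *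
    generalize qi ^ (n + 1) = Y at *
    linear_combination q * ih + 2 * (1 + q) * (1 - M) * (1 - q * M) * q * X * Y * D1 * E1 * hG
      + 2 * (1 + q) * (1 - M) * (1 - q * M) * q * (1 - q * X ^ 2) * D1 * E1 * hX
      + (-(q * (1 - q * X) ^ 2 * D2 * E1) + q ^ 2 * (1 - X) ^ 2 * D1 * E0) * hMB
      + (q * (1 - q) * (1 - q * X) * M * E2 - q * ((1 + q) - 2 * q * M) * (1 - q * X) * E1) * recD
      + (q * (1 - q) * (((1 + X) - (1 + q * X) * M) * D1 + (1 - X) * M * D0)
        - q * (2 - (1 + q) * M) * (1 - q * X) * D1) * recE'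

/-! ### values modulo `Φ_p` -/

theorem poch_unit (x : R) (p : ℕ) (hu : ∀ j, ¬ p ∣ j → IsUnit (1 - x ^ j)) (k : ℕ) (hk : k < p) :
    IsUnit (poch x x k) := by
  induction k with
  | zero => simp [poch]
  | succ k ih =>
    rw [poch_succ]
    refine (ih (by omega)).mul ?_
    have h := hu (k + 1) (fun hd => absurd (Nat.le_of_dvd (by omega) hd) (by omega))
    rwa [pow_succ'] at h

theorem gb_mid (x : R) (p : ℕ) (hx : x ^ p = 1) (hu : ∀ j, ¬ p ∣ j → IsUnit (1 - x ^ j)) (j : ℕ)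
    (hj0 : 0 < j) (hj : j < p) : gb x p j = 0 := by
  have h1 := gb_prod x p j
  have h2 : ∏ i ∈ range j, (1 - x ^ (p - i)) = 0 := by
    apply prod_eq_zero (mem_range.2 hj0)
    rw [Nat.sub_zero, hx, sub_self]
  rw [h2] at h1
  exact (poch_unit x p hu j hj).mul_left_eq_zero.1 h1

theorem gb_pred (x : R) (p : ℕ) (hp : 0 < p) (hx : x ^ p = 1) (hu : ∀ j, ¬ p ∣ j → IsUnit (1 - x ^ j)) (a : ℕ) :
    gb x a (p - 1) = if p ∣ a + 1 then 1 else 0 := by
  have h1 := gb_prod x a (p - 1)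
  have hU := poch_unit x p hu (p - 1) (by omega)
  have hmod : ∀ j, x ^ j = x ^ (j % p) := by
    intro j
    conv_lhs => rw [← Nat.mod_add_div j p, pow_add, pow_mul, hx, one_pow, mul_one]
  split_ifs with hd
  · have h2 : ∏ i ∈ range (p - 1), (1 - x ^ (a - i)) = poch x x (p - 1) := by
      unfold poch
      rw [← prod_range_reflect]
      refine prod_congr rfl fun i hi => ?_
      rw [mem_range] at hi
      have e1 : x * x ^ i = x ^ (i + 1) := by ring
      rw [e1]
      obtain ⟨c, hc⟩ := hd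
      have hc1 : 1 ≤ c := by
        rcases c with _ | c
        · simp at hc
        · omega
      obtain ⟨c', rfl⟩ : ∃ c', c = c' + 1 := ⟨c - 1, by omega⟩
      have e2 : a - (p - 1 - 1 - i) = p * c' + (i + 1) := by
        have e3 : p * (c' + 1) = p * c' + p := by ring
        omega
      rw [e2, pow_add, pow_mul, hx, one_pow, one_mul]
    rw [h2] at h1
    have h3 : (gb x a (p - 1) - 1) * poch x x (p - 1) = 0 := by linear_combination h1
    exact sub_eq_zero.1 (hU.mul_left_eq_zero.1 h3)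
  · have h2 : ∏ i ∈ range (p - 1), (1 - x ^ (a - i)) = 0 := by
      have hlt : a % p < p := Nat.mod_lt _ hp
      have hne : a % p ≠ p - 1 := by
        intro h3
        apply hd
        refine ⟨a / p + 1, ?_⟩
        have h4 := Nat.mod_add_div a p
        rw [mul_add, mul_one]
        omega
      apply prod_eq_zero (mem_range.2 (show a % p < p - 1 by omega))
      have h4 := Nat.mod_add_div a p
      have e2 : a - a % p = p * (a / p) := by omega
      rw [e2, pow_mul, hx, one_pow, sub_self]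
    rw [h2] at h1
    exact hU.mul_left_eq_zero.1 h1

theorem gb_p (x : R) (p : ℕ) (hp : 0 < p) (hx : x ^ p = 1) (hu : ∀ j, ¬ p ∣ j → IsUnit (1 - x ^ j)) (a : ℕ) :
    gb x a p = ((a / p : ℕ) : R) := by
  obtain ⟨p', rfl⟩ : ∃ p', p = p' + 1 := ⟨p - 1, by omega⟩
  induction a with
  | zero =>
    rw [gb_of_lt x 0 _ (by omega), Nat.zero_div, Nat.cast_zero]
  | succ a ih =>
    have h1 := gb_pred x (p' + 1) hp hx hu a
    rw [Nat.add_sub_cancel] at h1
    rw [gb_succ, ih, h1, hx, Nat.succ_div]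
    split_ifs with h
    · push_cast
      ring
    · simp

theorem Dq_p (x : R) (p : ℕ) (hodd : Odd p) (hx : x ^ p = 1) (hu : ∀ j, ¬ p ∣ j → IsUnit (1 - x ^ j)) (m : ℕ) :
    Dq x m p = (((m + p) / p : ℕ) : R) + ((m / p : ℕ) : R) := by
  have hp : 0 < p := hodd.pos
  obtain ⟨p', hp'⟩ : ∃ p', p = p' + 1 := ⟨p - 1, by omega⟩
  have hself : gb x p p = 1 := by
    rw [gb_p x p hp hx hu, Nat.div_self hp, Nat.cast_one]
  have htri : x ^ (p * (p - 1) / 2) = 1 := by
    obtain ⟨c, hc⟩ := hodd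
    have e1 : p * (p - 1) / 2 = p * c := by
      rw [show p - 1 = 2 * c by omega, show p * (2 * c) = 2 * (p * c) by ring]
      omega
    rw [e1, pow_mul, hx, one_pow]
  unfold Dq
  rw [sum_range_succ, htri, hself, Nat.add_sub_cancel, gb_p x p hp hx hu m]
  rw [hp', sum_range_succ', ← hp']
  rw [sum_eq_zero]
  · rw [gb_zero_right, Nat.sub_zero, gb_p x p hp hx hu]
    simp
  · intro i hi
    rw [mem_range] at hi
    rw [gb_mid x p hx hu (i + 1) (by omega) (by omega)]
    ring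

theorem Dq_const (x : R) (p : ℕ) (hu : ∀ j, ¬ p ∣ j → IsUnit (1 - x ^ j)) (m : ℕ)
    (hm : x ^ (m + 1) = 1) : ∀ k, k < p → Dq x (m + 1) k = 1 := by
  have key : ∀ k, (k < p → Dq x (m + 1) k = 1) ∧ (k + 1 < p → Dq x (m + 1) (k + 1) = 1) := by
    intro k
    induction k with
    | zero =>
      refine ⟨fun _ => Dq_zero x _, fun h => ?_⟩
      have h1 := Dq_one x m
      have h2 := hu 1 (fun hd => absurd (Nat.le_of_dvd (by omega) hd) (by omega))
      rw [hm] at h1
      rw [pow_one] at h2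
      rw [zero_add]
      have h3 : (1 - x) * (Dq x (m + 1) 1 - 1) = 0 := by linear_combination h1
      exact sub_eq_zero.1 (h2.mul_right_eq_zero.1 h3)
    | succ k ih =>
      refine ⟨ih.2, fun h => ?_⟩
      have h1 := Dq_rec x m k
      have h2 := hu (k + 2) (fun hd => absurd (Nat.le_of_dvd (by omega) hd) (by omega))
      rw [hm, ih.1 (by omega), ih.2 (by omega)] at h1
      have h3 : (1 - x ^ (k + 2)) * (Dq x (m + 1) (k + 1 + 1) - 1) = 0 := by
        rw [show k + 1 + 1 = k + 2 by ring]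
        linear_combination h1
      exact sub_eq_zero.1 (h2.mul_right_eq_zero.1 h3)
  exact fun k => (key k).1

theorem Dq_geom (x y : R) (hxy : x * y = 1) (p : ℕ) (hu : ∀ j, ¬ p ∣ j → IsUnit (1 - x ^ j)) (m : ℕ)
    (hm : x ^ (m + 1) = y) : ∀ k, k < p → Dq x (m + 1) k = (-y) ^ k := by
  have key : ∀ k, (k < p → Dq x (m + 1) k = (-y) ^ k) ∧ (k + 1 < p → Dq x (m + 1) (k + 1) = (-y) ^ (k + 1)) := by
    intro k
    induction k with
    | zero =>
      refine ⟨fun _ => by rw [Dq_zero, pow_zero], fun h => ?_⟩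
      have h1 := Dq_one x m
      have h2 := hu 1 (fun hd => absurd (Nat.le_of_dvd (by omega) hd) (by omega))
      rw [hm] at h1
      rw [pow_one] at h2
      rw [zero_add]
      have h3 : (1 - x) * (Dq x (m + 1) 1 - (-y) ^ 1) = 0 := by linear_combination h1 - 2 * hxy
      exact sub_eq_zero.1 (h2.mul_right_eq_zero.1 h3)
    | succ k ih =>
      refine ⟨ih.2, fun h => ?_⟩
      have h1 := Dq_rec x m k
      have h2 := hu (k + 2) (fun hd => absurd (Nat.le_of_dvd (by omega) hd) (by omega))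
      rw [hm, ih.1 (by omega), ih.2 (by omega)] at h1
      have h3 : (1 - x ^ (k + 2)) * (Dq x (m + 1) (k + 1 + 1) - (-y) ^ (k + 1 + 1)) = 0 := by
        rw [show k + 1 + 1 = k + 2 by ring]
        linear_combination h1 + 2 * y * x ^ (k + 1) * (-y) ^ k * hxy
      exact sub_eq_zero.1 (h2.mul_right_eq_zero.1 h3)
  exact fun k => (key k).1

/-- `N` modulo `Φ_p`, case `p ∣ m` -/
theorem NN_case2 (x y : R) (hxy : x * y = 1) (p : ℕ) (hp1 : 1 < p) (hodd : Odd p) (hx : x ^ p = 1)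
    (hux : ∀ j, ¬ p ∣ j → IsUnit (1 - x ^ j)) (huy : ∀ j, ¬ p ∣ j → IsUnit (1 - y ^ j)) (m u : ℕ)
    (hm : m + 1 = p * u) : NN x y (m + 1) (p - 1) = (1 - x) * (4 * (u : R) ^ 2) := by
  have hy : y ^ p = 1 := by
    have h : x ^ p * y ^ p = 1 := by rw [← mul_pow, hxy, one_pow]
    rwa [hx, one_mul] at h
  have hxm : x ^ (m + 1) = 1 := by rw [hm, pow_mul, hx, one_pow]
  have hym : y ^ (m + 1) = 1 := by rw [hm, pow_mul, hy, one_pow]
  have e1 : p - 1 + 1 = p := by omega
  have e2 : (m + 1 + p) / p = u + 1 := by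
    rw [hm, show p * u + p = p * (u + 1) by ring, Nat.mul_div_cancel_left _ (by omega)]
  have e3 : (m + 1) / p = u := by
    rw [hm, Nat.mul_div_cancel_left _ (by omega)]
  rw [NN, e1, Dq_p x p hodd hx hux, Dq_p y p hodd hy huy, Dq_const x p hux m hxm _ (by omega),
    Dq_const y p huy m hym _ (by omega), hxm, hym, e2, e3]
  push_cast
  ring

/-- `N` modulo `Φ_p`, case `p ∣ m + 1` -/
theorem NN_case3 (x y : R) (hxy : x * y = 1) (p : ℕ) (hp1 : 1 < p) (hodd : Odd p) (hx : x ^ p = 1)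
    (hux : ∀ j, ¬ p ∣ j → IsUnit (1 - x ^ j)) (huy : ∀ j, ¬ p ∣ j → IsUnit (1 - y ^ j)) (m u : ℕ)
    (hm : m + 2 = p * u) : NN x y (m + 1) (p - 1) = (1 - x) * (4 * (u : R) ^ 2) := by
  have hy : y ^ p = 1 := by
    have h : x ^ p * y ^ p = 1 := by rw [← mul_pow, hxy, one_pow]
    rwa [hx, one_mul] at h
  have hxm : x ^ (m + 1) = y := by
    have h : x * x ^ (m + 1) = 1 := by rw [← pow_succ', show m + 1 + 1 = m + 2 by ring, hm, pow_mul, hx, one_pow]
    linear_combination y * h - x ^ (m + 1) * hxy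
  have hym : y ^ (m + 1) = x := by
    have h : y * y ^ (m + 1) = 1 := by rw [← pow_succ', show m + 1 + 1 = m + 2 by ring, hm, pow_mul, hy, one_pow]
    linear_combination x * h - y ^ (m + 1) * hxy
  have e1 : p - 1 + 1 = p := by omega
  obtain ⟨u', rfl⟩ : ∃ u', u = u' + 1 := by
    rcases u with _ | u
    · omega
    · exact ⟨u, rfl⟩
  have e4 : p * (u' + 1) = p * u' + p := by ring
  have e2 : (m + 1 + p) / p = u' + 1 := by
    rw [show m + 1 + p = (p - 1) + p * (u' + 1) by omega, Nat.add_mul_div_left _ _ (by omega),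
      Nat.div_eq_of_lt (by omega)]
    ring
  have e3 : (m + 1) / p = u' := by
    rw [show m + 1 = (p - 1) + p * u' by omega, Nat.add_mul_div_left _ _ (by omega),
      Nat.div_eq_of_lt (by omega)]
    ring
  have heven : Even (p - 1) := by
    obtain ⟨c, hc⟩ := hodd
    exact ⟨c, by omega⟩
  have hx1 : x ^ (p - 1) = y := by
    have h : x * x ^ (p - 1) = 1 := by rw [← pow_succ', e1, hx]
    linear_combination y * h - x ^ (p - 1) * hxy
  have hy1 : y ^ (p - 1) = x := by
    have h : y * y ^ (p - 1) = 1 := by rw [← pow_succ', e1, hy]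
    linear_combination x * h - y ^ (p - 1) * hxy
  rw [NN, e1, Dq_p x p hodd hx hux, Dq_p y p hodd hy huy, Dq_geom x y hxy p hux m hxm _ (by omega),
    Dq_geom y x (by rw [mul_comm, hxy]) p huy m hym _ (by omega), hxm, hym, e2, e3, heven.neg_pow, heven.neg_pow,
    hx1, hy1]
  push_cast
  linear_combination ((1 - x) + 2 * (2 * (u' : R) + 1)) * hxy

end generic

/-! ### the local ring -/

section local_ring

variable {p : ℕ} [hp0 : NeZero p]

/-- `Φ_p` in the local ring -/
noncomputable def PhiO (p : ℕ) [NeZero p] : O p := algebraMap ℚ[X] (O p) (cyclotomic p ℚ)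

theorem PhiO_eq (hp : p.Prime) : (1 - qO p) * PhiO p = 1 - qO p ^ p := by
  have := Fact.mk hp
  have h : (1 - X : ℚ[X]) * cyclotomic p ℚ = 1 - X ^ p := by
    rw [cyclotomic_prime]
    exact geom X p
  have h1 := congrArg (algebraMap ℚ[X] (O p)) h
  rw [map_mul, map_sub, map_sub, map_one, map_pow] at h1
  exact h1

theorem PhiO_ne : PhiO p ≠ 0 := by
  intro h
  have h1 := congrArg (psi p) h
  rw [PhiO, psi_algebraMap, map_zero, map_eq_zero_iff _ (RatFunc.algebraMap_injective ℚ)] at h1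
  exact cyclotomic_ne_zero p ℚ h1

instance : IsDomain (O p) := (psi_injective p).isDomain (psi p)

/-- the residue ring -/
abbrev K1 (p : ℕ) [NeZero p] := O p ⧸ Ideal.span {PhiO p}

theorem mk_eq_zero_iff (s : O p) : Ideal.Quotient.mk (Ideal.span {PhiO p}) s = 0 ↔ PhiO p ∣ s := by
  rw [Ideal.Quotient.eq_zero_iff_mem, Ideal.mem_span_singleton]

theorem two_unit : IsUnit (2 : O p) := by
  have h : IsUnit (algebraMap ℚ (O p) 2) := (isUnit_iff_ne_zero.2 two_ne_zero).map _
  rwa [map_ofNat] at h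

theorem cast_unit (u : ℕ) (hu : u ≠ 0) : IsUnit (u : O p) := by
  have h : IsUnit (algebraMap ℚ (O p) u) := (isUnit_iff_ne_zero.2 (Nat.cast_ne_zero.2 hu)).map _
  rwa [map_natCast] at h

theorem lift_dvd (w z : O p) (u : ℕ) (hu : u ≠ 0) (hw : PhiO p ∣ w - u) (h : PhiO p ^ 2 ∣ w * z) :
    PhiO p ^ 2 ∣ z := by
  obtain ⟨x, hx⟩ := hw
  obtain ⟨y, hy⟩ := h
  obtain ⟨v, hv⟩ := (cast_unit (p := p) u hu).exists_left_inv
  refine ⟨v * (1 - PhiO p * x * v) * y + x ^ 2 * v ^ 2 * z, ?_⟩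
  linear_combination v * (1 - PhiO p * x * v) * hy - z * (1 - PhiO p * x * v) * v * hx
    - z * (1 - PhiO p * x * v) * hv

theorem xp (hp : p.Prime) : Ideal.Quotient.mk (Ideal.span {PhiO p}) (qO p) ^ p = 1 := by
  have h : Ideal.Quotient.mk (Ideal.span {PhiO p}) (1 - qO p ^ p) = 0 := by
    rw [mk_eq_zero_iff, ← PhiO_eq hp]
    exact dvd_mul_left _ _
  rw [map_sub, map_one, map_pow] at h
  linear_combination -h

theorem ux (j : ℕ) (hj : ¬ p ∣ j) : IsUnit (1 - Ideal.Quotient.mk (Ideal.span {PhiO p}) (qO p) ^ j) := by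
  have h := (unit_sub p j hj).map (Ideal.Quotient.mk (Ideal.span {PhiO p}))
  rwa [map_sub, map_one, map_pow] at h

theorem uy (qi : O p) (h : qO p * qi = 1) (j : ℕ) (hj : ¬ p ∣ j) :
    IsUnit (1 - Ideal.Quotient.mk (Ideal.span {PhiO p}) qi ^ j) := by
  have h0 : IsUnit qi := IsUnit.of_mul_eq_one_right _ h
  have h1 : IsUnit (1 - qi ^ j) := by
    have e : 1 - qi ^ j = -(qi ^ j * (1 - qO p ^ j)) := by
      have h2 : qO p ^ j * qi ^ j = 1 := by rw [← mul_pow, h, one_pow]
      linear_combination -h2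
    rw [e]
    exact ((h0.pow j).mul (unit_sub p j hj)).neg
  have h2 := h1.map (Ideal.Quotient.mk (Ideal.span {PhiO p}))
  rwa [map_sub, map_one, map_pow] at h2

theorem xy (qi : O p) (h : qO p * qi = 1) : Ideal.Quotient.mk (Ideal.span {PhiO p}) (qO p) *
    Ideal.Quotient.mk (Ideal.span {PhiO p}) qi = 1 := by
  rw [← map_mul, h, map_one]

theorem map_gb {A B : Type*} [CommRing A] [CommRing B] (f : A →+* B) (x : A) : ∀ m k : ℕ,
    f (gb x m k) = gb (f x) m k := by
  intro m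
  induction m with
  | zero =>
    intro k
    rcases k with _ | k
    · simp [gb]
    · simp [gb]
  | succ m ih =>
    intro k
    rcases k with _ | k
    · simp [gb]
    · rw [gb_succ, gb_succ, map_add, map_mul, map_pow, ih, ih]

theorem map_Dq {A B : Type*} [CommRing A] [CommRing B] (f : A →+* B) (x : A) (m n : ℕ) :
    f (Dq x m n) = Dq (f x) m n := by
  unfold Dq
  rw [map_sum]
  refine sum_congr rfl fun j _ => ?_
  rw [map_mul, map_mul, map_pow, map_gb, map_gb]

theorem map_NN {A B : Type*} [CommRing A] [CommRing B] (f : A →+* B) (x y : A) (m n : ℕ) :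
    f (NN x y m n) = NN (f x) (f y) m n := by
  unfold NN
  simp only [map_sub, map_mul, map_add, map_one, map_pow, map_Dq, map_ofNat]

theorem main1 (hp : p.Prime) (hodd : Odd p) (qi : O p) (h : qO p * qi = 1) (m : ℕ) (h1 : ¬ p ∣ m + 1)
    (h2 : ¬ p ∣ m + 2) : PhiO p ^ 2 ∣ TT (qO p) qi (m + 1) p := by
  have hp2 := hp.two_le
  have hc := closed (qO p) qi h m (p - 1)
  rw [show p - 1 + 1 = p by omega, ← PhiO_eq hp] at hc
  have hU : IsUnit (2 * (1 + qO p) * (1 - qO p) * (1 - qO p ^ (m + 1)) * (1 - qO p * qO p ^ (m + 1)) * qO p ^ p) := by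
    have u1 := unit_add p hodd 1
    have u2 := unit_sub p 1 (fun hd => absurd (Nat.le_of_dvd (by omega) hd) (by omega))
    have u3 := unit_sub p (m + 1) h1
    have u4 := unit_sub p (m + 2) h2
    rw [pow_one] at u1 u2
    rw [pow_succ' _ (m + 1)] at u4
    exact (((((two_unit.mul u1).mul u2).mul u3).mul u4).mul ((IsUnit.of_mul_eq_one _ h).pow p))
  have hd : PhiO p ^ 2 ∣ (2 * (1 + qO p) * (1 - qO p) * (1 - qO p ^ (m + 1)) * (1 - qO p * qO p ^ (m + 1)) * qO p ^ p)
      * TT (qO p) qi (m + 1) p := by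
    rw [hc]
    exact ⟨-(qO p * qO p ^ (m + 1) * (1 - qO p) ^ 2 * NN (qO p) qi (m + 1) (p - 1)), by ring⟩
  exact (hU.dvd_mul_left).1 hd

/-- `(1 - q^(p u)) = (1-q) Φ w` -/
theorem split_pow (hp : p.Prime) (u : ℕ) :
    1 - qO p ^ (p * u) = (1 - qO p) * PhiO p * ∑ i ∈ range u, (qO p ^ p) ^ i := by
  rw [PhiO_eq hp, geom, pow_mul]

theorem w_mod (hp : p.Prime) (u : ℕ) : PhiO p ∣ ∑ i ∈ range u, (qO p ^ p) ^ i - u := by
  rw [← mk_eq_zero_iff, map_sub, map_sum, map_natCast]
  have e : ∀ i ∈ range u, Ideal.Quotient.mk (Ideal.span {PhiO p}) ((qO p ^ p) ^ i) = 1 := by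
    intro i _
    rw [map_pow, map_pow, xp hp, one_pow]
  rw [sum_congr rfl e]
  simp

theorem main2 (hp : p.Prime) (hodd : Odd p) (qi : O p) (h : qO p * qi = 1) (m u : ℕ) (hm : m + 1 = p * u)
    (R : O p) (hR : (1 - qO p ^ 2) * R = qO p * (1 - qi ^ (2 * (m + 1)))) :
    PhiO p ^ 2 ∣ TT (qO p) qi (m + 1) p - R := by
  have hp2 := hp.two_le
  have hu0 : u ≠ 0 := by
    rintro rfl
    omega
  have hc := closed (qO p) qi h m (p - 1)
  rw [show p - 1 + 1 = p by omega] at hc
  have hs := split_pow hp u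
  rw [← hm] at hs
  have hwm := w_mod hp u
  set w := ∑ i ∈ range u, (qO p ^ p) ^ i with hw
  have hN := NN_case2 (R := K1 p) (Ideal.Quotient.mk (Ideal.span {PhiO p}) (qO p)) (Ideal.Quotient.mk (Ideal.span {PhiO p}) qi) (xy qi h) p hp.one_lt hodd (xp hp) ux (uy qi h) m u hm
  rw [← map_NN] at hN
  have hM : qO p ^ (m + 1) * qi ^ (m + 1) = 1 := by rw [← mul_pow, h, one_pow]
  have hMK : Ideal.Quotient.mk (Ideal.span {PhiO p}) (qO p) ^ (m + 1) = 1 := by
    rw [hm, pow_mul, xp hp, one_pow]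
  have hw2 : Ideal.Quotient.mk (Ideal.span {PhiO p}) w = (u : K1 p) := by
    have h3 := (mk_eq_zero_iff (w - (u : O p))).2 hwm
    rw [map_sub, map_natCast] at h3
    exact sub_eq_zero.1 h3
  have hq2 : qi ^ (2 * (m + 1)) = (qi ^ (m + 1)) ^ 2 := by rw [mul_comm, pow_mul]
  rw [hq2] at hR
  have u1 := unit_add p hodd 1
  have u2 := unit_sub p 1 (fun hd => absurd (Nat.le_of_dvd (by omega) hd) (by omega))
  have u4 := unit_sub p (m + 2) (fun hd => by
    have h5 : p ∣ 1 := by
      have h6 := (Nat.dvd_sub hd (Dvd.intro u hm.symm))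
      rwa [show m + 2 - (m + 1) = 1 by omega] at h6
    exact absurd (Nat.le_of_dvd (by omega) h5) (by omega))
  rw [pow_one] at u1 u2
  rw [pow_succ' _ (m + 1)] at u4
  have uq := IsUnit.of_mul_eq_one _ h
  -- the bracket
  have hbr : PhiO p ∣ -(qO p ^ (m + 1)) ^ 3 * NN (qO p) qi (m + 1) (p - 1)
      + 2 * w ^ 2 * (1 - qO p * qO p ^ (m + 1)) * qO p ^ p * (1 + qO p ^ (m + 1)) := by
    rw [← mk_eq_zero_iff]
    simp only [map_add, map_sub, map_mul, map_neg, map_pow, map_one, map_ofNat, hN, hMK, hw2, xp hp]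
    ring
  obtain ⟨b, hb⟩ := hbr
  -- cancellation
  have hne : PhiO p ≠ 0 := PhiO_ne
  have hT : 2 * (1 + qO p) * w * (1 - qO p * qO p ^ (m + 1)) * qO p ^ p * TT (qO p) qi (m + 1) p
      = -(qO p * qO p ^ (m + 1) * PhiO p * NN (qO p) qi (m + 1) (p - 1)) := by
    apply mul_left_cancel₀ (mul_ne_zero (pow_ne_zero 2 u2.ne_zero) hne)
    have hΦ := PhiO_eq (p := p) hp
    linear_combination hc - 2 * (1 + qO p) * (1 - qO p) * (1 - qO p * qO p ^ (m + 1)) * qO p ^ p *
        TT (qO p) qi (m + 1) p * hs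
      + qO p * qO p ^ (m + 1) * NN (qO p) qi (m + 1) (p - 1) * ((1 - qO p) * PhiO p + (1 - qO p ^ p)) * hΦ
  have hR' : (qO p ^ (m + 1)) ^ 2 * (1 + qO p) * R = -(qO p * (1 + qO p ^ (m + 1)) * PhiO p * w) := by
    apply mul_left_cancel₀ u2.ne_zero
    linear_combination (qO p ^ (m + 1)) ^ 2 * hR - qO p * (1 + qO p ^ (m + 1)) * hs
      - qO p * (qO p ^ (m + 1) * qi ^ (m + 1) + 1) * hM
  have hfin : PhiO p ^ 2 ∣ w * (((2 * (1 + qO p) * (1 - qO p * qO p ^ (m + 1)) * qO p ^ p) * (qO p ^ (m + 1)) ^ 2)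
      * (TT (qO p) qi (m + 1) p - R)) := by
    refine ⟨qO p * b, ?_⟩
    linear_combination (qO p ^ (m + 1)) ^ 2 * hT - 2 * w * (1 - qO p * qO p ^ (m + 1)) * qO p ^ p * hR'
      + qO p * PhiO p * hb
  have h9 := lift_dvd w _ u hu0 hwm hfin
  exact ((((two_unit.mul u1).mul u4).mul (uq.pow p)).mul ((uq.pow (m + 1)).pow 2)).dvd_mul_left.1 h9

theorem main3 (hp : p.Prime) (hodd : Odd p) (qi : O p) (h : qO p * qi = 1) (m u : ℕ) (hm : m + 2 = p * u)
    (R : O p) (hR : (1 - qO p ^ 2) * R = qO p * (1 - qO p ^ (2 * (m + 1) + 2))) :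
    PhiO p ^ 2 ∣ TT (qO p) qi (m + 1) p - R := by
  have hp2 := hp.two_le
  have hu0 : u ≠ 0 := by
    rintro rfl
    omega
  have hc := closed (qO p) qi h m (p - 1)
  rw [show p - 1 + 1 = p by omega] at hc
  have hs := split_pow hp u
  rw [← hm, pow_succ' _ (m + 1)] at hs
  have hwm := w_mod hp u
  set w := ∑ i ∈ range u, (qO p ^ p) ^ i with hw
  have hN := NN_case3 (R := K1 p) (Ideal.Quotient.mk (Ideal.span {PhiO p}) (qO p))
    (Ideal.Quotient.mk (Ideal.span {PhiO p}) qi) (xy qi h) p hp.one_lt hodd (xp hp) ux (uy qi h) m u hm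
  rw [← map_NN] at hN
  have hMK0 : Ideal.Quotient.mk (Ideal.span {PhiO p}) (qO p) * Ideal.Quotient.mk (Ideal.span {PhiO p}) (qO p) ^ (m + 1) = 1 := by
    rw [← pow_succ', show m + 1 + 1 = m + 2 by ring, hm, pow_mul, xp hp, one_pow]
  have hxyK := xy qi h
  have hMK : Ideal.Quotient.mk (Ideal.span {PhiO p}) (qO p) ^ (m + 1)
      = Ideal.Quotient.mk (Ideal.span {PhiO p}) qi := by
    linear_combination Ideal.Quotient.mk (Ideal.span {PhiO p}) qi * hMK0
      - Ideal.Quotient.mk (Ideal.span {PhiO p}) (qO p) ^ (m + 1) * hxyK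
  have hw2 : Ideal.Quotient.mk (Ideal.span {PhiO p}) w = (u : K1 p) := by
    have h3 := (mk_eq_zero_iff (w - (u : O p))).2 hwm
    rw [map_sub, map_natCast] at h3
    exact sub_eq_zero.1 h3
  have hq2 : qO p ^ (2 * (m + 1) + 2) = (qO p * qO p ^ (m + 1)) ^ 2 := by ring
  rw [hq2] at hR
  have u1 := unit_add p hodd 1
  have u2 := unit_sub p 1 (fun hd => absurd (Nat.le_of_dvd (by omega) hd) (by omega))
  have u4 := unit_sub p (m + 1) (fun hd => by
    have h5 : p ∣ 1 := by
      have h6 := (Nat.dvd_sub (Dvd.intro u hm.symm) hd)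
      rwa [show m + 2 - (m + 1) = 1 by omega] at h6
    exact absurd (Nat.le_of_dvd (by omega) h5) (by omega))
  rw [pow_one] at u1 u2
  have uq := IsUnit.of_mul_eq_one _ h
  have hbr : PhiO p ∣ qO p ^ (m + 1) * NN (qO p) qi (m + 1) (p - 1)
      + 2 * (1 - qO p ^ (m + 1)) * w ^ 2 * qO p ^ p * (1 + qO p * qO p ^ (m + 1)) := by
    rw [← mk_eq_zero_iff]
    simp only [map_add, map_sub, map_mul, map_pow, map_one, map_ofNat, hN, hMK, hw2, xp hp]
    linear_combination (-4 * (u : K1 p) ^ 2 + 2 * (1 - Ideal.Quotient.mk (Ideal.span {PhiO p}) qi) * (u : K1 p) ^ 2) * hxyK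
  obtain ⟨b, hb⟩ := hbr
  have hne : PhiO p ≠ 0 := PhiO_ne
  have hT : 2 * (1 + qO p) * w * (1 - qO p ^ (m + 1)) * qO p ^ p * TT (qO p) qi (m + 1) p
      = -(qO p * qO p ^ (m + 1) * PhiO p * NN (qO p) qi (m + 1) (p - 1)) := by
    apply mul_left_cancel₀ (mul_ne_zero (pow_ne_zero 2 u2.ne_zero) hne)
    have hΦ := PhiO_eq (p := p) hp
    linear_combination hc - 2 * (1 + qO p) * (1 - qO p) * (1 - qO p ^ (m + 1)) * qO p ^ p *
        TT (qO p) qi (m + 1) p * hs
      + qO p * qO p ^ (m + 1) * NN (qO p) qi (m + 1) (p - 1) * ((1 - qO p) * PhiO p + (1 - qO p ^ p)) * hΦ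
  have hR' : (1 + qO p) * R = qO p * (1 + qO p * qO p ^ (m + 1)) * PhiO p * w := by
    apply mul_left_cancel₀ u2.ne_zero
    linear_combination hR + qO p * (1 + qO p * qO p ^ (m + 1)) * hs
  have hfin : PhiO p ^ 2 ∣ w * ((2 * (1 + qO p) * (1 - qO p ^ (m + 1)) * qO p ^ p)
      * (TT (qO p) qi (m + 1) p - R)) := by
    refine ⟨-(qO p * b), ?_⟩
    linear_combination hT - 2 * w * (1 - qO p ^ (m + 1)) * qO p ^ p * hR'
      - qO p * PhiO p * hb
  have h9 := lift_dvd w _ u hu0 hwm hfin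
  exact (((two_unit.mul u1).mul u4).mul (uq.pow p)).dvd_mul_left.1 h9

end local_ring

end Pool.Agent.Q33.QPhi
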