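import Pool.Agent.Q33.QPhi.Cubic

/-! The `[8k+1]`-weighted sum of Gaussian binomials at roots of unity. -/

namespace Pool.Agent.Q33.QPhi

open Finset Polynomial

/-- the factor `R_{n,k}` -/
def RR {R : Type*} [CommRing R] (x : R) (n k : ℕ) : R :=
  (∏ j ∈ Ico k n, (1 + x ^ (j + 1))) ^ 4 * (∏ j ∈ Ico (2 * k) (2 * n), (1 + x ^ (j + 1))) ^ 2 *
    (∏ j ∈ Ico k n, (1 + x ^ (2 * (j + 1)) + x ^ (4 * (j + 1)))) ^ 2

/-- the summand of `F_n` -/
def fF {R : Type*} [CommRing R] (x : R) (n k : ℕ) : R :=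
  (∑ i ∈ range (8 * k + 1), x ^ i) * x ^ (2 * k ^ 2) * gb x (4 * k) (2 * k) * gb x (2 * k) k ^ 2 * RR x n k

section field

variable {K : Type*} [Field K] {x : K} {d : ℕ}

theorem mod_of (t u v : ℕ) (h1 : t = d * u + v) (h2 : v < d) : t / d = u ∧ t % d = v := by
  subst h1
  constructor
  · rw [Nat.mul_add_div (by omega), Nat.div_eq_of_lt h2, add_zero]
  · rw [Nat.mul_add_mod, Nat.mod_eq_of_lt h2]

theorem gbs_zero (hd : 1 < d) (hx : IsPrimitiveRoot x d) (k : ℕ) (hk : d ≤ 4 * (k % d)) :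
    gb x (4 * k) (2 * k) * gb x (2 * k) k ^ 2 = 0 := by
  have hkk := Nat.div_add_mod k d
  have hk1 := Nat.mod_lt k (show d > 0 by omega)
  set b := k / d with hb
  set s := k % d with hs
  rcases Nat.lt_or_ge (2 * s) d with h | h
  · obtain ⟨e1, e2⟩ := mod_of (d := d) (2 * k) (2 * b) (2 * s) (by rw [← hkk]; ring) h
    obtain ⟨e3, e4⟩ := mod_of (d := d) (4 * k) (4 * b + 1) (4 * s - d) (by
      have : d * (4 * b + 1) = 4 * (d * b) + d := by ring
      omega) (by omega)
    rw [lucas hd hx (4 * k) (2 * k), e2, e4, gb_of_lt x _ _ (show 4 * s - d < 2 * s by omega)]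
    ring
  · obtain ⟨e1, e2⟩ := mod_of (d := d) (2 * k) (2 * b + 1) (2 * s - d) (by
      have : d * (2 * b + 1) = 2 * (d * b) + d := by ring
      omega) (by omega)
    rw [lucas hd hx (2 * k) k, e2, ← hs, gb_of_lt x _ _ (show 2 * s - d < s by omega)]
    ring

theorem RR_zero (hd : 1 < d) (hx : IsPrimitiveRoot x d) (n k : ℕ) (hkn : k ≤ n) (hr : d ≤ 3 * (n % d))
    (hk : 4 * (k % d) < d) (h : 2 ∣ d ∨ 3 ∣ d) : RR x n k = 0 := by
  have hkk := Nat.div_add_mod k d
  have hnn := Nat.div_add_mod n d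
  have hk1 := Nat.mod_lt k (show d > 0 by omega)
  have hn1 := Nat.mod_lt n (show d > 0 by omega)
  have hbb : k / d ≤ n / d := Nat.div_le_div_right hkn
  set b := k / d with hb
  set s := k % d with hs
  set B := n / d with hB
  set r := n % d with hr'
  have hcase : B = b ∨ d * b + d ≤ d * B := by
    rcases Nat.eq_or_lt_of_le hbb with h1 | h1
    · exact Or.inl h1.symm
    · right
      calc d * b + d = d * (b + 1) := by ring
        _ ≤ d * B := Nat.mul_le_mul_left _ h1
  rcases h with ⟨e, he⟩ | ⟨e, he⟩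
  · have hxe : x ^ e = -1 := by
      have h1 : x ^ e * x ^ e = 1 := by
        rw [← pow_add, show e + e = d by omega]
        exact hx.pow_eq_one
      rcases mul_self_eq_one_iff.1 h1 with h2 | h2
      · have := Nat.le_of_dvd (by omega) (hx.dvd_of_pow_eq_one e h2)
        omega
      · exact h2
    have h0 : ∏ j ∈ Ico (2 * k) (2 * n), (1 + x ^ (j + 1)) = 0 := by
      apply prod_eq_zero (i := 2 * (d * b) + e - 1)
      · rw [mem_Ico]
        rcases hcase with h1 | h1
        · rw [h1] at hnn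
          omega
        · omega
      · rw [show 2 * (d * b) + e - 1 + 1 = d * (2 * b) + e by
          have : d * (2 * b) = 2 * (d * b) := by ring
          omega, pow_add, pow_mul, hx.pow_eq_one, one_pow, hxe]
        ring
    rw [RR, h0]
    ring
  · have hxe : 1 + x ^ (2 * e) + x ^ (4 * e) = 0 := by
      have h1 : x ^ (3 * e) = 1 := by
        rw [← he]
        exact hx.pow_eq_one
      have h2 : x ^ e ≠ 1 := by
        intro h3
        have := Nat.le_of_dvd (by omega) (hx.dvd_of_pow_eq_one e h3)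
        omega
      have h4 : (x ^ e - 1) * (1 + x ^ e + (x ^ e) ^ 2) = 0 := by
        have : (x ^ e) ^ 3 = 1 := by rw [← pow_mul, mul_comm, h1]
        linear_combination this
      have h5 := (mul_eq_zero.1 h4).resolve_left (sub_ne_zero.2 h2)
      have h6 : x ^ (4 * e) = x ^ e := by
        rw [show 4 * e = 3 * e + e by ring, pow_add, h1, one_mul]
      have h7 : x ^ (2 * e) = (x ^ e) ^ 2 := by rw [← pow_mul, mul_comm]
      rw [h6, h7]
      linear_combination h5
    have h0 : ∏ j ∈ Ico k n, (1 + x ^ (2 * (j + 1)) + x ^ (4 * (j + 1))) = 0 := by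
      apply prod_eq_zero (i := d * b + e - 1)
      · rw [mem_Ico]
        rcases hcase with h1 | h1
        · rw [h1] at hnn
          omega
        · omega
      · rw [show d * b + e - 1 + 1 = d * b + e by omega,
          show 2 * (d * b + e) = d * (2 * b) + 2 * e by ring, show 4 * (d * b + e) = d * (4 * b) + 4 * e by ring,
          pow_add, pow_add x (d * (4 * b)), pow_mul x d, pow_mul x d, hx.pow_eq_one, one_pow, one_pow, one_mul, one_mul]
        exact hxe
    rw [RR, h0]
    ring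

theorem RR_split (x : K) {n m k : ℕ} (h1 : k ≤ m) (h2 : m ≤ n) : RR x n k = RR x m k * RR x n m := by
  unfold RR
  rw [← prod_Ico_consecutive _ h1 h2, ← prod_Ico_consecutive _ (Nat.mul_le_mul_left 2 h1) (Nat.mul_le_mul_left 2 h2),
    ← prod_Ico_consecutive (fun j => 1 + x ^ (2 * (j + 1)) + x ^ (4 * (j + 1))) h1 h2]
  ring

theorem RR_period (hx : x ^ d = 1) (b s : ℕ) : RR x (d * b + s) (d * b) = RR x s 0 := by
  unfold RR
  have e1 : ∀ g : ℕ → K, ∏ j ∈ Ico (d * b) (d * b + s), g j = ∏ j ∈ Ico 0 s, g (d * b + j) := by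
    intro g
    have h := prod_Ico_add g 0 s (d * b)
    rw [add_comm s, zero_add] at h
    exact h.symm
  have e2 : ∀ g : ℕ → K, ∏ j ∈ Ico (2 * (d * b)) (2 * (d * b + s)), g j = ∏ j ∈ Ico (2 * 0) (2 * s), g (2 * (d * b) + j) := by
    intro g
    have h := prod_Ico_add g (2 * 0) (2 * s) (2 * (d * b))
    rw [show 2 * s + 2 * (d * b) = 2 * (d * b + s) by ring, mul_zero, zero_add] at h
    rw [mul_zero]
    exact h.symm
  rw [e1, e2, e1]
  have hp : ∀ c j : ℕ, x ^ (d * c + j) = x ^ j := by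
    intro c j
    rw [pow_add, pow_mul, hx, one_pow, one_mul]
  congr 1
  · congr 1
    · congr 1
      refine prod_congr rfl fun j _ => ?_
      rw [show d * b + j + 1 = d * b + (j + 1) by ring, hp]
    · congr 1
      refine prod_congr rfl fun j _ => ?_
      rw [show 2 * (d * b) + j + 1 = d * (2 * b) + (j + 1) by ring, hp]
  · congr 1
    refine prod_congr rfl fun j _ => ?_
    rw [show 2 * (d * b + j + 1) = d * (2 * b) + 2 * (j + 1) by ring,
      show 4 * (d * b + j + 1) = d * (4 * b) + 4 * (j + 1) by ring, hp, hp]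

theorem gbs_eq (k : ℕ) (hD : poch (x ^ 2) (x ^ 2) (2 * k) ≠ 0) (hW : poch (x ^ 6) (x ^ 6) k ≠ 0) :
    hh x 0 k * RR x k 0 = x ^ (2 * k ^ 2) * gb x (4 * k) (2 * k) * gb x (2 * k) k ^ 2 := by
  have hS : ∀ m, ∏ j ∈ Ico 0 m, (1 + x ^ (j + 1)) = poch (-x) x m := by
    intro m
    rw [← range_eq_Ico, poch]
    refine prod_congr rfl fun j _ => ?_
    ring
  have hT : (∏ j ∈ Ico 0 k, (1 + x ^ (2 * (j + 1)) + x ^ (4 * (j + 1)))) * poch (x ^ 2) (x ^ 2) k
      = poch (x ^ 6) (x ^ 6) k := by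
    rw [← range_eq_Ico, poch, poch, ← prod_mul_distrib]
    refine prod_congr rfl fun j _ => ?_
    rw [show x ^ 6 * (x ^ 6) ^ j = (x ^ (2 * (j + 1))) ^ 3 by
      rw [← pow_mul, ← pow_mul, ← pow_add]
      congr 1
      ring, show x ^ 2 * (x ^ 2) ^ j = x ^ (2 * (j + 1)) by
      rw [← pow_mul, ← pow_add]
      congr 1
      ring, show x ^ (4 * (j + 1)) = (x ^ (2 * (j + 1))) ^ 2 by
      rw [← pow_mul]
      congr 1
      ring]
    ring
  have g1 := gb_mul x (2 * k) k k (by ring)
  have g2 := gb_mul x (4 * k) (2 * k) (2 * k) (by ring)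
  rw [poch_double x k, poch_sq x k] at g1
  rw [show 4 * k = 2 * (2 * k) by ring, poch_double x (2 * k), poch_sq x (2 * k)] at g2
  rw [poch_sq x (2 * k)] at hD
  rw [← hT, poch_sq x k] at hW
  rw [hh, RR, hS, mul_zero, hS, zero_add, zero_add, pow_one, poch_sq x (2 * k), ← hT, poch_sq x k,
    show 4 * k = 2 * (2 * k) by ring]
  set T := ∏ j ∈ Ico 0 k, (1 + x ^ (2 * (j + 1)) + x ^ (4 * (j + 1))) with hTdef
  generalize gb x (2 * k) k = G1 at *
  generalize gb x (2 * (2 * k)) (2 * k) = G2 at *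
  generalize poch x (x ^ 2) (2 * k) = P2 at *
  generalize poch x (x ^ 2) k = P1 at *
  generalize poch x x (2 * k) = A2 at *
  generalize poch x x k = A1 at *
  generalize poch (-x) x (2 * k) = S2 at *
  generalize poch (-x) x k = S1 at *
  have hA2 : A2 ≠ 0 := left_ne_zero_of_mul hD
  have hA1 : A1 ≠ 0 := left_ne_zero_of_mul (right_ne_zero_of_mul hW)
  have g1' : G1 * A1 = P1 * S1 := by
    apply mul_right_cancel₀ hA1
    linear_combination g1
  have g2' : G2 * A2 = P2 * S2 := by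
    apply mul_right_cancel₀ hA2
    linear_combination g2
  apply mul_right_cancel₀ (mul_ne_zero (pow_ne_zero 2 hW) hD)
  have i1 := inv_mul_cancel₀ hW
  have i2 := inv_mul_cancel₀ hD
  have i3 : ((T * (A1 * S1))⁻¹) ^ 2 * (T * (A1 * S1)) ^ 2 = 1 := by rw [← mul_pow, i1, one_pow]
  calc P1 ^ 2 * P2 * (T * (A1 * S1))⁻¹ ^ 2 * (A2 * S2)⁻¹ * x ^ (2 * k ^ 2) * (S1 ^ 4 * S2 ^ 2 * T ^ 2) *
        ((T * (A1 * S1)) ^ 2 * (A2 * S2))
      = P1 ^ 2 * P2 * x ^ (2 * k ^ 2) * (S1 ^ 4 * S2 ^ 2 * T ^ 2) *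
        (((T * (A1 * S1))⁻¹) ^ 2 * (T * (A1 * S1)) ^ 2) * ((A2 * S2)⁻¹ * (A2 * S2)) := by ring
    _ = P1 ^ 2 * P2 * x ^ (2 * k ^ 2) * (S1 ^ 4 * S2 ^ 2 * T ^ 2) := by rw [i3, i2]; ring
    _ = x ^ (2 * k ^ 2) * (G2 * A2) * (G1 * A1) ^ 2 * (S1 ^ 2 * S2 * T ^ 2) := by rw [g1', g2']; ring
    _ = x ^ (2 * k ^ 2) * G2 * G1 ^ 2 * ((T * (A1 * S1)) ^ 2 * (A2 * S2)) := by ring

theorem block_zero {N : ℕ} (hx : IsPrimitiveRoot x d) (hN : d = 2 * N + 1) (h3 : N % 3 ≠ 1)
    (hN2 : 2 ≤ N) (b L n : ℕ) (hL : N / 2 + 1 ≤ L) (hLd : L ≤ d) (hle : d * b + L ≤ n + 1) :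
    ∑ s ∈ range L, fF x n (d * b + s) = 0 := by
  have hc2 : d.Coprime 2 := by
    rw [hN]
    simp
  have hc3 : d.Coprime 3 := by
    rw [Nat.coprime_comm, Nat.Prime.coprime_iff_not_dvd Nat.prime_three]
    omega
  have hc6 : d.Coprime 6 := Nat.Coprime.mul_right hc2 hc3
  have h1 : ∑ s ∈ range L, fF x n (d * b + s) = ∑ s ∈ range (N / 2 + 1), fF x n (d * b + s) := by
    symm
    apply sum_subset
    · intro k hk
      rw [mem_range] at *
      omega
    · intro s hs hs'
      rw [mem_range] at *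
      have e := (mod_of (d := d) (d * b + s) b s rfl (by omega)).2
      have h := gbs_zero (by omega) hx (d * b + s) (by rw [e]; omega)
      rw [fF]
      linear_combination ((∑ i ∈ range (8 * (d * b + s) + 1), x ^ i) * x ^ (2 * (d * b + s) ^ 2) *
        RR x n (d * b + s)) * h
  have hx1 : 1 - x ≠ 0 := by
    have := ne_of_not_dvd hx (j := 1) (fun h => by
      have := Nat.le_of_dvd (by omega) h
      omega)
    rwa [pow_one] at this
  have hterm : ∀ s ∈ range (N / 2 + 1), fF x n (d * b + s)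
      = ((4 * b).choose (2 * b) : K) * ((2 * b).choose b : K) ^ 2 * RR x n (d * b) * (1 - x)⁻¹ * tt x 0 s := by
    intro s hs
    rw [mem_range] at hs
    have hW : poch (x ^ 6) (x ^ 6) s ≠ 0 := by
      unfold poch
      rw [prod_ne_zero_iff]
      intro l hl
      rw [mem_range] at hl
      have e : x ^ 6 * (x ^ 6) ^ l = x ^ (6 * (l + 1)) := by
        rw [← pow_mul, ← pow_add]
        congr 1
        ring
      rw [e]
      apply ne_of_not_dvd hx
      intro h
      have := Nat.le_of_dvd (by omega) (hc6.dvd_of_dvd_mul_left h)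
      omega
    have hD : poch (x ^ 2) (x ^ 2) (2 * s) ≠ 0 := by
      unfold poch
      rw [prod_ne_zero_iff]
      intro l hl
      rw [mem_range] at hl
      have e : x ^ 2 * (x ^ 2) ^ l = x ^ (2 * (l + 1)) := by
        rw [← pow_mul, ← pow_add]
        congr 1
        ring
      rw [e]
      apply ne_of_not_dvd hx
      intro h
      have := Nat.le_of_dvd (by omega) (hc2.dvd_of_dvd_mul_left h)
      omega
    have hgb := gbs_eq s hD hW
    have hRR := RR_split x (n := n) (m := d * b + s) (k := d * b) (by omega) (by omega)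
    rw [RR_period hx.pow_eq_one] at hRR
    have hgeom : (∑ i ∈ range (8 * (d * b + s) + 1), x ^ i) = (1 - x)⁻¹ * (1 - x * x ^ (8 * s)) := by
      have h := geom x (8 * (d * b + s) + 1)
      have e : x ^ (8 * (d * b + s) + 1) = x * x ^ (8 * s) := by
        rw [show 8 * (d * b + s) + 1 = d * (8 * b) + (8 * s + 1) by ring, pow_add, pow_mul, hx.pow_eq_one, one_pow]
        ring
      rw [e] at h
      rw [← h, ← mul_assoc, inv_mul_cancel₀ hx1, one_mul]
    have hsq : x ^ (2 * (d * b + s) ^ 2) = x ^ (2 * s ^ 2) := by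
      rw [show 2 * (d * b + s) ^ 2 = d * (2 * d * b ^ 2 + 4 * b * s) + 2 * s ^ 2 by ring, pow_add, pow_mul,
        hx.pow_eq_one, one_pow, one_mul]
    have e4 := mod_of (d := d) (4 * (d * b + s)) (4 * b) (4 * s) (by ring) (by omega)
    have e2 := mod_of (d := d) (2 * (d * b + s)) (2 * b) (2 * s) (by ring) (by omega)
    have e1 := mod_of (d := d) (d * b + s) b s rfl (by omega)
    rw [fF, hgeom, hsq, lucas (by omega) hx (4 * (d * b + s)) (2 * (d * b + s)),
      lucas (by omega) hx (2 * (d * b + s)) (d * b + s), e4.1, e4.2, e2.1, e2.2, e1.1, e1.2, tt, hRR,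
      mul_zero, zero_add, pow_one]
    linear_combination (-(((4 * b).choose (2 * b) : K) * ((2 * b).choose b : K) ^ 2 * RR x n (d * b + s) *
      (1 - x)⁻¹ * (1 - x * x ^ (8 * s)))) * hgb
  rw [h1, sum_congr rfl hterm, ← mul_sum, cubic_sum hx hN h3 hN2, mul_zero]

/-- the sum vanishes at a primitive `d`-th root of unity when `d ≤ 3 (n mod d)` -/
theorem sum_zero (hd : 1 < d) (hx : IsPrimitiveRoot x d) (n : ℕ) (hr : d ≤ 3 * (n % d)) :
    ∑ k ∈ range (n + 1), fF x n k = 0 := by
  by_cases h : 2 ∣ d ∨ 3 ∣ d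
  · apply sum_eq_zero
    intro k hk
    rw [mem_range] at hk
    rcases Nat.lt_or_ge (4 * (k % d)) d with h1 | h1
    · rw [fF, RR_zero hd hx n k (by omega) hr h1 h, mul_zero]
    · have h2 := gbs_zero hd hx k h1
      rw [fF]
      linear_combination ((∑ i ∈ range (8 * k + 1), x ^ i) * x ^ (2 * k ^ 2) * RR x n k) * h2
  · obtain ⟨N, hN⟩ : ∃ N, d = 2 * N + 1 := ⟨d / 2, by omega⟩
    have h3 : N % 3 ≠ 1 := by omega
    have hN2 : 2 ≤ N := by omega
    have hnn := Nat.div_add_mod n d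
    have hn1 := Nat.mod_lt n (show d > 0 by omega)
    set B := n / d with hB
    set r := n % d with hr'
    have key : ∀ b, b ≤ B → ∑ k ∈ range (d * b), fF x n k = 0 := by
      intro b
      induction b with
      | zero =>
        intro _
        simp
      | succ b ih =>
        intro hb
        rw [mul_add, mul_one, sum_range_add, ih (by omega), zero_add]
        apply block_zero hx hN h3 hN2 b d n (by omega) le_rfl
        have : d * (b + 1) ≤ d * B := Nat.mul_le_mul_left _ hb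
        have e : d * (b + 1) = d * b + d := by ring
        omega
    rw [show n + 1 = d * B + (r + 1) by omega, sum_range_add, key B le_rfl, zero_add]
    exact block_zero hx hN h3 hN2 B (r + 1) n (by omega) (by omega) (by omega)

end field

end Pool.Agent.Q33.QPhi
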