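import Pool.Agent.Q33.QPhi.Delannoy

/-! Gaussian binomials: the factorization into cyclotomic polynomials and the `q`-Lucas theorem. -/

namespace Pool.Agent.Q33.QPhi

open Finset Polynomial

/-- `∏_{l<m} (X^(l+1) - 1)` as a product of cyclotomic polynomials -/
theorem prod_cyc {m M : ℕ} (h : m ≤ M) :
    ∏ l ∈ range m, (X ^ (l + 1) - 1 : ℚ[X]) = ∏ d ∈ Icc 1 M, cyclotomic d ℚ ^ (m / d) := by
  induction m with
  | zero => simp
  | succ m ih =>
    rw [prod_range_succ, ih (by omega)]
    have h1 : ∀ d ∈ Icc 1 M, cyclotomic d ℚ ^ ((m + 1) / d)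
        = cyclotomic d ℚ ^ (m / d) * (if d ∣ m + 1 then cyclotomic d ℚ else 1) := by
      intro d _
      rw [Nat.succ_div]
      split_ifs with hd
      · rw [pow_succ]
      · rw [add_zero, mul_one]
    rw [prod_congr rfl h1, prod_mul_distrib]
    congr 1
    rw [← prod_filter, ← prod_cyclotomic_eq_X_pow_sub_one (by omega)]
    apply prod_congr _ (fun _ _ => rfl)
    ext d
    rw [Nat.mem_divisors, mem_filter, mem_Icc]
    constructor
    · rintro ⟨h2, _⟩
      have := Nat.le_of_dvd (by omega) h2
      exact ⟨⟨Nat.pos_of_dvd_of_pos h2 (by omega), by omega⟩, h2⟩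
    · rintro ⟨_, h2⟩
      exact ⟨h2, by omega⟩

theorem poch_cyc {m M : ℕ} (h : m ≤ M) :
    poch (X : ℚ[X]) X m = (-1) ^ m * ∏ d ∈ Icc 1 M, cyclotomic d ℚ ^ (m / d) := by
  rw [← prod_cyc h, poch]
  have h1 : ∀ l ∈ range m, (1 - X * X ^ l : ℚ[X]) = (-1) * (X ^ (l + 1) - 1) := by
    intro l _
    ring
  rw [prod_congr rfl h1, prod_mul_distrib, prod_const, card_range]

/-- the factorization of the Gaussian binomial -/
theorem gb_cyc (a b : ℕ) : gb (X : ℚ[X]) (a + b) a
    = ∏ d ∈ (Icc 1 (a + b)).filter (fun d => d ≤ a % d + b % d), cyclotomic d ℚ := by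
  have h1 := gb_mul (X : ℚ[X]) (a + b) a b rfl
  rw [poch_cyc (show a ≤ a + b by omega), poch_cyc (show b ≤ a + b by omega), poch_cyc (le_refl (a + b))] at h1
  have h2 : ∀ d ∈ Icc 1 (a + b), cyclotomic d ℚ ^ ((a + b) / d)
      = (if d ≤ a % d + b % d then cyclotomic d ℚ else 1) * (cyclotomic d ℚ ^ (a / d) * cyclotomic d ℚ ^ (b / d)) := by
    intro d hd
    rw [mem_Icc] at hd
    rw [Nat.add_div (by omega)]
    split_ifs
    · ring
    · ring
  rw [prod_congr rfl h2, prod_mul_distrib, prod_mul_distrib, ← prod_filter] at h1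
  have hne : ∀ j, ∏ d ∈ Icc 1 (a + b), cyclotomic d ℚ ^ (j / d) ≠ 0 := by
    intro j
    rw [prod_ne_zero_iff]
    intro d _
    exact pow_ne_zero _ (cyclotomic_ne_zero d ℚ)
  have hs : ((-1 : ℚ[X]) ^ a * (-1) ^ b) ≠ 0 := mul_ne_zero (pow_ne_zero _ (by norm_num)) (pow_ne_zero _ (by norm_num))
  apply mul_right_cancel₀ (mul_ne_zero hs (mul_ne_zero (hne a) (hne b)))
  rw [pow_add] at h1
  linear_combination h1

/-- the divisibility criterion -/
theorem gb_dvd (a b : ℕ) (F : ℤ[X]) (h : ∀ d, 2 ≤ d → d ≤ a % d + b % d → cyclotomic d ℤ ∣ F) :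
    gb (X : ℤ[X]) (a + b) a ∣ F := by
  have hmap : (gb (X : ℤ[X]) (a + b) a).map (Int.castRingHom ℚ) = gb (X : ℚ[X]) (a + b) a := by
    have h1 := map_gb (mapRingHom (Int.castRingHom ℚ)) (X : ℤ[X]) (a + b) a
    rwa [coe_mapRingHom, map_X] at h1
  have hmon : (gb (X : ℤ[X]) (a + b) a) = ∏ d ∈ (Icc 1 (a + b)).filter (fun d => d ≤ a % d + b % d), cyclotomic d ℤ := by
    apply Polynomial.map_injective (Int.castRingHom ℚ) Int.cast_injective
    rw [hmap, gb_cyc, Polynomial.map_prod]
    exact prod_congr rfl fun d _ => (map_cyclotomic d _).symm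
  have hm : (gb (X : ℤ[X]) (a + b) a).Monic := by
    rw [hmon]
    exact monic_prod_of_monic _ _ fun d _ => cyclotomic.monic d ℤ
  rw [← Polynomial.map_dvd_map (Int.castRingHom ℚ) Int.cast_injective hm, hmap, gb_cyc]
  apply Finset.prod_dvd_of_coprime
  · intro i _ j _ hij
    exact cyclotomic.isCoprime_rat hij
  · intro d hd
    rw [mem_filter, mem_Icc] at hd
    have hd2 : 2 ≤ d := by
      by_contra h2
      have : d = 1 := by omega
      subst this
      omega
    have h3 := Polynomial.map_dvd (Int.castRingHom ℚ) (h d hd2 hd.2)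
    rwa [map_cyclotomic] at h3

/-! ### the `q`-Lucas theorem -/

section lucas

variable {K : Type*} [Field K]

theorem lucas {x : K} {d : ℕ} (hd : 1 < d) (hx : IsPrimitiveRoot x d) : ∀ m k : ℕ,
    gb x m k = ((m / d).choose (k / d) : K) * gb x (m % d) (k % d) := by
  have hu : ∀ j, ¬ d ∣ j → IsUnit (1 - x ^ j) := by
    intro j hj
    rw [isUnit_iff_ne_zero, sub_ne_zero]
    intro h
    exact hj (hx.dvd_of_pow_eq_one j h.symm)
  have hmod : ∀ j, x ^ j = x ^ (j % d) := by
    intro j
    conv_lhs => rw [← Nat.mod_add_div j d, pow_add, pow_mul, hx.pow_eq_one, one_pow, mul_one]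
  intro m
  induction m with
  | zero =>
    intro k
    rcases k with _ | k
    · simp [gb_zero_right]
    · rw [gb_of_lt x 0 (k + 1) (by omega), Nat.zero_div, Nat.zero_mod]
      rcases Nat.eq_zero_or_pos ((k + 1) % d) with h | h
      · have h1 : 1 ≤ (k + 1) / d := by
          have h2 := Nat.div_add_mod (k + 1) d
          rcases Nat.eq_zero_or_pos ((k + 1) / d) with h4 | h4
          · rw [h4, h] at h2
            omega
          · exact h4
        rw [Nat.choose_eq_zero_of_lt (show 0 < (k + 1) / d from h1)]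
        simp
      · rw [gb_of_lt x 0 _ h, mul_zero]
  | succ m ih =>
    intro k
    rcases k with _ | k
    · simp [gb_zero_right]
    · rw [gb_succ, ih k, ih (k + 1)]
      have hmm := Nat.div_add_mod m d
      have hkk := Nat.div_add_mod k d
      have hm1 := Nat.mod_lt m (show d > 0 by omega)
      have hk1 := Nat.mod_lt k (show d > 0 by omega)
      set a := m / d with ha
      set r := m % d with hr
      set b := k / d with hb
      set s := k % d with hs
      have key : ∀ t : ℕ, ∀ u v : ℕ, t = d * u + v → v < d → t / d = u ∧ t % d = v := by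
        intro t u v h1 h2
        subst h1
        constructor
        · rw [Nat.mul_add_div (by omega), Nat.div_eq_of_lt h2, add_zero]
        · rw [Nat.mul_add_mod, Nat.mod_eq_of_lt h2]
      rcases Nat.lt_or_ge (r + 1) d with hr1 | hr1
      · obtain ⟨e1, e2⟩ := key (m + 1) a (r + 1) (by omega) hr1
        rcases Nat.lt_or_ge (s + 1) d with hs1 | hs1
        · obtain ⟨e3, e4⟩ := key (k + 1) b (s + 1) (by omega) hs1
          rw [e1, e2, e3, e4, hmod (k + 1), e4, gb_succ]
          ring
        · have hs2 : s = d - 1 := by omega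
          obtain ⟨e3, e4⟩ := key (k + 1) (b + 1) 0 (by rw [mul_add, mul_one]; omega) (by omega)
          rw [e1, e2, e3, e4, hmod (k + 1), e4, gb_of_lt x r s (by omega), gb_zero_right, gb_zero_right]
          ring
      · have hr2 : r = d - 1 := by omega
        obtain ⟨e1, e2⟩ := key (m + 1) (a + 1) 0 (by rw [mul_add, mul_one]; omega) (by omega)
        rcases Nat.lt_or_ge (s + 1) d with hs1 | hs1
        · obtain ⟨e3, e4⟩ := key (k + 1) b (s + 1) (by omega) hs1
          have h0 : gb x r s + x ^ (s + 1) * gb x r (s + 1) = 0 := by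
            rw [← gb_succ, show r + 1 = d by omega]
            exact gb_mid x d hx.pow_eq_one hu (s + 1) (by omega) hs1
          rw [e1, e2, e3, e4, hmod (k + 1), e4, gb_of_lt x 0 (s + 1) (by omega)]
          linear_combination ((a.choose b : ℕ) : K) * h0
        · have hs2 : s = d - 1 := by omega
          obtain ⟨e3, e4⟩ := key (k + 1) (b + 1) 0 (by rw [mul_add, mul_one]; omega) (by omega)
          have h1 : gb x r s = 1 := by
            rw [hr2, hs2]
            have h2 := gb_mul x (d - 1) (d - 1) 0 (by omega)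
            have h3 := poch_unit x d hu (d - 1) (by omega)
            have h4 : poch x x 0 = 1 := by simp [poch]
            rw [h4, mul_one] at h2
            have h5 : (gb x (d - 1) (d - 1) - 1) * poch x x (d - 1) = 0 := by linear_combination h2
            exact sub_eq_zero.1 (h3.mul_left_eq_zero.1 h5)
          rw [e1, e2, e3, e4, hmod (k + 1), e4, h1, gb_zero_right, gb_zero_right, Nat.choose_succ_succ]
          push_cast
          ring

end lucas

end Pool.Agent.Q33.QPhi
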