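import Pool.Agent.Q33.QPhi.Period

/-! The one-period sum `∑ q^(-k/2) (1-q^(4k+1)) ((q;q^2)_k/(q^2;q^2)_k)^3` modulo `Φ_n^2`, `n ≡ 1 (mod 4)`,
in the variable `x = q^(1/2)`, and the symmetry `k ↦ N - k`. -/

namespace Pool.Agent.Q33.QPhi

open Finset Polynomial

section localring

variable (n : ℕ) [hn : NeZero n]

theorem period_O1 (hn4 : n % 4 = 1) (hn1 : 1 < n) {N : ℕ} (hN : n = 2 * N + 1) (qi : O n) (hqi : qO n * qi = 1)
    (iv : ℕ → O n) (hiv : ∀ k, k ≤ N → iv k * (poch (qO n ^ 4) (qO n ^ 4) k *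
      (poch (qO n ^ 4 * qi ^ (2 * n)) (qO n ^ 4) k * poch (qO n ^ 4 * qO n ^ (2 * n)) (qO n ^ 4) k)) = 1) :
    algebraMap ℚ[X] (O n) (cyclotomic n ℚ) ^ 2 ∣ ∑ k ∈ range (N + 1), qi ^ k * (1 - qO n ^ (8 * k + 2)) *
      (poch (qO n ^ 2) (qO n ^ 4) k * (poch (qO n ^ 2 * qO n ^ (2 * n)) (qO n ^ 4) k *
        poch (qO n ^ 2 * qi ^ (2 * n)) (qO n ^ 4) k)) * iv k := by
  set s := ∑ k ∈ range (N + 1), qi ^ k * (1 - qO n ^ (8 * k + 2)) *
      (poch (qO n ^ 2) (qO n ^ 4) k * (poch (qO n ^ 2 * qO n ^ (2 * n)) (qO n ^ 4) k *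
        poch (qO n ^ 2 * qi ^ (2 * n)) (qO n ^ 4) k)) * iv k with hs
  obtain ⟨x, hx⟩ : ∃ x : RatFunc ℚ, x = RatFunc.X := ⟨_, rfl⟩
  obtain ⟨xi, hxi⟩ : ∃ xi : RatFunc ℚ, xi = psi n qi := ⟨_, rfl⟩
  have hq : psi n (qO n) = x := by rw [psi_qO, hx]
  have hxx : x * xi = 1 := by
    rw [hxi, ← hq, ← map_mul, hqi, map_one]
  have hxne : x ≠ 0 := left_ne_zero_of_mul_eq_one hxx
  have hxn : ∀ j : ℕ, 1 ≤ j → x ^ j ≠ 1 := by
    intro j hj
    rw [hx]
    have := X_pow_ne_pow (i := j) (j := 0) (by omega)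
    rwa [pow_zero] at this
  have hpp : ∀ j : ℕ, x ^ j * xi ^ j = 1 := by
    intro j
    rw [← mul_pow, hxx, one_pow]
  -- the main identity in `ℚ(q)`
  have hmain := rogers (x ^ 2) (x ^ 2 * x ^ (2 * n)) (x ^ 3) (xi ^ 2 * xi ^ (2 * n)) (xi ^ 3) (x ^ 4) (xi ^ 4)
    (by
      have h1 := hpp 2
      have h2 := hpp (2 * n)
      linear_combination (x ^ (2 * n) * xi ^ (2 * n)) * h1 + h2) (hpp 3) (hpp 4)
    (fun j hj => by rw [← pow_mul]; exact hxn _ (by omega))
    (fun j hj h => by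
      have h1 := hpp 2
      have h2 := hpp (2 * n)
      have h3 : x ^ (4 * j) = x ^ (2 * n) := by
        rw [pow_mul]
        linear_combination x ^ (2 * n) * h - (x ^ (2 * n) * xi ^ (2 * n) * (x ^ 4) ^ j) * h1
          - ((x ^ 4) ^ j) * h2
      rw [hx] at h3
      exact X_pow_ne_pow (by omega) h3)
    (fun j hj h => by
      have h3 : x ^ (4 * j) = x ^ 1 := by
        rw [pow_mul, pow_one]
        linear_combination x * h - (x ^ 4) ^ j * hpp 3
      rw [hx] at h3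
      exact X_pow_ne_pow (by omega) h3)
    (fun j hj h => by
      have h3 : x ^ (4 * j + 2) = 1 := by
        rw [pow_add, pow_mul]
        linear_combination h
      exact hxn _ (by omega) h3) N
  have hab : x ^ 2 * (xi ^ 2 * xi ^ (2 * n)) = xi ^ (2 * n) := by
    linear_combination xi ^ (2 * n) * hpp 2
  have hac : x ^ 2 * xi ^ 3 = xi := by linear_combination xi * hpp 2
  have habc : xi ^ (2 * n) * xi ^ 3 = xi ^ (2 * n + 3) := by rw [← pow_add]
  have hac4 : xi * x ^ 4 = x ^ 3 := by linear_combination x ^ 3 * hxx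
  have hvN : (xi ^ 4) ^ N = x ^ 2 * xi ^ (2 * n) := by
    rw [← pow_mul, show 2 * n = 4 * N + 2 by omega, pow_add]
    linear_combination (-(xi ^ (4 * N))) * hpp 2
  have haQ : x ^ 2 * (x ^ 4) ^ (N + 1) = x ^ 4 * x ^ (2 * n) := by
    rw [← pow_mul, ← pow_add, ← pow_add]
    congr 1
    omega
  have htt : x ^ 2 * (x ^ 4) ^ (N + 1) * (xi ^ 2 * xi ^ (2 * n)) * xi ^ 3 = xi := by
    rw [haQ]
    have h2 := hpp (2 * n)
    have h3 := hpp 2
    linear_combination (x ^ 4 * xi ^ 5) * h2 + (x ^ 2 * xi ^ 3) * h3 + xi * h3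
  have hiv' : ∀ k, k ≤ N → psi n (iv k) = (poch (x ^ 4) (x ^ 4) k *
      (poch (x ^ 4 * xi ^ (2 * n)) (x ^ 4) k * poch (x ^ 4 * x ^ (2 * n)) (x ^ 4) k))⁻¹ := by
    intro k hk
    have h1 := congrArg (psi n) (hiv k hk)
    rw [map_mul, map_mul, map_mul, map_poch, map_poch, map_poch, map_mul, map_mul, map_pow, map_pow, map_pow,
      hq, ← hxi, map_one] at h1
    exact eq_inv_of_mul_eq_one_left h1
  have hsum : ∑ k ∈ range (N + 1), tau (x ^ 2) (x ^ 2 * x ^ (2 * n)) (x ^ 3) (xi ^ 2 * xi ^ (2 * n)) (xi ^ 3)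
      (x ^ 4) (xi ^ 4) N k = psi n s := by
    rw [hs, map_sum]
    refine sum_congr rfl fun k hk => ?_
    rw [mem_range] at hk
    have hk' : k ≤ N := by omega
    rw [map_mul, hiv' k hk']
    simp only [map_mul, map_pow, map_sub, map_one, map_poch, hq, ← hxi]
    unfold tau
    rw [htt, hab, hac, hac4, hvN, haQ]
    have h2 : poch (x ^ 3) (x ^ 4) k ≠ 0 := by
      unfold poch
      rw [prod_ne_zero_iff]
      intro l _ h
      apply hxn (4 * l + 3) (by omega)
      rw [pow_add, pow_mul]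
      linear_combination -h
    have h3 : (1 - x ^ 2 * ((x ^ 4) ^ k) ^ 2) = 1 - x ^ (8 * k + 2) := by
      rw [← pow_mul, ← pow_mul, ← pow_add]
      congr 2
      ring
    have h5 : poch (x ^ 2) (x ^ 4) k * poch (x ^ 2 * x ^ (2 * n)) (x ^ 4) k * poch (x ^ 3) (x ^ 4) k /
          (poch (x ^ 4) (x ^ 4) k * poch (xi ^ (2 * n) * x ^ 4) (x ^ 4) k * poch (x ^ 3) (x ^ 4) k)
        = poch (x ^ 2) (x ^ 4) k * poch (x ^ 2 * x ^ (2 * n)) (x ^ 4) k /
          (poch (x ^ 4) (x ^ 4) k * poch (xi ^ (2 * n) * x ^ 4) (x ^ 4) k) :=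
      mul_div_mul_right _ _ h2
    rw [h5, h3, mul_comm (xi ^ (2 * n)) (x ^ 4), mul_inv, mul_inv, div_eq_mul_inv, mul_inv]
    ring
  rw [hsum] at hmain
  have hK : psi n s * ∏ j ∈ range N, ((1 - xi ^ (2 * n) * x ^ (4 * (j + 1))) * (1 - xi * x ^ (4 * (j + 1))))
      = (1 - x ^ 2) * ∏ j ∈ range N, ((1 - x ^ 2 * x ^ (4 * (j + 1))) * (1 - xi ^ (2 * n + 3) * x ^ (4 * (j + 1)))) := by
    have e1 : ∏ j ∈ range N, ((1 - xi ^ (2 * n) * x ^ (4 * (j + 1))) * (1 - xi * x ^ (4 * (j + 1))))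
        = ∏ j ∈ range N, ((1 - x ^ 2 * (xi ^ 2 * xi ^ (2 * n)) * (x ^ 4) ^ (j + 1)) * (1 - x ^ 2 * xi ^ 3 * (x ^ 4) ^ (j + 1))) := by
      refine prod_congr rfl fun j _ => ?_
      rw [hab, hac, ← pow_mul]
    have e2 : ∏ j ∈ range N, ((1 - x ^ 2 * x ^ (4 * (j + 1))) * (1 - xi ^ (2 * n + 3) * x ^ (4 * (j + 1))))
        = ∏ j ∈ range N, ((1 - x ^ 2 * (x ^ 4) ^ (j + 1)) * (1 - x ^ 2 * (xi ^ 2 * xi ^ (2 * n)) * xi ^ 3 * (x ^ 4) ^ (j + 1))) := by
      refine prod_congr rfl fun j _ => ?_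
      rw [hab, habc, ← pow_mul]
    rw [e1, e2]
    exact hmain
  -- back to the local ring
  have hO : s * ∏ j ∈ range N, ((1 - qi ^ (2 * n) * qO n ^ (4 * (j + 1))) * (1 - qi * qO n ^ (4 * (j + 1))))
      = (1 - qO n ^ 2) * ∏ j ∈ range N, ((1 - qO n ^ 2 * qO n ^ (4 * (j + 1))) * (1 - qi ^ (2 * n + 3) * qO n ^ (4 * (j + 1)))) := by
    apply psi_injective n
    rw [map_mul, map_mul, map_prod, map_prod, map_sub, map_one, map_pow, hq]
    refine Eq.trans ?_ (hK.trans ?_)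
    · congr 1
      refine prod_congr rfl fun j _ => ?_
      rw [map_mul, map_sub, map_sub, map_one, map_mul, map_mul, map_pow, map_pow, hq, ← hxi]
    · congr 1
      refine prod_congr rfl fun j _ => ?_
      rw [map_mul, map_sub, map_sub, map_one, map_mul, map_mul, map_pow, map_pow, map_pow, hq, ← hxi]
  have hpq : ∀ j : ℕ, qO n ^ j * qi ^ j = 1 := by
    intro j
    rw [← mul_pow, hqi, one_pow]
  have hunit : IsUnit (∏ j ∈ range N, ((1 - qi ^ (2 * n) * qO n ^ (4 * (j + 1))) * (1 - qi * qO n ^ (4 * (j + 1))))) := by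
    apply Finset.prod_induction _ IsUnit (fun _ _ => IsUnit.mul) isUnit_one
    intro j hj
    rw [mem_range] at hj
    apply IsUnit.mul
    · have h1 : qi ^ (2 * n) * qO n ^ (4 * (j + 1)) * qO n ^ (2 * n - 4 * (j + 1)) = 1 := by
        rw [mul_assoc, ← pow_add, show 4 * (j + 1) + (2 * n - 4 * (j + 1)) = 2 * n by omega, mul_comm]
        exact hpq _
      have h2 : 1 - qi ^ (2 * n) * qO n ^ (4 * (j + 1))
          = -(qi ^ (2 * n) * qO n ^ (4 * (j + 1))) * (1 - qO n ^ (2 * n - 4 * (j + 1))) := by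
        linear_combination -h1
      rw [h2]
      refine (IsUnit.of_mul_eq_one _ h1).neg.mul (unit_sub n _ ?_)
      intro h3
      have h4 : n ∣ 4 * (j + 1) := by
        have h5 : 4 * (j + 1) = 2 * n - (2 * n - 4 * (j + 1)) := by omega
        rw [h5]
        exact Nat.dvd_sub (dvd_mul_left n 2) h3
      have h6 : n.Coprime 4 := by
        have h7 : n.Coprime 2 := by
          rw [hN]
          simp
        exact Nat.Coprime.mul_right h7 h7
      have := Nat.le_of_dvd (by omega) (h6.dvd_of_dvd_mul_left h4)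
      omega
    · have e1 : qi * qO n ^ (4 * (j + 1)) = qO n ^ (4 * j + 3) := by
        rw [show 4 * (j + 1) = (4 * j + 3) + 1 by ring, pow_succ]
        linear_combination qO n ^ (4 * j + 3) * hqi
      rw [e1]
      apply unit_sub
      intro h3
      obtain ⟨m, hm⟩ := h3
      have h5 : m < 2 := by
        by_contra h6
        have : n * 2 ≤ n * m := Nat.mul_le_mul_left _ (by omega)
        omega
      interval_cases m
      · omega
      · omega
  have hcyc : algebraMap ℚ[X] (O n) (cyclotomic n ℚ) ∣ 1 - qO n ^ n := by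
    have h2 := map_dvd (algebraMap ℚ[X] (O n)) (cyclotomic.dvd_X_pow_sub_one n ℚ)
    rw [map_sub, map_pow, map_one] at h2
    rw [← dvd_neg, neg_sub]
    exact h2
  have hdvd : algebraMap ℚ[X] (O n) (cyclotomic n ℚ) ^ 2 ∣
      (1 - qO n ^ 2) * ∏ j ∈ range N, ((1 - qO n ^ 2 * qO n ^ (4 * (j + 1))) * (1 - qi ^ (2 * n + 3) * qO n ^ (4 * (j + 1)))) := by
    apply Dvd.dvd.mul_left
    rw [prod_mul_distrib, sq]
    apply mul_dvd_mul
    · refine dvd_trans ?_ (dvd_prod_of_mem _ (mem_range.2 (show N - 1 < N by omega)))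
      have e : qO n ^ 2 * qO n ^ (4 * (N - 1 + 1)) = qO n ^ n * qO n ^ n := by
        rw [← pow_add, ← pow_add]
        congr 1
        omega
      rw [e]
      have e2 : 1 - qO n ^ n * qO n ^ n = (1 - qO n ^ n) * (1 + qO n ^ n) := by ring
      rw [e2]
      exact hcyc.mul_right _
    · refine dvd_trans ?_ (dvd_prod_of_mem _ (mem_range.2 (show (n - 1) / 4 < N by omega)))
      have e : qi ^ (2 * n + 3) * qO n ^ (4 * ((n - 1) / 4 + 1)) = qi ^ n := by
        rw [show 4 * ((n - 1) / 4 + 1) = n + 3 by omega, show 2 * n + 3 = n + (n + 3) by ring, pow_add]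
        linear_combination qi ^ n * hpq (n + 3)
      rw [e]
      have e2 : 1 - qi ^ n = -qi ^ n * (1 - qO n ^ n) := by
        linear_combination -hpq n
      rw [e2]
      exact hcyc.mul_left _
  rw [← hO] at hdvd
  exact (hunit.dvd_mul_right).1 hdvd

end localring

section generic

variable {R : Type*} [CommRing R]

/-- from the perturbed sum to the sum of cubes -/
theorem half_of (D : Data R) {A : ℕ → R} (hA : D.IsA 2 A) (h0 : A 0 = 1) (qi : R) (hqi : D.q * qi = 1)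
    (iv : ℕ → R) (hiv : ∀ k, k ≤ D.N → iv k * (poch (D.q ^ 4) (D.q ^ 4) k *
      (poch (D.q ^ 4 * qi ^ (2 * D.n)) (D.q ^ 4) k * poch (D.q ^ 4 * D.q ^ (2 * D.n)) (D.q ^ 4) k)) = 1)
    (hs : ∑ k ∈ range (D.N + 1), qi ^ k * (1 - D.q ^ (8 * k + 2)) *
      (poch (D.q ^ 2) (D.q ^ 4) k * (poch (D.q ^ 2 * D.q ^ (2 * D.n)) (D.q ^ 4) k *
        poch (D.q ^ 2 * qi ^ (2 * D.n)) (D.q ^ 4) k)) * iv k = 0) :
    ∑ k ∈ range (D.N + 1), qi ^ k * (1 - D.q ^ (8 * k + 2)) * A k ^ 3 = 0 := by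
  rw [← hs]
  refine sum_congr rfl fun k hk => ?_
  rw [mem_range] at hk
  have hu : D.q ^ (2 * D.n) = 1 + 2 * D.e := by
    rw [mul_comm, pow_mul, D.hq]
    linear_combination D.he
  have hui : qi ^ (2 * D.n) = 1 - 2 * D.e := by
    have h1 : D.q ^ (2 * D.n) * qi ^ (2 * D.n) = 1 := by rw [← mul_pow, hqi, one_pow]
    rw [hu] at h1
    linear_combination (1 - 2 * D.e) * h1 + 4 * qi ^ (2 * D.n) * D.he
  have hprod : ∀ w, poch (w * D.q ^ (2 * D.n)) (D.q ^ 4) k * poch (w * qi ^ (2 * D.n)) (D.q ^ 4) k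
      = poch w (D.q ^ 4) k ^ 2 := by
    intro w
    rw [hu, hui]
    unfold poch
    rw [← prod_mul_distrib, ← prod_pow]
    refine prod_congr rfl fun l _ => ?_
    linear_combination (-4 * (w * (D.q ^ 4) ^ l) ^ 2) * D.he
  have hApoch : ∀ k, A k * poch (D.q ^ 4) (D.q ^ 4) k = poch (D.q ^ 2) (D.q ^ 4) k := by
    intro k
    induction k with
    | zero => simp [poch, h0]
    | succ k ih =>
      have h1 := hA k
      rw [show 2 * 2 * (k + 1) = 4 + 4 * k by ring, show 2 * (2 * k + 1) = 2 + 4 * k by ring, pow_add,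
        pow_add, pow_mul] at h1
      rw [poch_succ, poch_succ]
      linear_combination poch (D.q ^ 4) (D.q ^ 4) k * h1 + (1 - D.q ^ 2 * (D.q ^ 4) ^ k) * ih
  have h1 := hiv k (by omega)
  rw [mul_comm (poch (D.q ^ 4 * qi ^ (2 * D.n)) (D.q ^ 4) k), hprod] at h1
  rw [hprod, ← hApoch k]
  linear_combination (-(qi ^ k * (1 - D.q ^ (8 * k + 2)) * A k ^ 3)) * h1

theorem half_map {T : Type*} [CommRing T] (f : R →+* T) (D : Data T) (q qi : R)
    (hq : D.q = f q) {A : ℕ → T} (hA : D.IsA 2 A) (h0 : A 0 = 1) (hqi : q * qi = 1)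
    (iv : ℕ → R) (hiv : ∀ k, k ≤ D.N → iv k * (poch (q ^ 4) (q ^ 4) k *
      (poch (q ^ 4 * qi ^ (2 * D.n)) (q ^ 4) k * poch (q ^ 4 * q ^ (2 * D.n)) (q ^ 4) k)) = 1)
    (hs : f (∑ k ∈ range (D.N + 1), qi ^ k * (1 - q ^ (8 * k + 2)) *
      (poch (q ^ 2) (q ^ 4) k * (poch (q ^ 2 * q ^ (2 * D.n)) (q ^ 4) k *
        poch (q ^ 2 * qi ^ (2 * D.n)) (q ^ 4) k)) * iv k) = 0) :
    ∑ k ∈ range (D.N + 1), f qi ^ k * (1 - D.q ^ (8 * k + 2)) * A k ^ 3 = 0 := by
  apply half_of D hA h0 (f qi) (by rw [hq, ← map_mul, hqi, map_one]) (fun k => f (iv k))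
  · intro k hk
    have h := congrArg f (hiv k hk)
    simp only [map_mul, map_poch, map_pow, map_one] at h
    rw [hq]
    exact h
  · rw [← hs, map_sum, hq]
    refine sum_congr rfl fun k _ => ?_
    simp only [map_mul, map_poch, map_pow, map_one, map_sub]

/-! ### the symmetry modulo `Φ_n` -/

section symm

variable (x xi : R) (hxi : x * xi = 1) (n N : ℕ) (hn : n = 2 * N + 1) (hx : x ^ n = 1)
  (hu : ∀ j, ¬ n ∣ j → IsUnit (1 - x ^ j)) (A : ℕ → R) (hA0 : A 0 = 1)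
  (hA : ∀ k, A (k + 1) * (1 - x ^ (4 * (k + 1))) = A k * (1 - x ^ (2 * (2 * k + 1))))

include hn hu in
theorem unit4 (j : ℕ) (h1 : 1 ≤ j) (h2 : j ≤ N) : IsUnit (1 - x ^ (4 * j)) := by
  apply hu
  intro h3
  have h4 : n.Coprime 4 := by
    have h7 : n.Coprime 2 := by
      rw [hn]
      simp
    exact Nat.Coprime.mul_right h7 h7
  have := Nat.le_of_dvd (by omega) (h4.dvd_of_dvd_mul_left h3)
  omega

include hx in
theorem pow_two_n {a b : ℕ} (h : a + b = 2 * n) : x ^ a * x ^ b = 1 := by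
  rw [← pow_add, h, mul_comm, pow_mul, hx, one_pow]

include hn hx hu hA hA0 in
theorem symm_rec : ∀ k, k ≤ N → A (N - k) = A N * x ^ (2 * k) * A k := by
  intro k
  induction k with
  | zero =>
    intro _
    rw [Nat.sub_zero, hA0]
    simp
  | succ k ih =>
    intro hk
    have ih' := ih (by omega)
    have h1 := hA (N - (k + 1))
    rw [show N - (k + 1) + 1 = N - k by omega] at h1
    have h2 := hA k
    have e1 : x ^ (4 * (N - k)) * x ^ (2 * (2 * k + 1)) = 1 := pow_two_n x n hx (by omega)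
    have e2 : x ^ (2 * (2 * (N - (k + 1)) + 1)) * x ^ (4 * (k + 1)) = 1 := pow_two_n x n hx (by omega)
    have e3 : x ^ (4 * (k + 1)) = x ^ (2 * (2 * k + 1)) * x ^ 2 := by
      rw [← pow_add]
      congr 1
      ring
    have hU := unit4 x n N hn hu (k + 1) (by omega) hk
    have h3 : (A (N - (k + 1)) - A N * x ^ (2 * (k + 1)) * A (k + 1)) * (1 - x ^ (4 * (k + 1))) = 0 := by
      rw [ih'] at h1
      have e4 : x ^ (2 * (k + 1)) = x ^ (2 * k) * x ^ 2 := by
        rw [← pow_add]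
        congr 1
      rw [e4]
      generalize x ^ (2 * (2 * (N - (k + 1)) + 1)) = be at *
      generalize x ^ (4 * (N - k)) = al at *
      rw [e3] at h2 e2 hU ⊢
      generalize x ^ (2 * (2 * k + 1)) = a at *
      generalize x ^ (2 * k) = c at *
      linear_combination (a * x ^ 2) * h1 + (A N * c * A k * x ^ 2) * e1 - A (N - (k + 1)) * e2
        - A N * c * x ^ 2 * h2
    exact sub_eq_zero.1 (hU.mul_left_eq_zero.1 h3)

include hn hx hu hA hA0 in
theorem symm_N (hev : Even N) : A N * x ^ N = 1 := by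
  have hApoch : ∀ k, A k * ∏ i ∈ range k, (1 - x ^ (4 * (i + 1))) = ∏ i ∈ range k, (1 - x ^ (2 * (2 * i + 1))) := by
    intro k
    induction k with
    | zero => simp [hA0]
    | succ k ih =>
      rw [prod_range_succ, prod_range_succ]
      linear_combination (∏ i ∈ range k, (1 - x ^ (4 * (i + 1)))) * hA k + (1 - x ^ (2 * (2 * k + 1))) * ih
  have hP : ∀ m, ∏ i ∈ range m, x ^ (4 * (i + 1)) = x ^ (2 * (m * (m + 1))) := by
    intro m
    induction m with
    | zero => simp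
    | succ m ih =>
      rw [prod_range_succ, ih, ← pow_add]
      congr 1
      ring
  have hPN : ∏ i ∈ range N, x ^ (4 * (i + 1)) = x ^ N := by
    rw [hP, show 2 * (N * (N + 1)) = n * N + N by rw [hn]; ring, pow_add, pow_mul, hx, one_pow, one_mul]
  have h1 : (∏ i ∈ range N, x ^ (4 * (i + 1))) * ∏ i ∈ range N, (1 - x ^ (2 * (2 * i + 1)))
      = (-1) ^ N * ∏ i ∈ range N, (1 - x ^ (4 * (i + 1))) := by
    rw [← prod_range_reflect (fun i => 1 - x ^ (2 * (2 * i + 1))) N, ← prod_mul_distrib]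
    have e : ∀ i ∈ range N, x ^ (4 * (i + 1)) * (1 - x ^ (2 * (2 * (N - 1 - i) + 1)))
        = (-1) * (1 - x ^ (4 * (i + 1))) := by
      intro i hi
      rw [mem_range] at hi
      have e1 : x ^ (4 * (i + 1)) * x ^ (2 * (2 * (N - 1 - i) + 1)) = 1 := pow_two_n x n hx (by omega)
      linear_combination -e1
    rw [prod_congr rfl e, prod_mul_distrib, prod_const, card_range]
  rw [hPN, ← hApoch, hev.neg_one_pow, one_mul] at h1
  have hU : IsUnit (∏ i ∈ range N, (1 - x ^ (4 * (i + 1)))) := by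
    apply Finset.prod_induction _ IsUnit (fun _ _ => IsUnit.mul) isUnit_one
    intro j hj
    rw [mem_range] at hj
    exact unit4 x n N hn hu (j + 1) (by omega) (by omega)
  have h2 : (A N * x ^ N - 1) * ∏ i ∈ range N, (1 - x ^ (4 * (i + 1))) = 0 := by
    linear_combination h1
  exact sub_eq_zero.1 (hU.mul_left_eq_zero.1 h2)

include hn hx hu hA hA0 hxi in
theorem anti (hev : Even N) (h2 : IsUnit (2 : R)) :
    ∑ k ∈ range (N + 1), ((k * (N - k) : ℕ) : R) * (xi ^ k * (1 - x ^ (8 * k + 2)) * A k ^ 3) = 0 := by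
  have hpp : ∀ j : ℕ, x ^ j * xi ^ j = 1 := by
    intro j
    rw [← mul_pow, hxi, one_pow]
  have hAN : A N = xi ^ N := by
    have h1 := symm_N x n N hn hx hu A hA0 hA hev
    linear_combination xi ^ N * h1 - A N * hpp N
  have hxin : xi ^ n = 1 := by
    have h1 := hpp n
    rwa [hx, one_mul] at h1
  have hc : ∀ k ∈ range (N + 1), (((N + 1 - 1 - k) * (N - (N + 1 - 1 - k)) : ℕ) : R) *
      (xi ^ (N + 1 - 1 - k) * (1 - x ^ (8 * (N + 1 - 1 - k) + 2)) * A (N + 1 - 1 - k) ^ 3)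
      = -(((k * (N - k) : ℕ) : R) * (xi ^ k * (1 - x ^ (8 * k + 2)) * A k ^ 3)) := by
    intro k hk
    rw [mem_range] at hk
    rw [show N + 1 - 1 - k = N - k by omega, show N - (N - k) = k by omega, mul_comm (N - k) k,
      symm_rec x n N hn hx hu A hA0 hA k (by omega), hAN]
    have e1 : xi ^ (N - k) = xi ^ N * x ^ k := by
      have : xi ^ N = xi ^ (N - k) * xi ^ k := by
        rw [← pow_add]
        congr 1
        omega
      rw [this]
      linear_combination (-xi ^ (N - k)) * hpp k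
    have e2 : x ^ (8 * (N - k) + 2) = xi ^ (8 * k + 2) := by
      have h3 : x ^ (8 * (N - k) + 2) * x ^ (8 * k + 2) = 1 := by
        rw [← pow_add, show 8 * (N - k) + 2 + (8 * k + 2) = n * 4 by omega, pow_mul, hx, one_pow]
      linear_combination xi ^ (8 * k + 2) * h3 - x ^ (8 * (N - k) + 2) * hpp (8 * k + 2)
    have e4 : (xi ^ N) ^ 4 = x ^ 2 := by
      have h3 : (xi ^ N) ^ 4 * xi ^ 2 = 1 := by
        rw [← pow_mul, ← pow_add, show N * 4 + 2 = n * 2 by omega, pow_mul, hxin, one_pow]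
      linear_combination x ^ 2 * h3 - (xi ^ N) ^ 4 * hpp 2
    have e5 : x ^ (8 * k + 2) = (x ^ k) ^ 8 * x ^ 2 := by
      rw [← pow_mul, ← pow_add]
      congr 1
      ring
    have e6 : xi ^ (8 * k + 2) = (xi ^ k) ^ 8 * xi ^ 2 := by
      rw [← pow_mul, ← pow_add]
      congr 1
      ring
    have e7 : x ^ (2 * k) = (x ^ k) ^ 2 := by
      rw [← pow_mul]
      congr 1
      ring
    rw [e1, e2, e5, e6, e7]
    have e8 := hpp k
    have e9 := hpp 2
    have e10 : (x ^ k) ^ 7 * (xi ^ k) ^ 7 = 1 := by rw [← mul_pow, e8, one_pow]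
    generalize x ^ k = a at *
    generalize xi ^ k = b at *
    generalize xi ^ N = w at *
    generalize ((k * (N - k) : ℕ) : R) = t at *
    linear_combination (t * a ^ 7 * (1 - b ^ 8 * xi ^ 2) * A k ^ 3) * e4
      - (t * A k ^ 3 * a ^ 7 * x ^ 2) * e8 - (t * A k ^ 3 * b * x ^ 2 * xi ^ 2) * e10 - (t * A k ^ 3 * b) * e9
  have h3 := sum_range_reflect (fun k => ((k * (N - k) : ℕ) : R) * (xi ^ k * (1 - x ^ (8 * k + 2)) * A k ^ 3)) (N + 1)
  rw [sum_congr rfl hc, sum_neg_distrib] at h3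
  apply h2.mul_right_eq_zero.1
  linear_combination -h3

end symm

end generic

end Pool.Agent.Q33.QPhi
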