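import Pool.Agent.Q33.QPhi.Loc

/-! The sum of the little `q`-Legendre type over one period. -/

namespace Pool.Agent.Q33.QPhi

open Finset Polynomial

variable {B : Type*} [CommRing B]

theorem poch_two (w Q : B) (k : ℕ) :
    poch w Q k * ((1 - w * Q ^ k) * (1 - w * Q ^ (k + 1)))
      = (1 - w) * (1 - w * Q) * poch (w * Q ^ 2) Q k := by
  have h1 := poch_succ w Q (k + 1)
  have h2 : poch w Q (k + 1 + 1) = (1 - w) * (1 - w * Q) * poch (w * Q ^ 2) Q k := by
    unfold poch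
    rw [prod_range_succ', prod_range_succ']
    have e : ∀ l ∈ range k, (1 - w * Q ^ (l + 1 + 1)) = 1 - w * Q ^ 2 * Q ^ l := by
      intro l _
      ring
    rw [prod_congr rfl e]
    ring
  rw [← h2, h1, poch_succ]
  ring

/-- the terms `(Q^(-M);Q)_k (Q^(M+1);Q)_k /(Q;Q)_k^2 b_k Q^k` -/
def FL (Q v : B) (h b : ℕ → B) (M k : ℕ) : B :=
  poch (v ^ M) Q k * poch (Q ^ (M + 1)) Q k * h k ^ 2 * b k * Q ^ k

theorem FL_zero {Q v : B} (hv : Q * v = 1) (h b : ℕ → B) {M k : ℕ} (hk : M < k) : FL Q v h b M k = 0 := by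
  have hvQ : v ^ M * Q ^ M = 1 := by
    rw [← mul_pow, mul_comm, hv, one_pow]
  rw [FL, poch_eq_zero hvQ hk]
  ring

theorem core_step (Q y z w P P' R R' h h' b b' : B) (hv2 : w * (Q ^ 2 * y) = 1)
    (ha : R * ((1 - Q * y * z) * (1 - Q * y * (Q * z))) = (1 - Q * y) * (1 - Q * y * Q) * R')
    (hb : P * ((1 - w * z) * (1 - w * (Q * z))) = (1 - w) * (1 - w * Q) * P')
    (hh : h' * (1 - Q * z) = h) (hbb : b' * (1 - (Q * z) ^ 2) = b * (1 - Q * z ^ 2)) :
    (1 - Q * y) * (1 - Q ^ 2 * y) *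
        ((1 - Q ^ 2 * y) ^ 2 * (P * R' * h ^ 2 * b * z) - Q * (1 - Q * y) ^ 2 * (P' * R * h ^ 2 * b * z))
      = (-(Q ^ 2 * y) * (1 - Q ^ 3 * y ^ 2) * (1 - Q * z) ^ 2 * (1 - (Q * z) ^ 2) *
          (P * (1 - w * z) * (R * (1 - Q * y * z)) * h' ^ 2 * b'))
        - (-(Q ^ 2 * y) * (1 - Q ^ 3 * y ^ 2) * (1 - z) ^ 2 * (1 - z ^ 2) * (P * R * h ^ 2 * b)) := by
  have hb' : P * ((Q ^ 2 * y * (1 - w * z)) * (Q * y * (1 - w * (Q * z))))
      = (Q ^ 2 * y * (1 - w)) * (Q * y * (1 - w * Q)) * P' := by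
    linear_combination Q ^ 2 * y * (Q * y) * hb
  have f1 : Q ^ 2 * y * (1 - w * z) = Q ^ 2 * y - z := by linear_combination -z * hv2
  have f2 : Q * y * (1 - w * (Q * z)) = Q * y - z := by linear_combination -z * hv2
  have f3 : Q ^ 2 * y * (1 - w) = Q ^ 2 * y - 1 := by linear_combination -hv2
  have f4 : Q * y * (1 - w * Q) = Q * y - 1 := by linear_combination -hv2
  rw [f1, f2, f3, f4] at hb'
  have f5 : -(Q ^ 2 * y) * (1 - Q ^ 3 * y ^ 2) * (1 - Q * z) ^ 2 * (1 - (Q * z) ^ 2) *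
          (P * (1 - w * z) * (R * (1 - Q * y * z)) * h' ^ 2 * b')
      = -(1 - Q ^ 3 * y ^ 2) * P * (Q ^ 2 * y * (1 - w * z)) * (R * (1 - Q * y * z)) * (h' * (1 - Q * z)) ^ 2
        * (b' * (1 - (Q * z) ^ 2)) := by ring
  rw [f5, f1, hh, hbb]
  linear_combination (-(1 - Q ^ 2 * y) ^ 2 * P * h ^ 2 * b * z) * ha
    + (Q * (1 - Q * y) ^ 2 * R * h ^ 2 * b * z) * hb'

theorem core_rec {Q v : B} (hv : Q * v = 1) {n M : ℕ} (hM : M + 3 < n) (h b : ℕ → B)
    (hstep : ∀ k, k + 1 < n → h (k + 1) * (1 - Q ^ (k + 1)) = h k)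
    (hb : ∀ k, k + 1 < n → b (k + 1) * (1 - (Q ^ (k + 1)) ^ 2) = b k * (1 - Q * (Q ^ k) ^ 2)) :
    (1 - Q ^ (M + 1)) * (1 - Q ^ (M + 2)) *
      ((1 - Q ^ (M + 2)) ^ 2 * ∑ k ∈ range (n - 1), FL Q v h b (M + 2) k
        - Q * (1 - Q ^ (M + 1)) ^ 2 * ∑ k ∈ range (n - 1), FL Q v h b M k) = 0 := by
  have hvQ : ∀ M, v ^ M * Q ^ M = 1 := by
    intro M
    rw [← mul_pow, mul_comm, hv, one_pow]
  set G : ℕ → B := fun k => -(Q ^ 2 * Q ^ M) * (1 - Q ^ 3 * (Q ^ M) ^ 2) * (1 - Q ^ k) ^ 2 * (1 - (Q ^ k) ^ 2) *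
    (poch (v ^ (M + 2)) Q k * poch (Q ^ (M + 1)) Q k * h k ^ 2 * b k) with hG
  have key : ∀ k ∈ range (n - 1), (1 - Q ^ (M + 1)) * (1 - Q ^ (M + 2)) *
      ((1 - Q ^ (M + 2)) ^ 2 * FL Q v h b (M + 2) k - Q * (1 - Q ^ (M + 1)) ^ 2 * FL Q v h b M k)
      = G (k + 1) - G k := by
    intro k hk
    rw [mem_range] at hk
    have h1 : Q ^ (M + 1) = Q * Q ^ M := by ring
    have h2 : Q ^ (M + 2) = Q ^ 2 * Q ^ M := by ring
    have h3 : Q ^ (k + 1) = Q * Q ^ k := by ring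
    have hv2 : v ^ (M + 2) * (Q ^ 2 * Q ^ M) = 1 := by rw [← h2, hvQ]
    have ha := poch_two (Q ^ (M + 1)) Q k
    have hb1 := poch_two (v ^ (M + 2)) Q k
    have e2 : v ^ (M + 2) * Q ^ 2 = v ^ M := by
      have : v ^ 2 * Q ^ 2 = 1 := hvQ 2
      linear_combination v ^ M * this
    rw [e2, h3] at hb1
    have e1 : Q ^ (M + 1) * Q ^ 2 = Q ^ (M + 2 + 1) := by ring
    rw [e1, h3, h1] at ha
    have hs := hstep k (by omega)
    have hbb := hb k (by omega)
    rw [h3] at hs hbb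
    have hc := core_step Q (Q ^ M) (Q ^ k) (v ^ (M + 2)) (poch (v ^ (M + 2)) Q k) (poch (v ^ M) Q k)
      (poch (Q * Q ^ M) Q k) (poch (Q ^ (M + 2 + 1)) Q k) (h k) (h (k + 1)) (b k) (b (k + 1)) hv2 ha hb1 hs hbb
    simp only [hG, FL]
    rw [h1, h2, h3, hc, poch_succ, poch_succ]
    try rw [h3]
    try ring
  have hsum := sum_congr rfl key
  rw [sum_range_sub, ← mul_sum, sum_sub_distrib, ← mul_sum, ← mul_sum] at hsum
  rw [hsum]
  have g0 : G 0 = 0 := by simp [hG]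
  have g1 : G (n - 1) = 0 := by
    simp only [hG]
    rw [poch_eq_zero (hvQ (M + 2)) (by omega)]
    ring
  rw [g0, g1, sub_zero]

namespace Data

variable (D : Data B)

theorem isUnit_q : IsUnit D.q := by
  have h1 : IsUnit (D.q ^ D.n) := by
    rw [D.hq]
    exact IsUnit.of_mul_eq_one (1 - D.e) (by linear_combination -D.he)
  have h := D.hn
  exact (isUnit_pow_iff (by omega)).1 h1

theorem legendre (hN : Odd D.N) {A₁ A₂ : ℕ → B} (hA1 : D.IsA 1 A₁) (hA2 : D.IsA 2 A₂)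
    (h10 : A₁ 0 = 1) (h20 : A₂ 0 = 1) :
    ∑ k ∈ range D.n, (D.q ^ k) ^ 2 * A₁ k ^ 2 * A₂ k = 0 := by
  have hn := D.hn
  have hN1 : 1 ≤ D.N := hN.pos
  have hodd : D.n.Coprime 2 := by
    rw [D.hn]
    simp
  obtain ⟨v, hv⟩ := (D.isUnit_q.pow 2).exists_right_inv
  obtain ⟨Q, hQ⟩ : ∃ Q, Q = D.q ^ 2 := ⟨_, rfl⟩
  rw [← hQ] at hv
  have huQ : ∀ j, 1 ≤ j → j < D.n → IsUnit (1 - Q ^ j) := by
    intro j h1 h2
    rw [hQ, ← pow_mul]
    apply D.hu
    intro h3
    have := Nat.le_of_dvd (by omega) (hodd.dvd_of_dvd_mul_left h3)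
    omega
  have hpu : ∀ k, k < D.n → IsUnit (poch Q Q k) := by
    intro k hk
    unfold poch
    apply Finset.prod_induction _ IsUnit (fun _ _ => IsUnit.mul) isUnit_one
    intro l hl
    rw [mem_range] at hl
    rw [← pow_succ']
    exact huQ _ (by omega) (by omega)
  obtain ⟨h, hh⟩ : ∃ h : ℕ → B, ∀ k, h k = Ring.inverse (poch Q Q k) := ⟨_, fun _ => rfl⟩
  have hh1 : ∀ k, k < D.n → h k * poch Q Q k = 1 := fun k hk => by
    rw [hh]
    exact Ring.inverse_mul_cancel _ (hpu k hk)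
  have hstep : ∀ k, k + 1 < D.n → h (k + 1) * (1 - Q ^ (k + 1)) = h k := by
    intro k hk
    have h1 := hh1 (k + 1) hk
    have h2 := hh1 k (by omega)
    rw [poch_succ] at h1
    have h3 : Q * Q ^ k = Q ^ (k + 1) := by ring
    rw [h3] at h1
    linear_combination h k * h1 - h (k + 1) * (1 - Q ^ (k + 1)) * h2
  have hh0 : h 0 = 1 := by
    rw [hh]
    simp [poch]
  have hBstep : ∀ k, k + 1 < D.n → A₂ (k + 1) * (1 - (Q ^ (k + 1)) ^ 2) = A₂ k * (1 - Q * (Q ^ k) ^ 2) := by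
    intro k _
    have h1 := hA2 k
    have e1 : (Q ^ (k + 1)) ^ 2 = D.q ^ (2 * 2 * (k + 1)) := by
      rw [hQ, ← pow_mul, ← pow_mul]
      congr 1
      ring
    have e2 : Q * (Q ^ k) ^ 2 = D.q ^ (2 * (2 * k + 1)) := by
      rw [hQ, ← pow_mul, ← pow_mul, ← pow_add]
      congr 1
      ring
    rw [e1, e2]
    exact h1
  -- the terminating sums vanish
  have hzero : ∀ i, 2 * i + 1 ≤ D.N → ∑ k ∈ range (D.n - 1), FL Q v h A₂ (2 * i + 1) k = 0 := by
    intro i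
    induction i with
    | zero =>
      intro _
      have h1 : ∑ k ∈ range (D.n - 1), FL Q v h A₂ (2 * 0 + 1) k = ∑ k ∈ range 2, FL Q v h A₂ (2 * 0 + 1) k := by
        symm
        apply sum_subset
        · intro x hx
          rw [mem_range] at hx ⊢
          omega
        · intro x _ hx
          rw [mem_range] at hx
          exact FL_zero hv h A₂ (by omega)
      rw [h1, sum_range_succ, sum_range_one]
      have h2 := hstep 0 (by omega)
      have h3 := hBstep 0 (by omega)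
      have hu1 := huQ 1 le_rfl (by omega)
      simp only [zero_add, pow_one, pow_zero, hh0, h20, one_pow, mul_one, one_mul] at h2 h3
      simp only [FL, poch, prod_range_zero, prod_range_one, pow_zero, mul_one, one_mul, hh0, h20, mul_zero,
        zero_add, pow_one, one_pow]
      apply (hu1.mul_right_eq_zero).1
      simp only [pow_one]
      -- (1-Q) + (1-v)(1-Q^2) h^2 A Q (1-Q) = 0
      linear_combination ((1 - v) * Q * (1 - Q) * h 1 ^ 2) * h3 + ((1 - v) * Q * (h 1 * (1 - Q) + 1)) * h2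
        + (-1) * hv
    | succ i ih =>
      intro hi
      have h1 := core_rec hv (n := D.n) (M := 2 * i + 1) (by omega) h A₂ hstep hBstep
      rw [ih (by omega), mul_zero, sub_zero] at h1
      have hu1 := huQ (2 * i + 1 + 1) (by omega) (by omega)
      have hu2 := huQ (2 * i + 1 + 2) (by omega) (by omega)
      have h2 := ((hu1.mul hu2).mul_right_eq_zero).1 h1
      exact ((hu2.pow 2).mul_right_eq_zero).1 h2
  obtain ⟨i, hi⟩ := hN
  have h1 := hzero i (by omega)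
  rw [← hi] at h1
  -- `A₁ k = (q;Q)_k h_k`
  have hA : ∀ k, k < D.n → A₁ k = poch D.q Q k * h k := by
    intro k
    induction k with
    | zero =>
      intro _
      rw [h10, hh0]
      simp [poch]
    | succ k ih =>
      intro hk
      have h2 := ih (by omega)
      have h3 := hA1 k
      have e1 : D.q ^ (2 * 1 * (k + 1)) = Q ^ (k + 1) := by
        rw [hQ, ← pow_mul]
      have e2 : D.q ^ (1 * (2 * k + 1)) = D.q * Q ^ k := by
        rw [hQ, ← pow_mul, one_mul, pow_succ]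
        ring
      rw [e1, e2] at h3
      have h4 := hstep k hk
      apply (huQ (k + 1) (by omega) hk).mul_left_injective
      simp only
      rw [h3, h2, poch_succ]
      linear_combination (-(poch D.q Q k * (1 - D.q * Q ^ k))) * h4
  have hv1 : v ^ D.N = D.q * (1 - D.e) := by
    have h2 : v ^ D.N * Q ^ D.N = 1 := by rw [← mul_pow, mul_comm, hv, one_pow]
    have h3 : Q ^ D.N * D.q = 1 + D.e := by
      rw [hQ, ← pow_mul, ← pow_succ, ← hn, D.hq]
    linear_combination (D.q * (1 - D.e)) * h2 - (v ^ D.N * (1 - D.e)) * h3 + v ^ D.N * D.he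
  have hQ1 : Q ^ (D.N + 1) = D.q * (1 + D.e) := by
    have h3 : Q ^ D.N * D.q = 1 + D.e := by
      rw [hQ, ← pow_mul, ← pow_succ, ← hn, D.hq]
    rw [pow_succ]
    have h4 : Q = D.q * D.q := by rw [hQ]; ring
    linear_combination Q ^ D.N * h4 + D.q * h3
  have hprod : ∀ k, poch (v ^ D.N) Q k * poch (Q ^ (D.N + 1)) Q k = poch D.q Q k ^ 2 := by
    intro k
    rw [hv1, hQ1]
    unfold poch
    rw [← prod_mul_distrib, ← prod_pow]
    refine prod_congr rfl fun l _ => ?_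
    linear_combination (-(D.q * Q ^ l) ^ 2) * D.he
  have h2 : ∑ k ∈ range D.n, (D.q ^ k) ^ 2 * A₁ k ^ 2 * A₂ k = ∑ k ∈ range D.n, FL Q v h A₂ D.N k := by
    refine sum_congr rfl fun k hk => ?_
    rw [mem_range] at hk
    rw [FL, hprod, hA k hk]
    have e3 : (D.q ^ k) ^ 2 = Q ^ k := by
      rw [hQ, ← pow_mul, ← pow_mul, mul_comm]
    rw [e3]
    ring
  rw [h2, show D.n = D.n - 1 + 1 by omega, sum_range_succ, h1, zero_add]
  exact FL_zero hv h A₂ (by omega)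

end Data

end Pool.Agent.Q33.QPhi
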