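import Pool.Agent.Q33.QPhi.Basic
import Pool.Agent.Q33.QPhi.Block

/-! The localization of `ℚ[q]` at `Φ_n`, the congruence notion for rational functions, and the
integrality of `(q^s;q^{2s})_k/(q^{2s};q^{2s})_k`. -/

namespace Pool.Agent.Q33.QPhi

open Finset Polynomial

theorem coprime_cyc {n e : ℕ} (hn : 0 < n) (he : ¬ n ∣ e) :
    IsCoprime (1 - X ^ e : ℚ[X]) (cyclotomic n ℚ) := by
  have hirr : Irreducible (cyclotomic n ℚ) := cyclotomic.irreducible_rat hn
  rw [isCoprime_comm, hirr.coprime_iff_not_dvd]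
  intro hdvd
  have hne : n ≠ 0 := by omega
  obtain ⟨z, hz⟩ : ∃ z : ℂ, IsPrimitiveRoot z n := ⟨_, Complex.isPrimitiveRoot_exp n hne⟩
  have h1 : IsRoot (cyclotomic n ℂ) z := hz.isRoot_cyclotomic hn
  have h2 : cyclotomic n ℂ ∣ (1 - X ^ e : ℂ[X]) := by
    have h3 := Polynomial.map_dvd (algebraMap ℚ ℂ) hdvd
    rw [map_cyclotomic] at h3
    simpa using h3
  have h3 : IsRoot (1 - X ^ e : ℂ[X]) z := h1.dvd h2
  rw [IsRoot.def, eval_sub, eval_one, eval_pow, eval_X, sub_eq_zero] at h3
  exact he (hz.dvd_of_pow_eq_one e h3.symm)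

theorem coprime_one_add {n : ℕ} (hn : 0 < n) (hodd : Odd n) (e : ℕ) :
    IsCoprime (1 + X ^ e : ℚ[X]) (cyclotomic n ℚ) := by
  have hirr : Irreducible (cyclotomic n ℚ) := cyclotomic.irreducible_rat hn
  rw [isCoprime_comm, hirr.coprime_iff_not_dvd]
  intro hdvd
  have hne : n ≠ 0 := by omega
  obtain ⟨z, hz⟩ : ∃ z : ℂ, IsPrimitiveRoot z n := ⟨_, Complex.isPrimitiveRoot_exp n hne⟩
  have h1 : IsRoot (cyclotomic n ℂ) z := hz.isRoot_cyclotomic hn
  have h2 : cyclotomic n ℂ ∣ (1 + X ^ e : ℂ[X]) := by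
    have h3 := Polynomial.map_dvd (algebraMap ℚ ℂ) hdvd
    rw [map_cyclotomic] at h3
    simpa using h3
  have h3 : IsRoot (1 + X ^ e : ℂ[X]) z := h1.dvd h2
  rw [IsRoot.def, eval_add, eval_one, eval_pow, eval_X] at h3
  have h4 : z ^ e = -1 := by linear_combination h3
  have h5 : (z ^ e) ^ n = 1 := by rw [← pow_mul, mul_comm, pow_mul, hz.pow_eq_one, one_pow]
  rw [h4, hodd.neg_one_pow] at h5
  norm_num at h5

/-- the inclusion `ℤ[q] → ℚ(q)` -/
noncomputable def incl : ℤ[X] →+* RatFunc ℚ :=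
  (algebraMap ℚ[X] (RatFunc ℚ)).comp (Polynomial.mapRingHom (Int.castRingHom ℚ))

/-- the prime ideal generated by `Φ_n` -/
noncomputable def P (n : ℕ) : Ideal ℚ[X] := Ideal.span {cyclotomic n ℚ}

instance (n : ℕ) [NeZero n] : (P n).IsPrime := by
  unfold P
  rw [Ideal.span_singleton_prime (cyclotomic_ne_zero n ℚ)]
  exact (cyclotomic.irreducible_rat (NeZero.pos n)).prime

variable (n : ℕ) [hn : NeZero n]

/-- the local ring -/
abbrev O := Localization.AtPrime (P n)

variable {n}

theorem mem_compl {f : ℚ[X]} : f ∈ (P n).primeCompl ↔ IsCoprime f (cyclotomic n ℚ) := by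
  rw [isCoprime_comm, (cyclotomic.irreducible_rat (NeZero.pos n)).coprime_iff_not_dvd,
    Ideal.mem_primeCompl_iff, P, Ideal.mem_span_singleton]

theorem unit_O {f : ℚ[X]} (h : IsCoprime f (cyclotomic n ℚ)) : IsUnit (algebraMap ℚ[X] (O n) f) :=
  IsLocalization.map_units (O n) (⟨f, mem_compl.2 h⟩ : (P n).primeCompl)

variable (n)

theorem unit_rat (y : (P n).primeCompl) : IsUnit (algebraMap ℚ[X] (RatFunc ℚ) y) := by
  rw [isUnit_iff_ne_zero, Ne, map_eq_zero_iff _ (RatFunc.algebraMap_injective ℚ)]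
  intro h
  exact y.2 (by rw [h]; exact zero_mem _)

/-- the inclusion of the local ring in `ℚ(q)` -/
noncomputable def psi : O n →+* RatFunc ℚ := IsLocalization.lift (unit_rat n)

theorem psi_algebraMap (f : ℚ[X]) : psi n (algebraMap ℚ[X] (O n) f) = algebraMap ℚ[X] (RatFunc ℚ) f :=
  IsLocalization.lift_eq _ f

theorem psi_injective : Function.Injective (psi n) := by
  rw [injective_iff_map_eq_zero]
  intro x hx
  obtain ⟨a, b, rfl⟩ := IsLocalization.exists_mk'_eq (P n).primeCompl x
  have h1 : psi n (IsLocalization.mk' (O n) a b) * psi n (algebraMap ℚ[X] (O n) b)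
      = psi n (algebraMap ℚ[X] (O n) a) := by
    rw [← map_mul, IsLocalization.mk'_spec]
  rw [hx, zero_mul, psi_algebraMap] at h1
  have h2 : a = 0 := by
    apply RatFunc.algebraMap_injective ℚ
    rw [← h1, map_zero]
  rw [h2, IsLocalization.mk'_zero]

/-- the conclusion for rational functions -/
theorem conclude {k : ℕ} (s : O n) (hs : algebraMap ℚ[X] (O n) (cyclotomic n ℚ) ^ k ∣ s) :
    IsCoprime (psi n s).denom (cyclotomic n ℚ) ∧
    ∀ A B : ℤ[X], B ≠ 0 → psi n s = incl A / incl B → cyclotomic n ℤ ^ k ∣ A := by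
  obtain ⟨t, rfl⟩ := hs
  obtain ⟨a, b, rfl⟩ := IsLocalization.exists_mk'_eq (P n).primeCompl t
  have hb : IsCoprime (b : ℚ[X]) (cyclotomic n ℚ) := mem_compl.1 b.2
  have hb0 : algebraMap ℚ[X] (RatFunc ℚ) b ≠ 0 := (unit_rat n b).ne_zero
  have h1 : psi n (algebraMap ℚ[X] (O n) (cyclotomic n ℚ) ^ k * IsLocalization.mk' (O n) a b)
      = algebraMap ℚ[X] (RatFunc ℚ) (cyclotomic n ℚ ^ k * a) / algebraMap ℚ[X] (RatFunc ℚ) b := by
    rw [eq_div_iff hb0, ← psi_algebraMap n b, ← map_mul, mul_assoc, IsLocalization.mk'_spec, ← map_pow,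
      ← map_mul, psi_algebraMap]
  rw [h1]
  constructor
  · have h2 := RatFunc.denom_div_dvd (cyclotomic n ℚ ^ k * a) (b : ℚ[X])
    exact hb.of_isCoprime_of_dvd_left h2
  · intro A B hB hAB
    have hinjZ : Function.Injective (Polynomial.map (Int.castRingHom ℚ)) :=
      Polynomial.map_injective _ Int.cast_injective
    have hB0 : incl B ≠ 0 := by
      unfold incl
      rw [RingHom.comp_apply, Ne, map_eq_zero_iff _ (RatFunc.algebraMap_injective ℚ), coe_mapRingHom]
      intro h3
      apply hB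
      apply hinjZ
      rw [h3, Polynomial.map_zero]
    rw [div_eq_div_iff hb0 hB0] at hAB
    have h3 : (cyclotomic n ℚ ^ k * a) * B.map (Int.castRingHom ℚ) = A.map (Int.castRingHom ℚ) * b := by
      apply RatFunc.algebraMap_injective ℚ
      rw [map_mul _ (cyclotomic n ℚ ^ k * a), map_mul _ (A.map (Int.castRingHom ℚ))]
      exact hAB
    have h4 : cyclotomic n ℚ ^ k ∣ A.map (Int.castRingHom ℚ) := by
      apply (hb.symm.pow_left (m := k)).dvd_of_dvd_mul_right
      rw [← h3, mul_assoc]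
      exact dvd_mul_right _ _
    have h5 : ((cyclotomic n ℤ) ^ k).map (Int.castRingHom ℚ) ∣ A.map (Int.castRingHom ℚ) := by
      rw [Polynomial.map_pow, map_cyclotomic]
      exact h4
    exact (Polynomial.map_dvd_map _ Int.cast_injective ((cyclotomic.monic n ℤ).pow k)).1 h5

/-- `q` in the local ring -/
noncomputable def qO : O n := algebraMap ℚ[X] (O n) X

theorem psi_qO : psi n (qO n) = RatFunc.X := by
  rw [qO, psi_algebraMap, RatFunc.algebraMap_X]

theorem unit_sub (j : ℕ) (hj : ¬ n ∣ j) : IsUnit (1 - qO n ^ j) := by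
  have h := unit_O (n := n) (coprime_cyc (NeZero.pos n) hj)
  rw [map_sub, map_one, map_pow] at h
  exact h

theorem unit_add (hodd : Odd n) (j : ℕ) : IsUnit (1 + qO n ^ j) := by
  have h := unit_O (n := n) (coprime_one_add (NeZero.pos n) hodd j)
  rw [map_add, map_one, map_pow] at h
  exact h

theorem unit_q (hn1 : 1 < n) : IsUnit (qO n) := by
  have h := unit_O (n := n) (f := X) (by
    have hirr : Irreducible (cyclotomic n ℚ) := cyclotomic.irreducible_rat (NeZero.pos n)
    rw [isCoprime_comm, hirr.coprime_iff_not_dvd]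
    intro h1
    have h2 := degree_le_of_dvd h1 X_ne_zero
    have h3 : (X : ℚ[X]) ∣ cyclotomic n ℚ := by
      obtain ⟨c, hc⟩ := h1
      have hX : Irreducible (X : ℚ[X]) := irreducible_X
      rcases hX.isUnit_or_isUnit hc with h4 | h4
      · exact absurd h4 hirr.not_isUnit
      · obtain ⟨u, hu⟩ := h4
        refine ⟨(↑u⁻¹ : ℚ[X]), ?_⟩
        rw [hc, ← hu, mul_assoc, Units.mul_inv, mul_one]
    rw [X_dvd_iff, cyclotomic_coeff_zero ℚ hn1] at h3
    exact one_ne_zero h3)
  exact h

/-- Gaussian binomials by the `q`-Pascal rule -/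
def gb {R : Type*} [CommRing R] (x : R) : ℕ → ℕ → R
  | _, 0 => 1
  | 0, _ + 1 => 0
  | m + 1, k + 1 => gb x m k + x ^ (k + 1) * gb x m (k + 1)

omit hn in
theorem gb_mul {R : Type*} [CommRing R] (x : R) : ∀ m a b : ℕ, a + b = m →
    gb x m a * (poch x x a * poch x x b) = poch x x m := by
  intro m
  induction m with
  | zero =>
    intro a b h
    obtain ⟨rfl, rfl⟩ : a = 0 ∧ b = 0 := by omega
    simp [gb, poch]
  | succ m ih =>
    intro a b h
    rcases a with _ | a
    · have hb : b = m + 1 := by omega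
      rw [hb, gb]
      simp [poch]
    · rcases b with _ | b
      · have ha : a = m := by omega
        have h1 := ih a 0 (by omega)
        subst ha
        have h0 : ∀ m a : ℕ, m < a → gb x m a = 0 := by
          intro m
          induction m with
          | zero =>
            intro a ha
            obtain ⟨a, rfl⟩ : ∃ a', a = a' + 1 := ⟨a - 1, by omega⟩
            rfl
          | succ m ihm =>
            intro a ha
            obtain ⟨a, rfl⟩ : ∃ a', a = a' + 1 := ⟨a - 1, by omega⟩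
            rw [gb, ihm a (by omega), ihm (a + 1) (by omega)]
            ring
        rw [gb, h0 a (a + 1) (by omega), poch_succ]
        have h2 : poch x x 0 = 1 := by simp [poch]
        rw [h2] at h1 ⊢
        linear_combination (1 - x * x ^ a) * h1
      · have h1 := ih a (b + 1) (by omega)
        have h2 := ih (a + 1) b (by omega)
        have hm : x ^ m = x ^ a * x ^ (b + 1) := by
          rw [← pow_add]
          congr 1
          omega
        rw [gb, poch_succ x x m, poch_succ x x a, poch_succ x x b] at *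
        rw [hm]
        linear_combination (1 - x * x ^ a) * h1 + x ^ (a + 1) * (1 - x * x ^ b) * h2

omit hn in
/-- `(x;x)_{2k} = (x;x^2)_k (x^2;x^2)_k` -/
theorem poch_double {R : Type*} [CommRing R] (x : R) (k : ℕ) :
    poch x x (2 * k) = poch x (x ^ 2) k * poch (x ^ 2) (x ^ 2) k := by
  induction k with
  | zero => simp [poch]
  | succ k ih =>
    rw [show 2 * (k + 1) = 2 * k + 1 + 1 by ring, poch_succ, poch_succ, ih, poch_succ, poch_succ]
    ring

omit hn in
/-- `(x^2;x^2)_k = (x;x)_k (-x;x)_k` -/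
theorem poch_sq {R : Type*} [CommRing R] (x : R) (k : ℕ) :
    poch (x ^ 2) (x ^ 2) k = poch x x k * poch (-x) x k := by
  induction k with
  | zero => simp [poch]
  | succ k ih =>
    rw [poch_succ, poch_succ, poch_succ, ih]
    ring

omit hn in
theorem map_poch {R T : Type*} [CommRing R] [CommRing T] (f : R →+* T) (a x : R) (k : ℕ) :
    f (poch a x k) = poch (f a) (f x) k := by
  unfold poch
  rw [map_prod]
  refine prod_congr rfl fun j _ => ?_
  rw [map_sub, map_one, map_mul, map_pow]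

omit hn in
theorem X_pow_ne {j : ℕ} (hj : 0 < j) : (1 : RatFunc ℚ) - RatFunc.X ^ j ≠ 0 := by
  rw [← RatFunc.algebraMap_X, ← map_pow, ← map_one (algebraMap ℚ[X] (RatFunc ℚ)), ← map_sub, Ne,
    map_eq_zero_iff _ (RatFunc.algebraMap_injective ℚ)]
  intro h
  have h1 := congrArg (eval 0) h
  rw [eval_sub, eval_one, eval_pow, eval_X, zero_pow (by omega), sub_zero, eval_zero] at h1
  exact one_ne_zero h1

omit hn in
theorem poch_X_ne {s : ℕ} (hs : 0 < s) (k : ℕ) :
    poch (RatFunc.X ^ s : RatFunc ℚ) (RatFunc.X ^ s) k ≠ 0 := by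
  unfold poch
  rw [prod_ne_zero_iff]
  intro j _
  rw [← pow_mul, ← pow_add]
  exact X_pow_ne (by omega)

/-- the element `(q^s;q^{2s})_k/(q^{2s};q^{2s})_k` of the local ring -/
noncomputable def AO (s k : ℕ) : O n :=
  gb (qO n ^ s) (2 * k) k * Ring.inverse (poch (-(qO n ^ s)) (qO n ^ s) k) ^ 2

theorem psi_AO (hodd : Odd n) {s : ℕ} (hs : 0 < s) (k : ℕ) :
    psi n (AO n s k) = poch (RatFunc.X ^ s) (RatFunc.X ^ (2 * s)) k /
      poch (RatFunc.X ^ (2 * s)) (RatFunc.X ^ (2 * s)) k := by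
  set x := qO n ^ s with hx
  have hu : IsUnit (poch (-x) x k) := by
    unfold poch
    apply Finset.prod_induction _ IsUnit (fun _ _ => IsUnit.mul) isUnit_one
    intro j _
    have h := unit_add n hodd (s * (j + 1))
    have e : 1 - -x * x ^ j = 1 + qO n ^ (s * (j + 1)) := by
      rw [pow_mul, ← hx]
      ring
    rw [e]
    exact h
  have h1 := gb_mul x (2 * k) k k (by ring)
  have h2 := poch_double x k
  have h3 := poch_sq x k
  have h4 : AO n s k * poch (x ^ 2) (x ^ 2) k ^ 2 = poch x (x ^ 2) k * poch (x ^ 2) (x ^ 2) k := by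
    rw [← h2, ← h1, AO, h3, ← hx]
    have h5 := Ring.inverse_mul_cancel _ hu
    linear_combination (gb x (2 * k) k * poch x x k ^ 2 *
      (Ring.inverse (poch (-x) x k) * poch (-x) x k + 1)) * h5
  have h5 := congrArg (psi n) h4
  have hpx : psi n x = RatFunc.X ^ s := by rw [hx, map_pow, psi_qO]
  rw [map_mul, map_pow, map_mul, map_poch, map_poch, map_pow, hpx, ← pow_mul, mul_comm s 2] at h5
  have h6 := poch_X_ne (s := 2 * s) (by omega) k
  rw [eq_div_iff h6]
  apply mul_right_cancel₀ h6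
  linear_combination h5

theorem AO_zero (s : ℕ) : AO n s 0 = 1 := by
  simp [AO, gb, poch]

theorem AO_rec (hodd : Odd n) {s : ℕ} (hs : 0 < s) (k : ℕ) :
    AO n s (k + 1) * (1 - qO n ^ (2 * s * (k + 1))) = AO n s k * (1 - qO n ^ (s * (2 * k + 1))) := by
  apply psi_injective n
  rw [map_mul, map_mul, psi_AO n hodd hs, psi_AO n hodd hs, map_sub, map_sub, map_one, map_pow, map_pow,
    psi_qO, poch_succ, poch_succ]
  have h6 := poch_X_ne (s := 2 * s) (by omega) k
  have h7 : (1 : RatFunc ℚ) - RatFunc.X ^ (2 * s * (k + 1)) ≠ 0 := X_pow_ne (by positivity)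
  have e1 : (1 : RatFunc ℚ) - RatFunc.X ^ (2 * s) * (RatFunc.X ^ (2 * s)) ^ k
      = 1 - RatFunc.X ^ (2 * s * (k + 1)) := by
    rw [← pow_mul, ← pow_add]
    congr 2
    ring
  have e2 : (1 : RatFunc ℚ) - RatFunc.X ^ s * (RatFunc.X ^ (2 * s)) ^ k
      = 1 - RatFunc.X ^ (s * (2 * k + 1)) := by
    rw [← pow_mul, ← pow_add]
    congr 2
    ring
  rw [e1, e2]
  field_simp

/-- the quotient ring modulo `Φ_n^2` -/
abbrev BO := O n ⧸ Ideal.span {algebraMap ℚ[X] (O n) (cyclotomic n ℚ) ^ 2}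

/-- the quotient map -/
noncomputable def mkB : O n →+* BO n := Ideal.Quotient.mk _

theorem mkB_eq_zero (s : O n) : mkB n s = 0 ↔ algebraMap ℚ[X] (O n) (cyclotomic n ℚ) ^ 2 ∣ s := by
  unfold mkB
  rw [Ideal.Quotient.eq_zero_iff_mem, Ideal.mem_span_singleton]

/-- the data of the block theorem -/
noncomputable def data (N : ℕ) (hN : n = 2 * N + 1) : Data (BO n) where
  q := mkB n (qO n)
  e := mkB n (qO n) ^ n - 1
  n := n
  N := N
  hn := hN
  he := by
    have h1 : algebraMap ℚ[X] (O n) (cyclotomic n ℚ) ^ 2 ∣ (qO n ^ n - 1) ^ 2 := by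
      apply pow_dvd_pow_of_dvd
      have h2 := map_dvd (algebraMap ℚ[X] (O n)) (cyclotomic.dvd_X_pow_sub_one n ℚ)
      rw [map_sub, map_pow, map_one] at h2
      exact h2
    have h3 := (mkB_eq_zero n _).2 h1
    rw [map_pow, map_sub, map_pow, map_one] at h3
    exact h3
  hq := by ring
  hu := by
    intro j hj
    have h := (unit_sub n j hj).map (mkB n)
    rw [map_sub, map_one, map_pow] at h
    exact h

theorem isA_AO (hodd : Odd n) {s : ℕ} (hs : 0 < s) (N : ℕ) (hN : n = 2 * N + 1) :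
    (data n N hN).IsA s (fun k => mkB n (AO n s k)) := by
  intro k
  have h := congrArg (mkB n) (AO_rec n hodd hs k)
  rw [map_mul, map_mul, map_sub, map_sub, map_one, map_pow, map_pow] at h
  exact h

end Pool.Agent.Q33.QPhi
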