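import Pool.Agent.Q33.QPhi.Rogers

/-! The one-period sum `∑ q^k (1+q^(4k+1)) ((q^2;q^4)_k/(q^4;q^4)_k)^3` modulo `Φ_n^2`, `n ≡ 3 (mod 4)`. -/

namespace Pool.Agent.Q33.QPhi

open Finset Polynomial

theorem X_pow_ne_pow {i j : ℕ} (h : i ≠ j) : (RatFunc.X : RatFunc ℚ) ^ i ≠ RatFunc.X ^ j := by
  rw [← RatFunc.algebraMap_X, ← map_pow, ← map_pow]
  intro h1
  have h2 := RatFunc.algebraMap_injective ℚ h1
  have h3 := congrArg natDegree h2
  rw [natDegree_X_pow, natDegree_X_pow] at h3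
  exact h h3

variable (n : ℕ) [hn : NeZero n]

theorem period_O (hn4 : n % 4 = 3) {N : ℕ} (hN : n = 2 * N + 1) (qi : O n) (hqi : qO n * qi = 1)
    (iv : ℕ → O n) (hiv : ∀ k, k ≤ N → iv k * (poch (qO n ^ 4) (qO n ^ 4) k *
      (poch (qO n ^ 4 * qi ^ (2 * n)) (qO n ^ 4) k * poch (qO n ^ 4 * qO n ^ (2 * n)) (qO n ^ 4) k)) = 1) :
    algebraMap ℚ[X] (O n) (cyclotomic n ℚ) ^ 2 ∣ ∑ k ∈ range (N + 1), qO n ^ k * (1 + qO n ^ (4 * k + 1)) *
      (poch (qO n ^ 2) (qO n ^ 4) k * (poch (qO n ^ 2 * qO n ^ (2 * n)) (qO n ^ 4) k *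
        poch (qO n ^ 2 * qi ^ (2 * n)) (qO n ^ 4) k)) * iv k := by
  set s := ∑ k ∈ range (N + 1), qO n ^ k * (1 + qO n ^ (4 * k + 1)) *
      (poch (qO n ^ 2) (qO n ^ 4) k * (poch (qO n ^ 2 * qO n ^ (2 * n)) (qO n ^ 4) k *
        poch (qO n ^ 2 * qi ^ (2 * n)) (qO n ^ 4) k)) * iv k with hs
  obtain ⟨x, hx⟩ : ∃ x : RatFunc ℚ, x = RatFunc.X := ⟨_, rfl⟩
  obtain ⟨xi, hxi⟩ : ∃ xi : RatFunc ℚ, xi = psi n qi := ⟨_, rfl⟩
  have hq : psi n (qO n) = x := by rw [psi_qO, hx]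
  have hxx : x * xi = 1 := by
    rw [hxi, ← hq, ← map_mul, hqi, map_one]
  have hxne : x ≠ 0 := left_ne_zero_of_mul_eq_one hxx
  have hxn : ∀ j : ℕ, 1 ≤ j → x ^ j ≠ 1 := by
    intro j hj
    rw [hx]
    have := X_pow_ne_pow (i := j) (j := 0) (by omega)
    rwa [pow_zero] at this
  have hpp : ∀ j : ℕ, x ^ j * xi ^ j = 1 := by
    intro j
    rw [← mul_pow, hxx, one_pow]
  -- the main identity in `ℚ(q)`
  have hmain := rogers (x ^ 2) (x ^ 2 * x ^ (2 * n)) x (xi ^ 2 * xi ^ (2 * n)) xi (x ^ 4) (xi ^ 4)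
    (by
      have h1 := hpp 2
      have h2 := hpp (2 * n)
      linear_combination (x ^ (2 * n) * xi ^ (2 * n)) * h1 + h2) hxx (hpp 4)
    (fun j hj => by rw [← pow_mul]; exact hxn _ (by omega))
    (fun j hj h => by
      have h1 := hpp 2
      have h2 := hpp (2 * n)
      have h3 : x ^ (4 * j) = x ^ (2 * n) := by
        rw [pow_mul]
        linear_combination x ^ (2 * n) * h - (x ^ (2 * n) * xi ^ (2 * n) * (x ^ 4) ^ j) * h1
          - ((x ^ 4) ^ j) * h2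
      rw [hx] at h3
      exact X_pow_ne_pow (by omega) h3)
    (fun j hj h => by
      have h3 : x ^ (4 * j + 1) = 1 := by
        rw [pow_succ, pow_mul]
        linear_combination h - x * (x ^ 4) ^ j * hxx
      exact hxn _ (by omega) h3)
    (fun j hj h => by
      have h3 : x ^ (4 * j + 2) = 1 := by
        rw [pow_add, pow_mul]
        linear_combination h
      exact hxn _ (by omega) h3) N
  have hab : x ^ 2 * (xi ^ 2 * xi ^ (2 * n)) = xi ^ (2 * n) := by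
    linear_combination xi ^ (2 * n) * hpp 2
  have hac : x ^ 2 * xi = x := by linear_combination x * hxx
  have habc : xi ^ (2 * n) * xi = xi ^ (2 * n + 1) := by rw [pow_succ]
  have hvN : (xi ^ 4) ^ N = x ^ 2 * xi ^ (2 * n) := by
    rw [← pow_mul, show 2 * n = 4 * N + 2 by omega, pow_add]
    linear_combination (-(xi ^ (4 * N))) * hpp 2
  have haQ : x ^ 2 * (x ^ 4) ^ (N + 1) = x ^ 4 * x ^ (2 * n) := by
    rw [← pow_mul, ← pow_add, ← pow_add]
    congr 1
    omega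
  have htt : x ^ 2 * (x ^ 4) ^ (N + 1) * (xi ^ 2 * xi ^ (2 * n)) * xi = x := by
    rw [haQ]
    have h2 := hpp (2 * n)
    have h3 := hpp 2
    linear_combination (x ^ 4 * xi ^ 3) * h2 + (x ^ 2 * xi) * h3 + x * hxx
  have hiv' : ∀ k, k ≤ N → psi n (iv k) = (poch (x ^ 4) (x ^ 4) k *
      (poch (x ^ 4 * xi ^ (2 * n)) (x ^ 4) k * poch (x ^ 4 * x ^ (2 * n)) (x ^ 4) k))⁻¹ := by
    intro k hk
    have h1 := congrArg (psi n) (hiv k hk)
    rw [map_mul, map_mul, map_mul, map_poch, map_poch, map_poch, map_mul, map_mul, map_pow, map_pow, map_pow,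
      hq, ← hxi, map_one] at h1
    exact eq_inv_of_mul_eq_one_left h1
  have hsum : ∑ k ∈ range (N + 1), tau (x ^ 2) (x ^ 2 * x ^ (2 * n)) x (xi ^ 2 * xi ^ (2 * n)) xi (x ^ 4) (xi ^ 4) N k
      = (1 - x) * psi n s := by
    rw [hs, map_sum, mul_sum]
    refine sum_congr rfl fun k hk => ?_
    rw [mem_range] at hk
    have hk' : k ≤ N := by omega
    rw [map_mul, hiv' k hk']
    simp only [map_mul, map_pow, map_add, map_one, map_poch, hq, ← hxi]
    unfold tau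
    rw [hab, hac, hvN, haQ, ← haQ, htt, haQ]
    have h1 := poch_succ' x (x ^ 4) k
    rw [poch_succ] at h1
    have h2 : poch (x * x ^ 4) (x ^ 4) k ≠ 0 := by
      unfold poch
      rw [prod_ne_zero_iff]
      intro l _ h
      apply hxn (4 * l + 5) (by omega)
      rw [show 4 * l + 5 = 1 + 4 + 4 * l by ring, pow_add, pow_add, pow_one, pow_mul]
      linear_combination -h
    have h3 : (1 - x ^ 2 * ((x ^ 4) ^ k) ^ 2) * (poch x (x ^ 4) k / poch (x * x ^ 4) (x ^ 4) k)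
        = (1 - x) * (1 + x ^ (4 * k + 1)) := by
      rw [← mul_div_assoc, div_eq_iff h2, pow_succ x (4 * k), pow_mul]
      linear_combination (1 + x * (x ^ 4) ^ k) * h1
    have h4 : (1 - x ^ 2 * ((x ^ 4) ^ k) ^ 2) *
        (poch (x ^ 2) (x ^ 4) k * poch (x ^ 2 * x ^ (2 * n)) (x ^ 4) k * poch x (x ^ 4) k /
          (poch (x ^ 4) (x ^ 4) k * poch (xi ^ (2 * n) * x ^ 4) (x ^ 4) k * poch (x * x ^ 4) (x ^ 4) k)) *
        poch (x ^ 2 * xi ^ (2 * n)) (x ^ 4) k * (poch (x ^ 4 * x ^ (2 * n)) (x ^ 4) k)⁻¹ * x ^ k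
        = ((1 - x ^ 2 * ((x ^ 4) ^ k) ^ 2) * (poch x (x ^ 4) k / poch (x * x ^ 4) (x ^ 4) k)) *
          (x ^ k * (poch (x ^ 2) (x ^ 4) k * (poch (x ^ 2 * x ^ (2 * n)) (x ^ 4) k *
            poch (x ^ 2 * xi ^ (2 * n)) (x ^ 4) k)) *
            (poch (x ^ 4) (x ^ 4) k * (poch (xi ^ (2 * n) * x ^ 4) (x ^ 4) k * poch (x ^ 4 * x ^ (2 * n)) (x ^ 4) k))⁻¹) := by
      rw [mul_inv, mul_inv, div_eq_mul_inv, div_eq_mul_inv, mul_inv, mul_inv]
      ring
    rw [h4, h3, mul_comm (xi ^ (2 * n)) (x ^ 4)]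
    ring
  rw [hsum] at hmain
  have hx1 : 1 - x ≠ 0 := by
    have := hxn 1 le_rfl
    rw [pow_one] at this
    exact sub_ne_zero.2 this.symm
  have hK : psi n s * ∏ j ∈ range N, ((1 - xi ^ (2 * n) * x ^ (4 * (j + 1))) * (1 - x * x ^ (4 * (j + 1))))
      = (1 + x) * ∏ j ∈ range N, ((1 - x ^ 2 * x ^ (4 * (j + 1))) * (1 - xi ^ (2 * n + 1) * x ^ (4 * (j + 1)))) := by
    apply mul_left_cancel₀ hx1
    have e1 : ∏ j ∈ range N, ((1 - xi ^ (2 * n) * x ^ (4 * (j + 1))) * (1 - x * x ^ (4 * (j + 1))))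
        = ∏ j ∈ range N, ((1 - x ^ 2 * (xi ^ 2 * xi ^ (2 * n)) * (x ^ 4) ^ (j + 1)) * (1 - x ^ 2 * xi * (x ^ 4) ^ (j + 1))) := by
      refine prod_congr rfl fun j _ => ?_
      rw [hab, hac, ← pow_mul]
    have e2 : ∏ j ∈ range N, ((1 - x ^ 2 * x ^ (4 * (j + 1))) * (1 - xi ^ (2 * n + 1) * x ^ (4 * (j + 1))))
        = ∏ j ∈ range N, ((1 - x ^ 2 * (x ^ 4) ^ (j + 1)) * (1 - x ^ 2 * (xi ^ 2 * xi ^ (2 * n)) * xi * (x ^ 4) ^ (j + 1))) := by
      refine prod_congr rfl fun j _ => ?_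
      rw [hab, habc, ← pow_mul]
    rw [e1, e2]
    linear_combination hmain
  -- back to the local ring
  have hO : s * ∏ j ∈ range N, ((1 - qi ^ (2 * n) * qO n ^ (4 * (j + 1))) * (1 - qO n * qO n ^ (4 * (j + 1))))
      = (1 + qO n) * ∏ j ∈ range N, ((1 - qO n ^ 2 * qO n ^ (4 * (j + 1))) * (1 - qi ^ (2 * n + 1) * qO n ^ (4 * (j + 1)))) := by
    apply psi_injective n
    rw [map_mul, map_mul, map_prod, map_prod, map_add, map_one, hq]
    refine Eq.trans ?_ (hK.trans ?_)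
    · congr 1
      refine prod_congr rfl fun j _ => ?_
      rw [map_mul, map_sub, map_sub, map_one, map_mul, map_mul, map_pow, map_pow, hq, ← hxi]
    · congr 1
      refine prod_congr rfl fun j _ => ?_
      rw [map_mul, map_sub, map_sub, map_one, map_mul, map_mul, map_pow, map_pow, map_pow, hq, ← hxi]
  have hpq : ∀ j : ℕ, qO n ^ j * qi ^ j = 1 := by
    intro j
    rw [← mul_pow, hqi, one_pow]
  have hunit : IsUnit (∏ j ∈ range N, ((1 - qi ^ (2 * n) * qO n ^ (4 * (j + 1))) * (1 - qO n * qO n ^ (4 * (j + 1))))) := by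
    apply Finset.prod_induction _ IsUnit (fun _ _ => IsUnit.mul) isUnit_one
    intro j hj
    rw [mem_range] at hj
    apply IsUnit.mul
    · have h1 : qi ^ (2 * n) * qO n ^ (4 * (j + 1)) * qO n ^ (2 * n - 4 * (j + 1)) = 1 := by
        rw [mul_assoc, ← pow_add, show 4 * (j + 1) + (2 * n - 4 * (j + 1)) = 2 * n by omega, mul_comm]
        exact hpq _
      have h2 : 1 - qi ^ (2 * n) * qO n ^ (4 * (j + 1))
          = -(qi ^ (2 * n) * qO n ^ (4 * (j + 1))) * (1 - qO n ^ (2 * n - 4 * (j + 1))) := by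
        linear_combination -h1
      rw [h2]
      refine (IsUnit.of_mul_eq_one _ h1).neg.mul (unit_sub n _ ?_)
      intro h3
      have h4 : n ∣ 4 * (j + 1) := by
        have h5 : 4 * (j + 1) = 2 * n - (2 * n - 4 * (j + 1)) := by omega
        rw [h5]
        exact Nat.dvd_sub (dvd_mul_left n 2) h3
      have h6 : n.Coprime 4 := by
        have h7 : n.Coprime 2 := by
          rw [hN]
          simp
        exact Nat.Coprime.mul_right h7 h7
      have := Nat.le_of_dvd (by omega) (h6.dvd_of_dvd_mul_left h4)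
      omega
    · rw [← pow_succ']
      apply unit_sub
      intro h3
      obtain ⟨m, hm⟩ := h3
      have h5 : m < 2 := by
        by_contra h6
        have : n * 2 ≤ n * m := Nat.mul_le_mul_left _ (by omega)
        omega
      interval_cases m
      · omega
      · omega
  have hcyc : algebraMap ℚ[X] (O n) (cyclotomic n ℚ) ∣ 1 - qO n ^ n := by
    have h2 := map_dvd (algebraMap ℚ[X] (O n)) (cyclotomic.dvd_X_pow_sub_one n ℚ)
    rw [map_sub, map_pow, map_one] at h2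
    rw [← dvd_neg, neg_sub]
    exact h2
  have hdvd : algebraMap ℚ[X] (O n) (cyclotomic n ℚ) ^ 2 ∣
      (1 + qO n) * ∏ j ∈ range N, ((1 - qO n ^ 2 * qO n ^ (4 * (j + 1))) * (1 - qi ^ (2 * n + 1) * qO n ^ (4 * (j + 1)))) := by
    apply Dvd.dvd.mul_left
    rw [prod_mul_distrib, sq]
    apply mul_dvd_mul
    · refine dvd_trans ?_ (dvd_prod_of_mem _ (mem_range.2 (show N - 1 < N by omega)))
      have e : qO n ^ 2 * qO n ^ (4 * (N - 1 + 1)) = qO n ^ n * qO n ^ n := by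
        rw [← pow_add, ← pow_add]
        congr 1
        omega
      rw [e]
      have e2 : 1 - qO n ^ n * qO n ^ n = (1 - qO n ^ n) * (1 + qO n ^ n) := by ring
      rw [e2]
      exact hcyc.mul_right _
    · refine dvd_trans ?_ (dvd_prod_of_mem _ (mem_range.2 (show (n - 3) / 4 < N by omega)))
      have e : qi ^ (2 * n + 1) * qO n ^ (4 * ((n - 3) / 4 + 1)) = qi ^ n := by
        rw [show 4 * ((n - 3) / 4 + 1) = n + 1 by omega, show 2 * n + 1 = n + (n + 1) by ring, pow_add]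
        linear_combination qi ^ n * hpq (n + 1)
      rw [e]
      have e2 : 1 - qi ^ n = -qi ^ n * (1 - qO n ^ n) := by
        linear_combination -hpq n
      rw [e2]
      exact hcyc.mul_left _
  rw [← hO] at hdvd
  exact (hunit.dvd_mul_right).1 hdvd

end Pool.Agent.Q33.QPhi
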